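import Pool.Agent.FLG.K.Defs
import Pool.Agent.DSTJ.SpecD

/-!
# FLG-KRing: the representation ring
-/

set_option autoImplicit false

open scoped BigOperators Topology
open Filter
open Pool.Agent.DST.TE Pool.Agent.DSTJ.Spec

namespace Pool.Agent.FLG.RS

variable {r : ℕ} {D : RS r}

theorem chr_zero : (chr (0 : Fin r → ℤ) : RH r) = 1 := rfl

theorem chr_add (μ ν : Fin r → ℤ) : (chr (μ + ν) : RH r) = chr μ * chr ν := by
  unfold chr
  rw [AddMonoidAlgebra.single_mul_single, mul_one]

theorem chr_mul_neg (μ : Fin r → ℤ) : (chr μ * chr (-μ) : RH r) = 1 := by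
  rw [← chr_add, add_neg_cancel, chr_zero]

theorem isUnit_chr (μ : Fin r → ℤ) : IsUnit (chr μ : RH r) :=
  IsUnit.of_mul_eq_one _ (chr_mul_neg μ)

theorem evK_chr (y : Fin r → ℂ) (μ : Fin r → ℤ) :
    evK y (chr μ) = Complex.exp (2 * Real.pi * Complex.I * pr μ y) := by
  unfold chr
  rw [evK_single, Int.cast_one, one_mul]

private theorem wK_single (w : D.W) (μ : Fin r → ℤ) (n : ℤ) :
    D.wK w (AddMonoidAlgebra.single μ n) = AddMonoidAlgebra.single (D.rt w μ) n := by
  show AddMonoidAlgebra.mapDomain _ _ = _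
  rw [AddMonoidAlgebra.mapDomain_single]
  rfl

private theorem sK_single (μ : Fin r → ℤ) (n : ℤ) :
    sK (AddMonoidAlgebra.single μ n : RH r) = AddMonoidAlgebra.single (-μ) n := by
  show AddMonoidAlgebra.mapDomain _ _ = _
  rw [AddMonoidAlgebra.mapDomain_single]
  rfl

theorem wK_chr (w : D.W) (μ : Fin r → ℤ) : D.wK w (chr μ) = chr (D.rt w μ) :=
  wK_single w μ 1

theorem wK_mul (u w : D.W) (f : RH r) : D.wK (u * w) f = D.wK u (D.wK w f) := by
  have h : D.wK (u * w) = (D.wK u).comp (D.wK w) := by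
    refine AddMonoidAlgebra.ringHom_ext (fun n => ?_) (fun μ => ?_)
    · rw [RingHom.comp_apply, wK_single, wK_single, wK_single, rt_mul]
    · rw [RingHom.comp_apply, wK_single, wK_single, wK_single, rt_mul]
  exact congrArg (fun g => g f) h

theorem wK_one (f : RH r) : D.wK 1 f = f := by
  have h : D.wK 1 = RingHom.id (RH r) := by
    refine AddMonoidAlgebra.ringHom_ext (fun n => ?_) (fun μ => ?_)
    · rw [wK_single, rt_one]; rfl
    · rw [wK_single, rt_one]; rfl
  exact congrArg (fun g => g f) h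

theorem evK_wK (w : D.W) (f : RH r) (y : Fin r → ℂ) :
    evK y (D.wK w f) = evK (D.yt w⁻¹ y) f := by
  have h : (evK y).comp (D.wK w) = evK (D.yt w⁻¹ y) := by
    refine AddMonoidAlgebra.ringHom_ext (fun n => ?_) (fun μ => ?_)
    · rw [RingHom.comp_apply, wK_single, evK_single, evK_single, pr_rt]
    · rw [RingHom.comp_apply, wK_single, evK_single, evK_single, pr_rt]
  exact congrArg (fun g => g f) h

theorem sK_chr (μ : Fin r → ℤ) : sK (chr μ : RH r) = chr (-μ) := sK_single μ 1

theorem sK_sK (f : RH r) : sK (sK f) = f := by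
  have h : (sK : RH r →+* RH r).comp sK = RingHom.id (RH r) := by
    refine AddMonoidAlgebra.ringHom_ext (fun n => ?_) (fun μ => ?_)
    · rw [RingHom.comp_apply, sK_single, sK_single, neg_neg]; rfl
    · rw [RingHom.comp_apply, sK_single, sK_single, neg_neg]; rfl
  exact congrArg (fun g => g f) h

private theorem pr_neg_left (a : Fin r → ℤ) (y : Fin r → ℂ) : pr (-a) y = pr a (-y) := by
  unfold pr
  refine Finset.sum_congr rfl fun i _ => ?_
  rw [Pi.neg_apply, Pi.neg_apply]
  push_cast
  ring

theorem evK_sK (f : RH r) (y : Fin r → ℂ) : evK y (sK f) = evK (-y) f := by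
  have h : (evK y).comp (sK : RH r →+* RH r) = evK (-y) := by
    refine AddMonoidAlgebra.ringHom_ext (fun n => ?_) (fun μ => ?_)
    · rw [RingHom.comp_apply, sK_single, evK_single, evK_single, pr_neg_left]
    · rw [RingHom.comp_apply, sK_single, evK_single, evK_single, pr_neg_left]
  exact congrArg (fun g => g f) h

theorem wK_sK (w : D.W) (f : RH r) : D.wK w (sK f) = sK (D.wK w f) := by
  have h : (D.wK w).comp (sK : RH r →+* RH r) = (sK : RH r →+* RH r).comp (D.wK w) := by
    refine AddMonoidAlgebra.ringHom_ext (fun n => ?_) (fun μ => ?_)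
    · rw [RingHom.comp_apply, RingHom.comp_apply, sK_single, wK_single, wK_single, sK_single, rt_neg]
    · rw [RingHom.comp_apply, RingHom.comp_apply, sK_single, wK_single, wK_single, sK_single, rt_neg]
  exact congrArg (fun g => g f) h

/-- induction on elements of the representation ring -/
theorem RH_induction {P : RH r → Prop} (hchr : ∀ μ, P (chr μ)) (hadd : ∀ f g, P f → P g → P (f + g))
    (hneg : ∀ f, P f → P (-f)) (h0 : P 0) (f : RH r) : P f := by
  have hn : ∀ (μ : Fin r → ℤ) (n : ℕ), P (AddMonoidAlgebra.single μ (n : ℤ)) := by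
    intro μ n
    induction n with
    | zero => rw [Nat.cast_zero, AddMonoidAlgebra.single_zero]; exact h0
    | succ n ih =>
      rw [Nat.cast_succ, AddMonoidAlgebra.single_add]
      exact hadd _ _ ih (hchr μ)
  have hz : ∀ (μ : Fin r → ℤ) (n : ℤ), P (AddMonoidAlgebra.single μ n) := by
    intro μ n
    obtain ⟨k, rfl | rfl⟩ := n.eq_nat_or_neg
    · exact hn μ k
    · rw [AddMonoidAlgebra.single_neg]
      exact hneg _ (hn μ k)
  refine AddMonoidAlgebra.induction_linear f h0 (fun f g hf hg => hadd f g hf hg) (fun μ n => hz μ n)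

end Pool.Agent.FLG.RS
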