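import Pool.Agent.FLG.K.Exi

/-!
# FLG-KBas: every class is a combination of the `B_w`
-/

set_option autoImplicit false

open scoped BigOperators Topology
open Filter
open Pool.Agent.DST.TE Pool.Agent.DSTJ.Spec

namespace Pool.Agent.FLG.RS

variable {r : ℕ} {D : RS r}

/-- the reflections of inversions are shorter -/
private theorem ba_short {w : D.W} {b : Fin r → ℤ} (hb : b ∈ D.Pos) (h : D.rt w⁻¹ b ∉ D.Pos) :
    D.len (D.refl b * w) < D.len w := by
  have hΦ := mem_of_pos hb
  have h1 : D.rt w⁻¹ b ∈ D.Φ := D.rt_mem.2 hΦ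
  have h2 : -D.rt w⁻¹ b ∈ D.Pos := (not_pos_iff h1).1 h
  have h3 : w * D.refl (-D.rt w⁻¹ b) = D.refl b * w := by
    rw [refl_neg h1, refl_rt w⁻¹ hΦ, inv_inv, mul_assoc, mul_inv_cancel_left]
  have h4 : D.rt w (-D.rt w⁻¹ b) ∉ D.Pos := by
    rw [D.rt_neg, D.rt_rt_inv]
    exact neg_not_pos hb
  have h5 := len_lt_of_neg w h2 h4
  rwa [h3] at h5

/-- the value at an element of minimal length is divisible by the leading coefficient -/
private theorem ba_dvd {f : D.W → RH r} (hf : D.GKM f) {w : D.W}
    (h0 : ∀ p, D.len p < D.len w → f p = 0) : ∃ c : RH r, f w = c * D.Bk w w := by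
  have h1 : (∏ b ∈ D.Inv w, (1 - chr b : RH r)) ∣ f w := by
    refine dvd_prod ?_ ?_
    · intro a ha b hb hne n k h
      unfold Inv at ha hb
      exact indep_pos (Finset.mem_filter.1 ha).1 (Finset.mem_filter.1 hb).1 hne n k h
    · intro b hb
      unfold Inv at hb
      rw [Finset.mem_filter] at hb
      have h2 := hf w b (mem_of_pos hb.1)
      rwa [h0 _ (ba_short hb.1 hb.2), sub_zero] at h2
  obtain ⟨c, hc⟩ := h1
  refine ⟨c, ?_⟩
  rw [(isB_Bk w).diag, hc, mul_comm]

private theorem ba_main (n : ℕ) : ∀ (k : ℕ) (f : D.W → RH r), D.dm + 1 ≤ n + k → D.GKM f →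
    (∀ p, D.len p < k → f p = 0) → ∃ c : D.W → RH r, ∀ p, f p = ∑ w, c w * D.Bk w p := by
  induction n with
  | zero =>
    intro k f hk _ h0
    refine ⟨fun _ => 0, fun p => ?_⟩
    rw [h0 p (by have := len_le_dm p; omega), Finset.sum_eq_zero]
    intro w _
    rw [zero_mul]
  | succ n ih =>
    intro k f hk hf h0
    have h1 : ∀ w : D.W, ∃ c : RH r, D.len w = k → f w = c * D.Bk w w := by
      intro w
      by_cases hw : D.len w = k
      · obtain ⟨c, hc⟩ := ba_dvd hf (w := w) (fun p hp => h0 p (by omega))
        exact ⟨c, fun _ => hc⟩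
      · exact ⟨0, fun h => absurd h hw⟩
    choose c hc using h1
    set c' : D.W → RH r := fun w => if D.len w = k then c w else 0 with hc'
    have hg : D.GKM fun p => f p + ∑ w, (-c' w) * D.Bk w p := by
      refine gkm_add hf (gkm_sum _ fun w _ => ?_)
      exact gkm_mul (gkm_const _) (isB_Bk w).gkm
    obtain ⟨d, hd⟩ := ih (k + 1) _ (by omega) hg (by
      intro p hp
      by_cases hpk : D.len p = k
      · rw [Finset.sum_eq_single p]
        · rw [hc p hpk]
          simp only [hc', if_pos hpk]
          ring
        · intro w _ hw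
          by_cases hwk : D.len w = k
          · have h2 : D.Bk w p = 0 := by
              by_contra h3
              have h4 := ((isB_Bk w).supp p h3).len_lt hw
              omega
            rw [h2, mul_zero]
          · simp only [hc', if_neg hwk]
            ring
        · intro h
          exact absurd (Finset.mem_univ p) h
      · rw [h0 p (by omega), zero_add]
        refine Finset.sum_eq_zero fun w _ => ?_
        by_cases hwk : D.len w = k
        · have h2 : D.Bk w p = 0 := by
            by_contra h3
            have h4 := ((isB_Bk w).supp p h3).len_le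
            omega
          rw [h2, mul_zero]
        · simp only [hc', if_neg hwk]
          ring)
    refine ⟨fun w => d w + c' w, fun p => ?_⟩
    have h5 := hd p
    simp only [neg_mul, Finset.sum_neg_distrib] at h5
    simp only [add_mul, Finset.sum_add_distrib]
    rw [← h5]
    ring

theorem gkm_basis {f : D.W → RH r} (hf : D.GKM f) :
    ∃ c : D.W → RH r, ∀ p, f p = ∑ w, c w * D.Bk w p :=
  ba_main (D.dm + 1) 0 f (by omega) hf (fun p hp => absurd hp (Nat.not_lt_zero _))

end Pool.Agent.FLG.RS
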