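import Pool.Agent.FLG.K.ClsM
import Pool.Agent.FLG.Scale

/-!
# FLG-KGamB: Chern characters of line bundles

The exponential of the classical product is homogeneous.
-/

set_option autoImplicit false

open scoped BigOperators Topology
open Filter
open Pool.Agent.DST.TE Pool.Agent.DSTJ.Spec

namespace Pool.Agent.FLG.RS

variable {r : ℕ} {D : RS r}

/-- the Chern character `ch(L_h)` of the line bundle of `h` at `λ = 0` -/
noncomputable def chL (D : RS r) (h : Fin r → ℂ) (u : D.W) : ℂ := NormedSpace.exp (D.E0 (D.ch h)) u 1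

private theorem gb_neg (a : Fin r → ℤ) (y : Fin r → ℂ) : pr (-a) y = -pr a y := by
  simp only [pr, Pi.neg_apply, Int.cast_neg, neg_mul, Finset.sum_neg_distrib]

private theorem gb_hv0 (h : Fin r → ℂ) (u : D.W) : D.hv h u 0 = 0 := by
  unfold hv
  rw [D.yt_zero]
  simp

private theorem gb_C0 (h : Fin r → ℂ) : D.C0 h 0 = D.E0 (D.ch h) := by
  unfold C0
  ext u v
  rw [Matrix.sub_apply, Matrix.diagonal_apply]
  by_cases huv : u = v
  · rw [if_pos huv, gb_hv0, sub_zero]
  · rw [if_neg huv, sub_zero]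

private theorem gb_conj {c : ℂ} (hc : c ≠ 0) (e : (Fin r → ℤ) → ℂ) (u : D.W) :
    NormedSpace.exp (c • D.E0 e) u 1 = c ^ D.len u * NormedSpace.exp (D.E0 e) u 1 := by
  have hT : (Matrix.diagonal (fun u : D.W => c ^ D.len u)) * Matrix.diagonal (fun u : D.W => (c ^ D.len u)⁻¹) = 1 := by
    rw [Matrix.diagonal_mul_diagonal, ← Matrix.diagonal_one]
    congr 1
    funext v
    exact mul_inv_cancel₀ (pow_ne_zero _ hc)
  have hinv : (Matrix.diagonal (fun u : D.W => c ^ D.len u))⁻¹ = Matrix.diagonal (fun u : D.W => (c ^ D.len u)⁻¹) :=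
    Matrix.inv_eq_right_inv hT
  have hU : IsUnit (Matrix.diagonal (fun u : D.W => c ^ D.len u)) :=
    (Matrix.isUnit_iff_isUnit_det _).2 (Matrix.isUnit_det_of_right_inverse hT)
  have h1 : c • D.E0 e = Matrix.diagonal (fun u : D.W => c ^ D.len u) * D.E0 e *
      (Matrix.diagonal (fun u : D.W => c ^ D.len u))⁻¹ := by
    rw [hinv]
    ext v w
    rw [Matrix.mul_diagonal, Matrix.diagonal_mul, Matrix.smul_apply, smul_eq_mul]
    by_cases h0 : D.E0 e v w = 0
    · rw [h0]
      simp
    · rw [E0_ne h0, pow_succ]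
      have h2 : c ^ D.len w ≠ 0 := pow_ne_zero _ hc
      field_simp
  rw [h1, Matrix.exp_conj _ _ hU, hinv, Matrix.mul_diagonal, Matrix.diagonal_mul, len_one, pow_zero, inv_one, mul_one]

theorem cls_LB {h : Fin r → ℂ} (hh : D.IsWt h) (u : D.W) :
    D.cls (fun p y => evK y (D.LB h p)) 0 u = (2 * Real.pi * Complex.I) ^ D.len u * D.chL h u := by
  have h1 : (fun (p : D.W) (y : Fin r → ℂ) => evK y (D.LB h p)) =
      fun p y => Complex.exp (2 * Real.pi * Complex.I * D.hv h 1 y) *
        Complex.exp (-(2 * Real.pi * Complex.I * D.hv h p y)) := by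
    funext p y
    unfold LB
    rw [evK_chr, gb_neg, ← Complex.exp_add]
    congr 1
    have h2 := dl_spec hh p y
    rw [h2]
    ring
  have h3 : D.GH (fun (p : D.W) (y : Fin r → ℂ) => Complex.exp (-(2 * Real.pi * Complex.I * D.hv h p y))) 0 := by
    have h4 := gh_exp (D := D) (-(2 * Real.pi * Complex.I)) h 0
    have h5 : (fun (p : D.W) (y : Fin r → ℂ) => Complex.exp (-(2 * Real.pi * Complex.I * D.hv h p y))) =
        fun p y => Complex.exp (-(2 * Real.pi * Complex.I) * D.hv h p y) := by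
      funext p y
      rw [neg_mul]
    rw [h5]
    exact h4
  have h6 : ∀ᶠ y in 𝓝 (0 : Fin r → ℂ), DifferentiableAt ℂ
      (fun y => Complex.exp (2 * Real.pi * Complex.I * D.hv h 1 y)) y := by
    refine Eventually.of_forall fun y => ?_
    unfold hv yt
    fun_prop
  rw [h1, cls_smul h6 h3, cls_exp, gb_hv0, mul_zero, Complex.exp_zero, one_mul, gb_C0, gb_conj]
  · rfl
  · simp [Real.pi_ne_zero]

/-- the Chern character of a combination of line bundles -/
theorem cls_lin {f : D.W → RH r} {n : ℕ} {h : Fin n → Fin r → ℂ} {a : Fin n → RH r}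
    (hh : ∀ k, D.IsWt (h k)) (hf : ∀ p, f p = ∑ k, a k * D.LB (h k) p) (u : D.W) :
    D.cls (fun p y => evK y (f p)) 0 u =
      (2 * Real.pi * Complex.I) ^ D.len u * ∑ k, evK 0 (a k) * D.chL (h k) u := by
  have h1 : (fun (p : D.W) (y : Fin r → ℂ) => evK y (f p)) =
      fun p y => ∑ k, evK y (a k) * evK y (D.LB (h k) p) := by
    funext p y
    rw [hf p, map_sum]
    exact Finset.sum_congr rfl fun k _ => map_mul _ _ _
  have h2 : ∀ k, ∀ᶠ y in 𝓝 (0 : Fin r → ℂ), DifferentiableAt ℂ (fun y => evK y (a k)) y :=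
    fun k => Eventually.of_forall fun y => (evK_diff (a k)).differentiableAt
  have h3 : ∀ k, D.GH (fun (p : D.W) (y : Fin r → ℂ) => evK y (D.LB (h k) p)) 0 :=
    fun k => gh_evK (gkm_LB (hh k)) 0
  rw [h1, cls_sum Finset.univ (H := fun k p y => evK y (a k) * evK y (D.LB (h k) p))
    (fun k _ => gh_mul (gh_const (h2 k)) (h3 k)) u, Finset.mul_sum]
  refine Finset.sum_congr rfl fun k _ => ?_
  rw [cls_smul (h2 k) (h3 k), cls_LB (hh k)]
  ring

end Pool.Agent.FLG.RS
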