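import Pool.Agent.FLG.K.Den

/-!
# FLG-K-Weyl: the Weyl dimension formula

From the denominator formula, evaluated at the points `s Y`, `Y` dual to `2ρ`, `Y'` dual to `2h + 2ρ`.
-/

set_option autoImplicit false

open scoped BigOperators Topology
open Filter
open Pool.Agent.DST.TE Pool.Agent.DSTJ.Spec

namespace Pool.Agent.FLG.RS

variable {r : ℕ} {D : RS r}

/-- the point dual to `h` under the invariant form -/
private noncomputable def wd_pt (D : RS r) (h : Fin r → ℂ) : Fin r → ℂ :=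
  fun j => ∑ i, h i * (D.form (al i) (al j) : ℂ)

private theorem wd_form_symm (x y : Fin r → ℤ) : D.form x y = D.form y x := by
  unfold form
  exact Finset.sum_congr rfl fun b _ => mul_comm _ _

private theorem wd_form_expand (x a : Fin r → ℤ) : D.form x a = ∑ j, a j * D.form x (al j) := by
  unfold form
  simp only [Finset.mul_sum]
  rw [Finset.sum_comm]
  refine Finset.sum_congr rfl fun b _ => ?_
  have h1 : dotProduct (D.co b) a = ∑ i, D.co b i * a i := rfl
  rw [h1, Finset.mul_sum]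
  refine Finset.sum_congr rfl fun i _ => ?_
  rw [dot_al]
  ring

private theorem wd_pr (h : Fin r → ℂ) (x : Fin r → ℤ) :
    pr x (wd_pt D h) = ∑ i, h i * (D.form (al i) x : ℂ) := by
  unfold pr wd_pt
  simp only [Finset.mul_sum]
  rw [Finset.sum_comm]
  refine Finset.sum_congr rfl fun i _ => ?_
  rw [wd_form_expand (al i) x]
  push_cast
  rw [Finset.mul_sum]
  exact Finset.sum_congr rfl fun j _ => by ring

private theorem wd_pr_root (h : Fin r → ℂ) {b : Fin r → ℤ} (hb : b ∈ D.Φ) :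
    2 * pr b (wd_pt D h) = D.ch h b * (D.form b b : ℂ) := by
  rw [wd_pr, Finset.mul_sum]
  unfold ch
  rw [Finset.sum_mul]
  refine Finset.sum_congr rfl fun i _ => ?_
  have h1 := form_co hb (al i)
  rw [dot_al] at h1
  have h2 : (2 : ℂ) * (D.form (al i) b : ℂ) = (D.co b i : ℂ) * (D.form b b : ℂ) := by
    exact_mod_cast h1
  linear_combination (h i) * h2

private theorem wd_yt (w : D.W) (y : Fin r → ℂ) (j : Fin r) : D.yt w⁻¹ y j = pr (D.rt w (al j)) y := by
  rw [pr_rt]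
  unfold pr
  rw [Finset.sum_eq_single j]
  · unfold al
    rw [Pi.single_eq_same, Int.cast_one, one_mul]
  · intro i _ hi
    unfold al
    rw [Pi.single_eq_of_ne hi, Int.cast_zero, zero_mul]
  · intro h
    exact absurd (Finset.mem_univ j) h

private theorem wd_hv (g : Fin r → ℂ) (p : D.W) :
    D.hv g p (wd_pt D D.ctr) = pr (D.rt p⁻¹ D.tr) (wd_pt D g) := by
  rw [wd_pr]
  unfold hv
  refine Finset.sum_congr rfl fun j _ => ?_
  rw [wd_yt, wd_pr]
  congr 1
  have h1 : D.form (al j) (D.rt p⁻¹ D.tr) = D.form (D.rt p (al j)) D.tr := by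
    have h2 := form_rt (D := D) p (al j) (D.rt p⁻¹ D.tr)
    rw [D.rt_rt_inv] at h2
    exact h2.symm
  rw [h1, wd_form_symm, wd_form_symm, wd_form_symm (D.rt p (al j)) D.tr]
  rw [wd_form_symm, wd_form_expand (D.rt p (al j)) D.tr]
  push_cast
  refine Finset.sum_congr rfl fun i _ => ?_
  rw [wd_form_symm (al i)]
  rfl

private theorem wd_ch_ctr (b : Fin r → ℤ) : D.ch D.ctr b = (D.L b : ℂ) := by
  unfold ch L ctr
  have h1 : dotProduct (D.co b) D.tr = ∑ j, D.co b j * D.tr j := rfl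
  rw [h1]
  push_cast
  exact Finset.sum_congr rfl fun j _ => mul_comm _ _

private theorem wd_pr_sub_left (a b : Fin r → ℤ) (y : Fin r → ℂ) : pr (a - b) y = pr a y - pr b y := by
  simp only [pr, Pi.sub_apply, ← Finset.sum_sub_distrib]
  exact Finset.sum_congr rfl fun i _ => by push_cast; ring

private theorem wd_pr_zsmul_left (n : ℤ) (b : Fin r → ℤ) (y : Fin r → ℂ) : pr (n • b) y = n * pr b y := by
  simp only [pr, Pi.smul_apply, smul_eq_mul, Finset.mul_sum]
  exact Finset.sum_congr rfl fun i _ => by push_cast; ring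

private theorem wd_kap (p : D.W) : D.rt p D.tr = D.tr - (2 : ℤ) • D.kap p := rt_tr p

private theorem wd_dl_ctr (h : D.IsWt D.ctr) (p : D.W) : D.dl D.ctr p = -((2 : ℤ) • D.kap p) := by
  refine dl_unique h fun y => ?_
  have h1 : ∀ q : D.W, D.hv D.ctr q y = pr (D.rt q D.tr) y := by
    intro q
    unfold hv ctr
    rw [pr_rt]
    rfl
  rw [h1, h1, wd_kap, D.rt_one, wd_pr_sub_left]
  simp only [pr, Pi.neg_apply]
  push_cast
  rw [Finset.sum_congr rfl fun i _ => neg_mul _ _, Finset.sum_neg_distrib, sub_eq_add_neg]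

private theorem wd_key {h : Fin r → ℂ} (hh : D.IsWt h) (p : D.W) :
    pr (D.kap p - D.dl h p) (wd_pt D D.ctr) = pr (D.kap p⁻¹) (wd_pt D ((2 : ℂ) • h + D.ctr)) := by
  have hc : D.IsWt D.ctr := by
    intro i
    exact ⟨D.L (al i), wd_ch_ctr _⟩
  have h1 := dl_spec hh p (wd_pt D D.ctr)
  have h2 := dl_spec hc p (wd_pt D D.ctr)
  rw [wd_dl_ctr hc] at h2
  rw [wd_hv, wd_hv] at h1 h2
  have h3 : ∀ x : Fin r → ℤ, pr x (wd_pt D ((2 : ℂ) • h + D.ctr)) =
      2 * pr x (wd_pt D h) + pr x (wd_pt D D.ctr) := by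
    intro x
    rw [wd_pr, wd_pr, wd_pr, Finset.mul_sum, ← Finset.sum_add_distrib]
    refine Finset.sum_congr rfl fun i _ => ?_
    rw [Pi.add_apply, Pi.smul_apply, smul_eq_mul]
    ring
  have h4 : ∀ x : Fin r → ℤ, pr (-x) (wd_pt D D.ctr) = -pr x (wd_pt D D.ctr) := by
    intro x
    simp only [pr, Pi.neg_apply]
    push_cast
    rw [Finset.sum_congr rfl fun i _ => neg_mul _ _, Finset.sum_neg_distrib]
  rw [h4, wd_pr_zsmul_left, inv_one, D.rt_one, wd_kap, wd_pr_sub_left, wd_pr_zsmul_left] at h2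
  rw [inv_one, D.rt_one, wd_kap, wd_pr_sub_left, wd_pr_zsmul_left] at h1
  rw [wd_pr_sub_left, h3]
  push_cast at h1 h2
  linear_combination h1 + (1 / 2) * h2

private theorem wd_eval {h : Fin r → ℂ} (hh : D.IsWt h) {F : RH r} (hF : D.IsChi (D.LB h) F) (s : ℂ) :
    evK (s • wd_pt D D.ctr) F *
        ∏ b ∈ D.Pos, (1 - Complex.exp (2 * Real.pi * Complex.I * (s * pr b (wd_pt D D.ctr)))) =
      ∏ b ∈ D.Pos, (1 - Complex.exp (2 * Real.pi * Complex.I *
        (s * pr b (wd_pt D ((2 : ℂ) • h + D.ctr))))) := by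
  have h1 := congrArg (evK (s • wd_pt D D.ctr)) (isChi_iff.1 hF)
  have h2 := congrArg (evK (s • wd_pt D ((2 : ℂ) • h + D.ctr))) (denom D)
  rw [map_mul, map_prod, map_sum] at h1
  rw [map_prod, map_sum] at h2
  have e1 : ∀ (y : Fin r → ℂ) (b : Fin r → ℤ), evK (s • y) (1 - chr b) =
      1 - Complex.exp (2 * Real.pi * Complex.I * (s * pr b y)) := by
    intro y b
    rw [map_sub, map_one, evK_chr, pr_smul]
  rw [Finset.prod_congr rfl fun b _ => e1 _ b] at h1 h2
  rw [h1, h2]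
  have hlen : ∀ p : D.W, D.len p⁻¹ = D.len p := len_inv
  rw [← Equiv.sum_comp (Equiv.inv D.W) fun p => evK (s • wd_pt D ((2 : ℂ) • h + D.ctr))
    ((-1) ^ D.len p * chr (D.kap p))]
  refine Finset.sum_congr rfl fun p _ => ?_
  have e2 : (Equiv.inv D.W) p = p⁻¹ := rfl
  rw [e2, hlen]
  unfold LB
  rw [mul_assoc, ← chr_add, ← sub_eq_add_neg, map_mul, map_mul, map_pow, map_pow, map_neg, map_neg,
    map_one, map_one, evK_chr, evK_chr, pr_smul, pr_smul, wd_key hh]

private theorem wd_lim (c : ℂ) :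
    Tendsto (fun s : ℂ => (1 - Complex.exp (2 * Real.pi * Complex.I * (s * c))) / s) (𝓝[≠] 0)
      (𝓝 (-(2 * Real.pi * Complex.I) * c)) := by
  have h1 : HasDerivAt (fun s : ℂ => 1 - Complex.exp (2 * Real.pi * Complex.I * (s * c)))
      (-(2 * Real.pi * Complex.I) * c) 0 := by
    have h2 : HasDerivAt (fun s : ℂ => 2 * Real.pi * Complex.I * (s * c))
        (2 * Real.pi * Complex.I * c) 0 := by
      have h3 := ((hasDerivAt_id (0 : ℂ)).mul_const c).const_mul (2 * Real.pi * Complex.I)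
      simpa using h3
    have h4 := h2.cexp.const_sub 1
    simpa using h4
  have h5 := h1.tendsto_slope
  refine h5.congr' ?_
  filter_upwards [self_mem_nhdsWithin] with s _
  rw [slope_def_field]
  simp

theorem weyl_dim {h : Fin r → ℂ} (hh : D.IsWt h) {F : RH r} (hF : D.IsChi (D.LB h) F) :
    evK 0 F = ∏ a ∈ D.Pos, ((D.L a : ℂ) + 2 * D.ch h a) / D.L a := by
  obtain ⟨Y, hY⟩ : ∃ Y, Y = wd_pt D D.ctr := ⟨_, rfl⟩
  obtain ⟨Y', hY'⟩ : ∃ Y', Y' = wd_pt D ((2 : ℂ) • h + D.ctr) := ⟨_, rfl⟩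
  have hev := wd_eval hh hF
  rw [← hY, ← hY'] at hev
  have l1 : Tendsto (fun s : ℂ => evK (s • Y) F) (𝓝[≠] 0) (𝓝 (evK 0 F)) := by
    have h1 : Continuous fun s : ℂ => evK (s • Y) F :=
      (evK_diff F).continuous.comp (continuous_id.smul continuous_const)
    have h2 := h1.tendsto 0
    rw [zero_smul] at h2
    exact h2.mono_left nhdsWithin_le_nhds
  have l2 : Tendsto (fun s : ℂ => evK (s • Y) F * ∏ b ∈ D.Pos,
      ((1 - Complex.exp (2 * Real.pi * Complex.I * (s * pr b Y))) / s)) (𝓝[≠] 0)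
      (𝓝 (evK 0 F * ∏ b ∈ D.Pos, (-(2 * Real.pi * Complex.I) * pr b Y))) :=
    l1.mul (tendsto_finsetProd _ fun b _ => wd_lim _)
  have l3 : Tendsto (fun s : ℂ => ∏ b ∈ D.Pos,
      ((1 - Complex.exp (2 * Real.pi * Complex.I * (s * pr b Y'))) / s)) (𝓝[≠] 0)
      (𝓝 (∏ b ∈ D.Pos, (-(2 * Real.pi * Complex.I) * pr b Y'))) :=
    tendsto_finsetProd _ fun b _ => wd_lim _
  have h4 : (fun s : ℂ => evK (s • Y) F * ∏ b ∈ D.Pos,
      ((1 - Complex.exp (2 * Real.pi * Complex.I * (s * pr b Y))) / s)) =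
      fun s : ℂ => ∏ b ∈ D.Pos,
        ((1 - Complex.exp (2 * Real.pi * Complex.I * (s * pr b Y'))) / s) := by
    funext s
    rw [Finset.prod_div_distrib, Finset.prod_div_distrib, ← hev s, mul_div_assoc]
  rw [h4] at l2
  have h5 := tendsto_nhds_unique l2 l3
  have hpi : (2 * Real.pi * Complex.I : ℂ) ≠ 0 := Complex.two_pi_I_ne_zero
  have hpos : ∀ b ∈ D.Pos, (D.form b b : ℂ) ≠ 0 := by
    intro b hb
    have h6 := form_pos (mem_of_pos hb)
    have h7 : D.form b b ≠ 0 := by omega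
    exact_mod_cast h7
  have hL : ∀ b ∈ D.Pos, (D.L b : ℂ) ≠ 0 := by
    intro b hb
    have h6 := two_le_L hb
    have h7 : D.L b ≠ 0 := by omega
    exact_mod_cast h7
  have e1 : ∀ b ∈ D.Pos, -(2 * Real.pi * Complex.I) * pr b Y =
      -(2 * Real.pi * Complex.I) * (D.form b b : ℂ) / 2 * D.L b := by
    intro b hb
    have h6 := wd_pr_root D.ctr (mem_of_pos hb)
    rw [← hY, wd_ch_ctr] at h6
    linear_combination (-(2 * Real.pi * Complex.I) / 2) * h6
  have e2 : ∀ b ∈ D.Pos, -(2 * Real.pi * Complex.I) * pr b Y' =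
      -(2 * Real.pi * Complex.I) * (D.form b b : ℂ) / 2 * ((D.L b : ℂ) + 2 * D.ch h b) := by
    intro b hb
    have h6 := wd_pr_root ((2 : ℂ) • h + D.ctr) (mem_of_pos hb)
    have h7 : D.ch ((2 : ℂ) • h + D.ctr) b = 2 * D.ch h b + D.L b := by
      rw [← wd_ch_ctr]
      unfold ch
      rw [Finset.mul_sum, ← Finset.sum_add_distrib]
      refine Finset.sum_congr rfl fun j _ => ?_
      rw [Pi.add_apply, Pi.smul_apply, smul_eq_mul]
      ring
    rw [← hY', h7] at h6
    linear_combination (-(2 * Real.pi * Complex.I) / 2) * h6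
  rw [Finset.prod_congr rfl e1, Finset.prod_congr rfl e2, Finset.prod_mul_distrib,
    Finset.prod_mul_distrib] at h5
  have hne : ∏ b ∈ D.Pos, (-(2 * Real.pi * Complex.I) * (D.form b b : ℂ) / 2) ≠ 0 :=
    Finset.prod_ne_zero_iff.2 fun b hb =>
      div_ne_zero (mul_ne_zero (neg_ne_zero.2 hpi) (hpos b hb)) two_ne_zero
  have hneL : ∏ b ∈ D.Pos, (D.L b : ℂ) ≠ 0 := Finset.prod_ne_zero_iff.2 hL
  rw [Finset.prod_div_distrib, eq_div_iff hneL]
  apply mul_left_cancel₀ hne
  linear_combination h5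

end Pool.Agent.FLG.RS
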