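import Pool.Agent.FLG.K.Mat

/-!
# FLG-KDet: the matrix of the Euler pairing is unimodular

Triangularity of the basis, the fixed point formula for the pairing, `prod_diag`.
-/

set_option autoImplicit false

open scoped BigOperators Topology
open Filter
open Pool.Agent.DST.TE Pool.Agent.DSTJ.Spec

namespace Pool.Agent.FLG.RS

variable {r : ℕ} {D : RS r}

theorem Bk_det (D : RS r) : (Matrix.of fun p j => D.Bk j p : Matrix D.W D.W (RH r)).det =
    ∏ p, D.Bk p p := by
  obtain ⟨n⟩ := exists_num D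
  rw [← Matrix.det_submatrix_equiv_self n.e]
  rw [Matrix.det_of_isLowerTriangular]
  · exact Equiv.prod_comp n.e fun p => D.Bk p p
  · intro i j hij
    exact Bk_tri n hij

private theorem sK_det (D : RS r) : (Matrix.of fun i p => sK (D.Bk i p) : Matrix D.W D.W (RH r)).det =
    ∏ p, sK (D.Bk p p) := by
  have h1 : (Matrix.of fun i p => sK (D.Bk i p) : Matrix D.W D.W (RH r)) =
      (RingHom.mapMatrix sK (Matrix.of fun p j => D.Bk j p)).transpose := by
    exact Matrix.ext fun i p => rfl
  rw [h1, Matrix.det_transpose, ← RingHom.map_det, Bk_det, map_prod]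

theorem chiM_unit (D : RS r) :
    IsUnit (Matrix.of fun i j => D.chiM i j : Matrix D.W D.W (RH r)).det := by
  set Δ : RH r := ∏ b ∈ D.Pos, (1 - chr b) with hΔ
  have hΔ0 : Δ ≠ 0 := Finset.prod_ne_zero_iff.2 fun _ hb => one_sub_ne (ne_zero (mem_of_pos hb))
  set E : D.W → RH r := fun p => (-1) ^ D.len p * chr (D.kap p) with hE
  have hEu : IsUnit (∏ p, E p) := by
    refine Finset.prod_induction _ IsUnit (fun _ _ => IsUnit.mul) isUnit_one fun p _ => ?_
    exact (isUnit_one.neg.pow _).mul (isUnit_chr _)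
  have h1 : Δ • (Matrix.of fun i j => D.chiM i j : Matrix D.W D.W (RH r)) =
      (Matrix.of fun i p => sK (D.Bk i p)) * Matrix.diagonal E * (Matrix.of fun p j => D.Bk j p) := by
    refine Matrix.ext fun i j => ?_
    have h2 := isChi_iff.1 (isChi_chiM (D := D) i j)
    rw [Matrix.smul_apply, Matrix.of_apply, smul_eq_mul, mul_comm, hΔ, h2, Matrix.mul_apply]
    refine Finset.sum_congr rfl fun p _ => ?_
    rw [Matrix.mul_diagonal, Matrix.of_apply, Matrix.of_apply]
    show (-1) ^ D.len p * chr (D.kap p) * (sK (D.Bk i p) * D.Bk j p) =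
      sK (D.Bk i p) * ((-1) ^ D.len p * chr (D.kap p)) * D.Bk j p
    ring
  have h3 := congrArg Matrix.det h1
  rw [Matrix.det_smul, Matrix.det_mul, Matrix.det_mul, Matrix.det_diagonal, sK_det, Bk_det] at h3
  obtain ⟨u, hu⟩ := prod_diag D
  have h4 : Δ ^ Fintype.card D.W * (Matrix.of fun i j => D.chiM i j : Matrix D.W D.W (RH r)).det =
      Δ ^ Fintype.card D.W * ((∏ p, E p) * u) := by
    rw [h3]
    linear_combination (∏ p, E p) * hu
  rw [mul_left_cancel₀ (pow_ne_zero _ hΔ0) h4]
  exact hEu.mul u.isUnit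

end Pool.Agent.FLG.RS
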