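import Pool.Agent.FLG.K.Div

/-! # FLG-KDivB: divisibility by `1 - e^b` (coprimality) -/

set_option autoImplicit false

open scoped BigOperators Topology
open Filter
open Pool.Agent.DST.TE Pool.Agent.DSTJ.Spec

namespace Pool.Agent.FLG.RS

variable {r : ℕ} {D : RS r}

/-- the ring of the quotient of the lattice by `b` -/
private abbrev QA (b : Fin r → ℤ) : Type :=
  AddMonoidAlgebra ℤ ((Fin r → ℤ) ⧸ AddSubgroup.zmultiples b)

private noncomputable def pq (b : Fin r → ℤ) : RH r →+* QA b :=
  AddMonoidAlgebra.mapDomainRingHom ℤ (QuotientAddGroup.mk' (AddSubgroup.zmultiples b))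

private theorem pq_chr (b μ : Fin r → ℤ) :
    pq b (chr μ) = AddMonoidAlgebra.single (QuotientAddGroup.mk' (AddSubgroup.zmultiples b) μ) 1 := by
  show AddMonoidAlgebra.mapDomain _ (AddMonoidAlgebra.single μ 1) = _
  rw [AddMonoidAlgebra.mapDomain_single]

private noncomputable def sq (b : Fin r → ℤ) : QA b →+ RH r where
  toFun := AddMonoidAlgebra.mapDomain Quotient.out
  map_zero' := AddMonoidAlgebra.mapDomain_zero _
  map_add' := AddMonoidAlgebra.mapDomain_add _

private theorem sq_single (b : Fin r → ℤ) (q : (Fin r → ℤ) ⧸ AddSubgroup.zmultiples b) :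
    sq b (AddMonoidAlgebra.single q 1) = chr q.out := by
  show AddMonoidAlgebra.mapDomain _ (AddMonoidAlgebra.single q 1) = _
  rw [AddMonoidAlgebra.mapDomain_single]
  rfl

private theorem dvd_sub_sq (b : Fin r → ℤ) (F : RH r) : (1 - chr b) ∣ F - sq b (pq b F) := by
  induction F using RH_induction with
  | hchr μ =>
    rw [pq_chr, sq_single]
    have h1 : (QuotientAddGroup.mk' (AddSubgroup.zmultiples b) μ) =
        (QuotientAddGroup.mk' (AddSubgroup.zmultiples b)
          (QuotientAddGroup.mk' (AddSubgroup.zmultiples b) μ).out) := by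
      exact (Quotient.out_eq (QuotientAddGroup.mk' (AddSubgroup.zmultiples b) μ)).symm
    have h2 : -(QuotientAddGroup.mk' (AddSubgroup.zmultiples b) μ).out + μ ∈
        AddSubgroup.zmultiples b := QuotientAddGroup.eq.1 h1.symm
    obtain ⟨n, hn⟩ := AddSubgroup.mem_zmultiples_iff.1 h2
    refine dvd_chr_sub (n := n) ?_
    rw [hn]
    abel
  | hadd f g hf hg =>
    rw [map_add, map_add]
    have h := dvd_add hf hg
    have e : f - sq b (pq b f) + (g - sq b (pq b g)) =
        f + g - (sq b (pq b f) + sq b (pq b g)) := by ring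
    rwa [e] at h
  | hneg f hf =>
    rw [map_neg, map_neg]
    have h := (dvd_neg (a := (1 - chr b : RH r))).2 hf
    have e : -(f - sq b (pq b f)) = -f - -sq b (pq b f) := by ring
    rwa [e] at h
  | h0 => rw [map_zero, map_zero, sub_zero]; exact dvd_zero _

private theorem pq_b (b : Fin r → ℤ) : pq b (1 - chr b) = 0 := by
  rw [map_sub, map_one, pq_chr]
  have h1 : QuotientAddGroup.mk' (AddSubgroup.zmultiples b) b = 0 :=
    (QuotientAddGroup.eq_zero_iff b).2 (AddSubgroup.mem_zmultiples b)
  rw [h1, ← AddMonoidAlgebra.one_def, sub_self]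

private theorem dvd_iff_quot (b : Fin r → ℤ) (F : RH r) : (1 - chr b) ∣ F ↔ pq b F = 0 := by
  constructor
  · rintro ⟨G, rfl⟩
    rw [map_mul, pq_b, zero_mul]
  · intro h
    have h1 := dvd_sub_sq b F
    rwa [h, map_zero, sub_zero] at h1

theorem dvd_cancel {a b : Fin r → ℤ} (h : ∀ n k : ℤ, n • a = k • b → n = 0) {F : RH r}
    (hF : (1 - chr b) ∣ (1 - chr a) * F) : (1 - chr b) ∣ F := by
  rw [dvd_iff_quot] at hF ⊢
  rw [map_mul, map_sub, map_one, pq_chr, sub_mul, one_mul, sub_eq_zero] at hF
  set X := pq b F with hX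
  set q := QuotientAddGroup.mk' (AddSubgroup.zmultiples b) a with hq
  have hc : ∀ c, X.coeff c = X.coeff (-q + c) := by
    intro c
    conv_lhs => rw [hF]
    rw [AddMonoidAlgebra.coeff_single_mul_apply, one_mul]
  have hn : ∀ (n : ℕ) c, X.coeff c = X.coeff (-(n • q) + c) := by
    intro n
    induction n with
    | zero => intro c; rw [zero_smul, neg_zero, zero_add]
    | succ n ih =>
      intro c
      rw [ih c, hc (-(n • q) + c)]
      congr 1
      rw [succ_nsmul]
      abel
  by_contra hne
  have hex : ∃ c, X.coeff c ≠ 0 := by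
    by_contra hcon
    push Not at hcon
    apply hne
    rw [← AddMonoidAlgebra.coeff_eq_zero]
    ext c
    exact hcon c
  obtain ⟨c, hc0⟩ := hex
  have hinj : Function.Injective fun n : ℕ => -(n • q) + c := by
    intro n m hnm
    have h1 : n • q = m • q := by
      have := add_right_cancel hnm
      exact neg_inj.1 this
    have h2 : ((n : ℤ) - m) • q = 0 := by
      rw [sub_smul, natCast_zsmul, natCast_zsmul, h1, sub_self]
    rw [hq, ← map_zsmul] at h2
    have h3 : ((n : ℤ) - m) • a ∈ AddSubgroup.zmultiples b := (QuotientAddGroup.eq_zero_iff _).1 h2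
    obtain ⟨k, hk⟩ := AddSubgroup.mem_zmultiples_iff.1 h3
    have h4 := h _ k hk.symm
    omega
  have hsub : Set.range (fun n : ℕ => -(n • q) + c) ⊆ (X.coeff.support : Set _) := by
    rintro _ ⟨n, rfl⟩
    rw [Finset.mem_coe, Finsupp.mem_support_iff, ← hn n c]
    exact hc0
  exact Set.infinite_range_of_injective hinj ((Finset.finite_toSet _).subset hsub)

theorem dvd_cancel_prod {b : Fin r → ℤ} {S : Finset (Fin r → ℤ)}
    (hS : ∀ a ∈ S, ∀ n k : ℤ, n • a = k • b → n = 0) {F : RH r}
    (hF : (1 - chr b) ∣ (∏ a ∈ S, (1 - chr a)) * F) : (1 - chr b) ∣ F := by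
  classical
  induction S using Finset.induction_on with
  | empty => rwa [Finset.prod_empty, one_mul] at hF
  | insert a S ha ih =>
    rw [Finset.prod_insert ha, mul_assoc] at hF
    exact ih (fun a' ha' => hS a' (Finset.mem_insert_of_mem ha'))
      (dvd_cancel (hS a (Finset.mem_insert_self a S)) hF)

theorem dvd_prod {S : Finset (Fin r → ℤ)}
    (hS : ∀ a ∈ S, ∀ b ∈ S, a ≠ b → ∀ n k : ℤ, n • a = k • b → n = 0) {F : RH r}
    (hF : ∀ b ∈ S, (1 - chr b) ∣ F) : (∏ b ∈ S, (1 - chr b)) ∣ F := by
  classical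
  induction S using Finset.induction_on with
  | empty => rw [Finset.prod_empty]; exact one_dvd _
  | insert b S hb ih =>
    obtain ⟨m, hm⟩ := ih (fun a ha a' ha' => hS a (Finset.mem_insert_of_mem ha) a' (Finset.mem_insert_of_mem ha'))
      (fun a ha => hF a (Finset.mem_insert_of_mem ha))
    have h1 : (1 - chr b) ∣ m := by
      refine dvd_cancel_prod (S := S) (fun a ha => hS a (Finset.mem_insert_of_mem ha) b
        (Finset.mem_insert_self b S) ?_) ?_
      · rintro rfl
        exact hb ha
      · rw [← hm]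
        exact hF b (Finset.mem_insert_self b S)
    obtain ⟨m', rfl⟩ := h1
    refine ⟨m', ?_⟩
    rw [Finset.prod_insert hb, hm]
    ring

end Pool.Agent.FLG.RS
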