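import Pool.Agent.FLG.K.Div

/-!
# FLG-KKap: signs and denominators

The Weyl group permutes the factors of the denominator up to signs and characters.
-/

set_option autoImplicit false

open scoped BigOperators Topology
open Filter
open Pool.Agent.DST.TE Pool.Agent.DSTJ.Spec

namespace Pool.Agent.FLG.RS

variable {r : ℕ} {D : RS r}

/-- `ρ - p ρ` -/
def kap (D : RS r) (p : D.W) : Fin r → ℤ := ∑ b ∈ D.Inv p, b

private theorem prod_split {R : Type*} [CommMonoid R] (p : D.W) (g : (Fin r → ℤ) → R) :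
    ∏ a ∈ D.Pos, g (D.rt p a) = (∏ b ∈ D.Pos.filter (fun b => D.rt p⁻¹ b ∈ D.Pos), g b) *
      ∏ b ∈ D.Inv p, g (-b) := by
  rw [← Finset.prod_filter_mul_prod_filter_not D.Pos (fun a => D.rt p a ∈ D.Pos) (fun a => g (D.rt p a))]
  congr 1
  · refine Finset.prod_nbij' (fun a => D.rt p a) (fun b => D.rt p⁻¹ b) ?_ ?_ ?_ ?_ ?_
    · intro a ha
      rw [Finset.mem_filter] at ha ⊢
      refine ⟨ha.2, ?_⟩
      rw [D.rt_inv_rt]
      exact ha.1
    · intro b hb
      rw [Finset.mem_filter] at hb ⊢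
      refine ⟨hb.2, ?_⟩
      rw [D.rt_rt_inv]
      exact hb.1
    · intro a _
      exact D.rt_inv_rt p a
    · intro b _
      exact D.rt_rt_inv p b
    · intro a _
      rfl
  · unfold Inv
    refine Finset.prod_nbij' (fun a => -D.rt p a) (fun b => -D.rt p⁻¹ b) ?_ ?_ ?_ ?_ ?_
    · intro a ha
      rw [Finset.mem_filter] at ha ⊢
      refine ⟨(not_pos_iff (D.rt_mem.2 (mem_of_pos ha.1))).1 ha.2, ?_⟩
      rw [D.rt_neg, D.rt_inv_rt]
      exact neg_not_pos ha.1
    · intro b hb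
      rw [Finset.mem_filter] at hb ⊢
      refine ⟨(not_pos_iff (D.rt_mem.2 (mem_of_pos hb.1))).1 hb.2, ?_⟩
      rw [D.rt_neg, D.rt_rt_inv]
      exact neg_not_pos hb.1
    · intro a _
      simp only [D.rt_neg, D.rt_inv_rt, neg_neg]
    · intro b _
      simp only [D.rt_neg, D.rt_rt_inv, neg_neg]
    · intro a _
      rw [neg_neg]

private theorem prod_pos {R : Type*} [CommMonoid R] (p : D.W) (g : (Fin r → ℤ) → R) :
    ∏ b ∈ D.Pos, g b = (∏ b ∈ D.Pos.filter (fun b => D.rt p⁻¹ b ∈ D.Pos), g b) * ∏ b ∈ D.Inv p, g b := by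
  unfold Inv
  rw [Finset.prod_filter_mul_prod_filter_not]

private theorem card_Inv (p : D.W) : (D.Inv p).card = D.len p := by
  rw [← len_inv p]
  rfl

private theorem chr_sum {ι : Type*} (S : Finset ι) (g : ι → Fin r → ℤ) :
    (chr (∑ b ∈ S, g b) : RH r) = ∏ b ∈ S, chr (g b) := by
  classical
  induction S using Finset.induction_on with
  | empty => rw [Finset.sum_empty, Finset.prod_empty, chr_zero]
  | insert a S ha ih => rw [Finset.sum_insert ha, Finset.prod_insert ha, chr_add, ih]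

private theorem two_kap (p : D.W) : D.rt p D.tr = D.tr - (2 : ℤ) • D.kap p := rt_tr p

theorem den_eq (p : D.W) : (-1 : RH r) ^ D.len p * chr (D.kap p) *
    ∏ a ∈ D.Pos, (1 - chr (D.rt p a)) = ∏ b ∈ D.Pos, (1 - chr b) := by
  rw [prod_split p (fun a => (1 - chr a : RH r)), prod_pos p (fun b => (1 - chr b : RH r))]
  have h1 : (-1 : RH r) ^ D.len p * chr (D.kap p) * ∏ b ∈ D.Inv p, (1 - chr (-b)) =
      ∏ b ∈ D.Inv p, (1 - chr b) := by
    have h2 : (chr (D.kap p) : RH r) = ∏ b ∈ D.Inv p, chr b := chr_sum _ _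
    rw [h2, ← card_Inv p, ← Finset.prod_const, ← Finset.prod_mul_distrib, ← Finset.prod_mul_distrib]
    refine Finset.prod_congr rfl fun b _ => ?_
    have h3 := chr_mul_neg (r := r) b
    linear_combination h3
  rw [← h1]
  ring

theorem prod_rt (p : D.W) (y : Fin r → ℂ) : ∏ a ∈ D.Pos, (-pr (D.rt p a) y) =
    (-1) ^ D.dm * (-1) ^ D.len p * ∏ b ∈ D.Pos, pr b y := by
  rw [prod_split p (fun a => -pr a y), prod_pos p (fun b => pr b y)]
  have h1 : ∏ b ∈ D.Inv p, (-pr (-b) y) = ∏ b ∈ D.Inv p, pr b y := by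
    refine Finset.prod_congr rfl fun b _ => ?_
    unfold pr
    rw [← Finset.sum_neg_distrib]
    refine Finset.sum_congr rfl fun i _ => ?_
    rw [Pi.neg_apply]
    push_cast
    ring
  have h2 : ∏ b ∈ D.Pos.filter (fun b => D.rt p⁻¹ b ∈ D.Pos), (-pr b y) =
      (-1) ^ (D.Pos.filter (fun b => D.rt p⁻¹ b ∈ D.Pos)).card *
        ∏ b ∈ D.Pos.filter (fun b => D.rt p⁻¹ b ∈ D.Pos), pr b y := by
    rw [← Finset.prod_const, ← Finset.prod_mul_distrib]
    exact Finset.prod_congr rfl fun b _ => by ring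
  have h3 : D.dm = (D.Pos.filter (fun b => D.rt p⁻¹ b ∈ D.Pos)).card + D.len p := by
    rw [← card_Inv p]
    unfold dm Inv
    exact (Finset.card_filter_add_card_filter_not _).symm
  have h4 : ((-1 : ℂ)) ^ D.len p * (-1) ^ D.len p = 1 := by
    rw [← mul_pow, neg_one_mul, neg_neg, one_pow]
  rw [h1, h2, h3, pow_add]
  linear_combination (-((-1 : ℂ) ^ (D.Pos.filter (fun b => D.rt p⁻¹ b ∈ D.Pos)).card *
        (∏ b ∈ D.Pos.filter (fun b => D.rt p⁻¹ b ∈ D.Pos), pr b y) * ∏ b ∈ D.Inv p, pr b y)) * h4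

theorem even_L {a : Fin r → ℤ} (ha : a ∈ D.Φ) : ∃ n : ℤ, D.L a = 2 * n := by
  have h1 : D.L a = ∑ i, D.cof a i * 2 := by
    unfold L
    rw [D.co_cof a ha]
    rw [sum_dotProduct]
    refine Finset.sum_congr rfl fun i _ => ?_
    rw [smul_dotProduct, smul_eq_mul]
    have h2 : dotProduct (D.co (Pi.single i 1)) D.tr = 2 := L_al i
    rw [h2]
  rw [← Finset.sum_mul] at h1
  exact ⟨∑ i, D.cof a i, by rw [h1, mul_comm]⟩

theorem kap_refl (p : D.W) {b : Fin r → ℤ} (hb : b ∈ D.Φ) :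
    ∃ n : ℤ, D.kap (D.refl b * p) = D.kap p + n • b := by
  obtain ⟨n, hn⟩ := even_L (D := D) (a := D.rt p⁻¹ b) (D.rt_mem.2 hb)
  refine ⟨n, ?_⟩
  have h1 := two_kap p
  have h2 := two_kap (D.refl b * p)
  rw [D.rt_mul, rt_refl hb] at h2
  have h3 : dotProduct (D.co b) (D.rt p D.tr) = 2 * n := by
    rw [← hn]
    unfold L
    rw [co_rt p⁻¹ hb, inv_inv]
  rw [h3] at h2
  funext j
  have e1 := congrFun h1 j
  have e2 := congrFun h2 j
  simp only [Pi.sub_apply, Pi.smul_apply, smul_eq_mul, Pi.add_apply] at e1 e2 ⊢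
  have e3 : 2 * n * b j = 2 * (n * b j) := by ring
  rw [e3] at e2
  generalize n * b j = x at e2 ⊢
  omega

theorem len_parity_left (p : D.W) {b : Fin r → ℤ} (hb : b ∈ D.Φ) :
    (-1 : ℤ) ^ D.len (D.refl b * p) = -(-1) ^ D.len p := by
  have h1 : D.refl b * p = p * D.refl (D.rt p⁻¹ b) := by
    rw [refl_rt p⁻¹ hb, inv_inv, mul_assoc, mul_inv_cancel_left]
  rw [h1]
  exact len_parity p (D.rt_mem.2 hb)

end Pool.Agent.FLG.RS
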