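import Pool.Agent.FLG.K.Gkm
import Pool.Agent.FLG.K.Kap
import Pool.Agent.FLG.K.DivB

/-!
# FLG-KChi: the equivariant Euler characteristic

The sum over the fixed points is divisible by every `1 - chr b`, hence by the product over the positive roots.
-/

set_option autoImplicit false

open scoped BigOperators Topology
open Filter
open Pool.Agent.DST.TE Pool.Agent.DSTJ.Spec

namespace Pool.Agent.FLG.RS

variable {r : ℕ} {D : RS r}

/-- the terms -/
private noncomputable def Tm (D : RS r) (f : D.W → RH r) (p : D.W) : RH r :=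
  (-1) ^ D.len p * chr (D.kap p) * f p

private theorem Tm_pair {f : D.W → RH r} (hf : D.GKM f) {b : Fin r → ℤ} (hb : b ∈ D.Φ) (p : D.W) :
    (1 - chr b) ∣ Tm D f p + Tm D f (D.refl b * p) := by
  obtain ⟨n, hn⟩ := kap_refl p hb
  have h1 : ((-1 : RH r)) ^ D.len (D.refl b * p) = -(-1) ^ D.len p := by
    have h := congrArg (Int.cast : ℤ → RH r) (len_parity_left p hb)
    push_cast at h
    exact h
  have h2 : (1 - chr b) ∣ chr (D.kap (D.refl b * p)) - (chr (D.kap p) : RH r) := dvd_chr_sub hn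
  have h3 : Tm D f p + Tm D f (D.refl b * p) = (-1) ^ D.len p * chr (D.kap p) * (f p - f (D.refl b * p)) -
      (-1) ^ D.len p * f (D.refl b * p) * (chr (D.kap (D.refl b * p)) - chr (D.kap p)) := by
    unfold Tm
    rw [h1]
    ring
  rw [h3]
  exact dvd_sub (Dvd.dvd.mul_left (hf p b hb) _) (Dvd.dvd.mul_left h2 _)

private theorem sum_dvd {f : D.W → RH r} (hf : D.GKM f) {b : Fin r → ℤ} (hb : b ∈ D.Pos) :
    (1 - chr b) ∣ ∑ p, Tm D f p := by
  have hbΦ := mem_of_pos hb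
  have hflip : ∀ p : D.W, D.rt (D.refl b * p)⁻¹ b = -D.rt p⁻¹ b := by
    intro p
    rw [mul_inv_rev, refl_inv hbΦ, D.rt_mul, rt_refl_self hbΦ, D.rt_neg]
  have hinv : ∀ p : D.W, D.refl b * (D.refl b * p) = p := by
    intro p
    rw [← mul_assoc, refl_mul_self hbΦ, one_mul]
  have hmem : ∀ p : D.W, D.rt p⁻¹ b ∈ D.Φ := fun p => D.rt_mem.2 hbΦ
  have h1 := Finset.sum_filter_add_sum_filter_not (Finset.univ : Finset D.W) (fun p => D.rt p⁻¹ b ∈ D.Pos)
    (Tm D f)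
  have h2 : ∑ p ∈ Finset.univ.filter (fun p : D.W => D.rt p⁻¹ b ∉ D.Pos), Tm D f p =
      ∑ p ∈ Finset.univ.filter (fun p : D.W => D.rt p⁻¹ b ∈ D.Pos), Tm D f (D.refl b * p) := by
    refine Finset.sum_bij' (fun p _ => D.refl b * p) (fun p _ => D.refl b * p) ?_ ?_ ?_ ?_ ?_
    · intro p hp
      rw [Finset.mem_filter] at hp ⊢
      refine ⟨Finset.mem_univ _, ?_⟩
      rw [hflip, ← not_pos_iff (hmem p)]
      exact hp.2
    · intro p hp
      rw [Finset.mem_filter] at hp ⊢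
      refine ⟨Finset.mem_univ _, ?_⟩
      rw [hflip]
      exact neg_not_pos hp.2
    · intro p _
      exact hinv p
    · intro p _
      exact hinv p
    · intro p _
      rw [hinv]
  rw [← h1, h2, ← Finset.sum_add_distrib]
  exact Finset.dvd_sum fun p _ => Tm_pair hf hbΦ p

private theorem prod_ne (D : RS r) : (∏ b ∈ D.Pos, (1 - chr b) : RH r) ≠ 0 :=
  Finset.prod_ne_zero_iff.2 fun _ hb => one_sub_ne (ne_zero (mem_of_pos hb))

/-- the values of the denominators -/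
private theorem ev_den (p : D.W) (y : Fin r → ℂ) :
    evK y (∏ a ∈ D.Pos, (1 - chr (D.rt p a))) =
      ∏ a ∈ D.Pos, (1 - Complex.exp (2 * Real.pi * Complex.I * pr (D.rt p a) y)) := by
  rw [map_prod]
  refine Finset.prod_congr rfl fun a _ => ?_
  rw [map_sub, map_one, evK_chr]

private theorem ev_ne {y : Fin r → ℂ} (hy : ∀ a ∈ D.Φ, ∀ n : ℤ, pr a y ≠ n) (p : D.W) :
    ∏ a ∈ D.Pos, (1 - Complex.exp (2 * Real.pi * Complex.I * pr (D.rt p a) y)) ≠ 0 := by
  refine Finset.prod_ne_zero_iff.2 fun a ha h => ?_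
  have h1 : Complex.exp (2 * Real.pi * Complex.I * pr (D.rt p a) y) = 1 := (sub_eq_zero.1 h).symm
  obtain ⟨n, hn⟩ := Complex.exp_eq_one_iff.1 h1
  refine hy (D.rt p a) (D.rt_mem.2 (mem_of_pos ha)) n ?_
  have h2 : (2 * Real.pi * Complex.I : ℂ) ≠ 0 := Complex.two_pi_I_ne_zero
  apply mul_left_cancel₀ h2
  rw [hn]
  ring

private theorem ev_pos_ne {y : Fin r → ℂ} (hy : ∀ a ∈ D.Φ, ∀ n : ℤ, pr a y ≠ n) :
    evK y (∏ b ∈ D.Pos, (1 - chr b)) ≠ 0 := by
  have h1 := ev_ne hy (1 : D.W)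
  rw [← ev_den] at h1
  have h2 : (∏ a ∈ D.Pos, (1 - chr (D.rt 1 a)) : RH r) = ∏ b ∈ D.Pos, (1 - chr b) :=
    Finset.prod_congr rfl fun a _ => by rw [D.rt_one]
  rw [h2] at h1
  exact h1

private theorem ksum_eq {y : Fin r → ℂ} (hy : ∀ a ∈ D.Φ, ∀ n : ℤ, pr a y ≠ n) (f : D.W → RH r) :
    D.KSum f y * evK y (∏ b ∈ D.Pos, (1 - chr b)) = evK y (∑ p, Tm D f p) := by
  rw [map_sum]
  unfold KSum
  rw [Finset.sum_mul]
  refine Finset.sum_congr rfl fun p _ => ?_
  rw [div_mul_eq_mul_div, div_eq_iff (ev_ne hy p), ← ev_den, ← den_eq p, Tm, map_mul, map_mul, map_mul, map_mul]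
  ring

theorem chi_dvd {f : D.W → RH r} (hf : D.GKM f) :
    ∃ F : RH r, F * ∏ b ∈ D.Pos, (1 - chr b) = ∑ p, (-1) ^ D.len p * chr (D.kap p) * f p := by
  have h1 : (∏ b ∈ D.Pos, (1 - chr b) : RH r) ∣ ∑ p, Tm D f p := by
    refine dvd_prod (fun a ha b hb hne n k h => indep_pos ha hb hne n k h) fun b hb => sum_dvd hf hb
  obtain ⟨F, hF⟩ := h1
  refine ⟨F, ?_⟩
  rw [mul_comm, ← hF]
  rfl

theorem isChi_iff {f : D.W → RH r} {F : RH r} : D.IsChi f F ↔
    F * ∏ b ∈ D.Pos, (1 - chr b) = ∑ p, (-1) ^ D.len p * chr (D.kap p) * f p := by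
  have hN : (∑ p, (-1) ^ D.len p * chr (D.kap p) * f p : RH r) = ∑ p, Tm D f p := rfl
  rw [hN]
  constructor
  · intro h
    refine evK_ext (S := {y | ∀ a ∈ D.Φ, ∀ n : ℤ, pr a y ≠ n}) ?_ ?_
    · refine (dense_SG D).mono ?_
      intro y hy
      exact hy.1
    · intro y hy
      have hy' : ∀ a ∈ D.Φ, ∀ n : ℤ, pr a y ≠ n := hy
      rw [map_mul, h y hy', ksum_eq hy']
  · intro h y hy
    apply mul_right_cancel₀ (ev_pos_ne hy)
    rw [ksum_eq hy, ← map_mul, h]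

theorem exists_chi {f : D.W → RH r} (hf : D.GKM f) : ∃ F, D.IsChi f F := by
  obtain ⟨F, hF⟩ := chi_dvd hf
  exact ⟨F, isChi_iff.2 hF⟩

theorem chi_unique {f : D.W → RH r} {F F' : RH r} (h : D.IsChi f F) (h' : D.IsChi f F') :
    F = F' := by
  have h1 := isChi_iff.1 h
  have h2 := isChi_iff.1 h'
  exact mul_right_cancel₀ (prod_ne D) (h1.trans h2.symm)

theorem isChi_add {f g : D.W → RH r} {F G : RH r} (h : D.IsChi f F) (h' : D.IsChi g G) :
    D.IsChi (fun p => f p + g p) (F + G) := by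
  rw [isChi_iff] at *
  rw [add_mul, h, h', ← Finset.sum_add_distrib]
  exact Finset.sum_congr rfl fun p _ => by ring

theorem isChi_mul (c : RH r) {f : D.W → RH r} {F : RH r} (h : D.IsChi f F) :
    D.IsChi (fun p => c * f p) (c * F) := by
  rw [isChi_iff] at *
  rw [mul_assoc, h, Finset.mul_sum]
  exact Finset.sum_congr rfl fun p _ => by ring

theorem isChi_sum {ι : Type*} (s : Finset ι) {f : ι → D.W → RH r} {F : ι → RH r}
    (h : ∀ i ∈ s, D.IsChi (f i) (F i)) : D.IsChi (fun p => ∑ i ∈ s, f i p) (∑ i ∈ s, F i) := by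
  have h' : ∀ i ∈ s, F i * ∏ b ∈ D.Pos, (1 - chr b) = ∑ p, (-1) ^ D.len p * chr (D.kap p) * f i p :=
    fun i hi => isChi_iff.1 (h i hi)
  rw [isChi_iff, Finset.sum_mul, Finset.sum_congr rfl h', Finset.sum_comm]
  exact Finset.sum_congr rfl fun p _ => by rw [Finset.mul_sum]

end Pool.Agent.FLG.RS
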