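import Pool.Agent.FLG.K.Exi
import Pool.Agent.FLG.K.Chi
import Pool.Agent.FLG.Num

/-!
# FLG-KMat: the matrix of the equivariant Euler pairing in the basis `B_w`
-/

set_option autoImplicit false

open scoped BigOperators Topology
open Filter
open Pool.Agent.DST.TE Pool.Agent.DSTJ.Spec

namespace Pool.Agent.FLG.RS

variable {r : ℕ} {D : RS r}

theorem gkm_pair (i j : D.W) : D.GKM fun p => sK (D.Bk i p) * D.Bk j p :=
  gkm_mul (gkm_sK (isB_Bk i).gkm) (isB_Bk j).gkm

/-- the equivariant Euler pairing of the basis -/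
noncomputable def chiM (D : RS r) (i j : D.W) : RH r := (exists_chi (gkm_pair i j)).choose

theorem isChi_chiM (i j : D.W) : D.IsChi (fun p => sK (D.Bk i p) * D.Bk j p) (D.chiM i j) :=
  (exists_chi (gkm_pair i j)).choose_spec

theorem Bk_tri {N : ℕ} (n : D.Num N) {i p : Fin N} (h : p < i) : D.Bk (n.e i) (n.e p) = 0 := by
  by_contra hne
  have h1 := (isB_Bk (n.e i)).supp _ hne
  have h2 : n.e i ≠ n.e p := fun h' => h.ne (n.e.injective h').symm
  have h3 := Bru.strict h1 h2 n.ξ_pos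
  have h4 := n.mono h
  simp only at h4
  omega

private theorem mt_rt {b : Fin r → ℤ} (hb : b ∈ D.Φ) (p : D.W) :
    D.rt (D.refl b * p)⁻¹ b = -D.rt p⁻¹ b := by
  rw [mul_inv_rev, D.rt_mul, refl_inv hb, rt_refl_self hb, D.rt_neg]

private theorem mt_inv {b : Fin r → ℤ} (hb : b ∈ D.Pos) (p : D.W) :
    b ∈ D.Inv p ↔ D.rt p⁻¹ b ∉ D.Pos := by
  unfold Inv
  rw [Finset.mem_filter]
  exact ⟨fun h => h.2, fun h => ⟨hb, h⟩⟩

private theorem mt_flip {b : Fin r → ℤ} (hb : b ∈ D.Pos) (p : D.W) :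
    b ∈ D.Inv (D.refl b * p) ↔ b ∉ D.Inv p := by
  have hΦ := mem_of_pos hb
  have h1 : D.rt p⁻¹ b ∈ D.Φ := D.act_mem _ _ hΦ
  rw [mt_inv hb, mt_inv hb, mt_rt hΦ, not_not]
  have h2 := not_pos_iff (neg_mem h1)
  rw [neg_neg] at h2
  exact h2

/-- each positive root is an inversion of half of the elements -/
theorem card_inv {b : Fin r → ℤ} (hb : b ∈ D.Pos) :
    2 * (Finset.univ.filter fun p : D.W => b ∈ D.Inv p).card = Fintype.card D.W := by
  have hΦ := mem_of_pos hb
  have h1 : (Finset.univ.filter fun p : D.W => b ∈ D.Inv p).card =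
      (Finset.univ.filter fun p : D.W => ¬ b ∈ D.Inv p).card := by
    refine Finset.card_nbij' (fun p => D.refl b * p) (fun p => D.refl b * p) ?_ ?_ ?_ ?_
    · intro p hp
      rw [Finset.mem_coe, Finset.mem_filter] at hp ⊢
      refine ⟨Finset.mem_univ _, ?_⟩
      rw [mt_flip hb, not_not]
      exact hp.2
    · intro p hp
      rw [Finset.mem_coe, Finset.mem_filter] at hp ⊢
      refine ⟨Finset.mem_univ _, ?_⟩
      rw [mt_flip hb]
      exact hp.2
    · intro p _
      change D.refl b * (D.refl b * p) = p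
      rw [← mul_assoc, refl_mul_self hΦ, one_mul]
    · intro p _
      change D.refl b * (D.refl b * p) = p
      rw [← mul_assoc, refl_mul_self hΦ, one_mul]
  have h2 := Finset.card_filter_add_card_filter_not (s := (Finset.univ : Finset D.W))
    (fun p => b ∈ D.Inv p)
  rw [Finset.card_univ] at h2
  omega

theorem prod_diag (D : RS r) : ∃ u : (RH r)ˣ, (∏ p, sK (D.Bk p p)) * ∏ p, D.Bk p p =
    u * (∏ b ∈ D.Pos, (1 - chr b)) ^ Fintype.card D.W := by
  have hd : ∀ p : D.W, D.Bk p p = ∏ b ∈ D.Inv p, (1 - chr b) := fun p => (isB_Bk p).diag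
  have hs : ∀ p : D.W, sK (D.Bk p p) =
      (∏ b ∈ D.Inv p, (-chr (-b) : RH r)) * ∏ b ∈ D.Inv p, (1 - chr b) := by
    intro p
    rw [hd, map_prod, ← Finset.prod_mul_distrib]
    refine Finset.prod_congr rfl fun b _ => ?_
    rw [map_sub, map_one, sK_chr]
    have h1 : (chr b * chr (-b) : RH r) = 1 := chr_mul_neg b
    linear_combination -h1
  have hu : IsUnit (∏ p : D.W, ∏ b ∈ D.Inv p, (-chr (-b) : RH r)) := by
    refine Finset.prod_induction _ IsUnit (fun _ _ => IsUnit.mul) isUnit_one fun p _ => ?_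
    refine Finset.prod_induction _ IsUnit (fun _ _ => IsUnit.mul) isUnit_one fun b _ => ?_
    exact (isUnit_chr (-b)).neg
  have hP : (∏ p : D.W, ∏ b ∈ D.Inv p, (1 - chr b : RH r)) =
      ∏ b ∈ D.Pos, (1 - chr b) ^ (Finset.univ.filter fun p : D.W => b ∈ D.Inv p).card := by
    have h1 : ∀ p : D.W, ∏ b ∈ D.Inv p, (1 - chr b : RH r) =
        ∏ b ∈ D.Pos, if b ∈ D.Inv p then (1 - chr b : RH r) else 1 := by
      intro p
      have h2 : D.Inv p = D.Pos.filter fun b => b ∈ D.Inv p := by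
        ext b
        rw [Finset.mem_filter]
        refine ⟨fun h => ⟨?_, h⟩, fun h => h.2⟩
        unfold Inv at h
        exact (Finset.mem_filter.1 h).1
      conv_lhs => rw [h2]
      rw [Finset.prod_filter]
    rw [Finset.prod_congr rfl fun p _ => h1 p, Finset.prod_comm]
    refine Finset.prod_congr rfl fun b _ => ?_
    rw [← Finset.prod_filter, Finset.prod_const]
  obtain ⟨u, hu'⟩ := hu
  refine ⟨u, ?_⟩
  rw [Finset.prod_congr rfl fun p _ => hs p, Finset.prod_mul_distrib, ← hu',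
    Finset.prod_congr rfl fun p _ => hd p, mul_assoc, hP, ← Finset.prod_mul_distrib,
    ← Finset.prod_pow]
  congr 1
  refine Finset.prod_congr rfl fun b hb => ?_
  rw [← pow_add, ← card_inv hb, two_mul]

end Pool.Agent.FLG.RS
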