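import Pool.Agent.FLG.K.ClsM
import Pool.Agent.FLG.K.Mat

/-!
# FLG-KGamA: the `Γ`-class
-/

set_option autoImplicit false

open scoped BigOperators Topology
open Filter
open Pool.Agent.DST.TE Pool.Agent.DSTJ.Spec

namespace Pool.Agent.FLG.RS

variable {r : ℕ} {D : RS r}

/-- the classes `e^{t + πi c_1} Γ̂ Ch(B_i)` -/
noncomputable def GM (D : RS r) (t y : Fin r → ℂ) : Matrix D.W D.W ℂ :=
  Matrix.of fun u i => D.cls (fun p y => D.gg t p y * evK y (D.Bk i p)) y u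

/-- multiplication by `e^{t + πi c_1} Γ̂` at `λ = 0` -/
noncomputable def Gop (D : RS r) (t : Fin r → ℂ) : Matrix D.W D.W ℂ := D.mop (D.gg t) 0

theorem GM_diff (t : Fin r → ℂ) {y₀ : Fin r → ℂ}
    (hy : ∀ a ∈ D.Φ, ∀ n : ℤ, n ≠ 0 → pr a y₀ ≠ n) (u i : D.W) :
    DifferentiableAt ℂ (fun y => D.GM t y u i) y₀ :=
  (cls_diff (gh_mul (gh_gg t hy) (gh_evK (isB_Bk i).gkm y₀)) u).self_of_nhds

theorem GM_res (t : Fin r → ℂ) {y : Fin r → ℂ} (hy : ∀ a ∈ D.Φ, pr a y ≠ 0) :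
    D.Rm y * D.GM t y = Matrix.diagonal (fun p => D.gg t p y) *
      Matrix.of fun p i => evK y (D.Bk i p) := by
  ext p i
  rw [Matrix.diagonal_mul]
  exact cls_res (H := fun p y => D.gg t p y * evK y (D.Bk i p)) hy p

theorem C0_zero (h : Fin r → ℂ) : D.C0 h 0 = D.E0 (D.ch h) := by
  unfold C0
  have h1 : (fun u : D.W => D.hv h u 0) = 0 := by
    funext u
    unfold hv
    rw [D.yt_zero]
    exact Finset.sum_eq_zero fun j _ => by rw [Pi.zero_apply, mul_zero]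
  rw [h1]
  simp

private theorem ga_zero : ∀ a ∈ D.Φ, ∀ n : ℤ, n ≠ 0 → pr a (0 : Fin r → ℂ) ≠ n := by
  intro a _ n hn h
  rw [pr_zero_right] at h
  exact hn (by exact_mod_cast h.symm)

theorem Gop_comm (t h : Fin r → ℂ) : D.Gop t * D.E0 (D.ch h) = D.E0 (D.ch h) * D.Gop t := by
  have h1 := mop_comm (D := D) (gh_gg t ga_zero) h
  rw [C0_zero] at h1
  exact h1

theorem GM_zero (t : Fin r → ℂ) (i : D.W) : (fun u => D.GM t 0 u i) =
    (D.Gop t).mulVec (D.cls (fun p y => evK y (D.Bk i p)) 0) :=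
  cls_mul (gh_gg t ga_zero) (gh_evK (isB_Bk i).gkm 0)

end Pool.Agent.FLG.RS
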