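import Pool.Agent.FLG.K.Dv
import Pool.Agent.FLG.K.Kap

/-!
# FLG-KAB: Atiyah–Bott sums are holomorphic

The alternating sum over the Weyl group vanishes on the walls; the division by the positive roots is done one root at a time.
-/

set_option autoImplicit false

open scoped BigOperators Topology
open Filter
open Pool.Agent.DST.TE Pool.Agent.DSTJ.Spec

namespace Pool.Agent.FLG.RS

variable {r : ℕ} {D : RS r}

private theorem ab_ne {c d : ℂ} (h : c ≠ 0 ∨ d ≠ 0) : ∀ᶠ s : ℂ in 𝓝[≠] 0, c + s * d ≠ 0 := by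
  by_cases hc : c = 0
  · have hd := h.resolve_left (not_not.2 hc)
    filter_upwards [self_mem_nhdsWithin] with s hs
    rw [hc, zero_add]
    exact mul_ne_zero hs hd
  · have h1 : ContinuousAt (fun s : ℂ => c + s * d) 0 := by fun_prop
    have h2 : c + 0 * d ≠ 0 := by
      rw [zero_mul, add_zero]
      exact hc
    exact (h1.eventually_ne h2).filter_mono nhdsWithin_le_nhds

private theorem ab_single (i : Fin r) (z : ℂ) (b : Fin r → ℤ) : pr b (Pi.single i z) = b i * z := by
  unfold pr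
  rw [Finset.sum_eq_single i]
  · rw [Pi.single_eq_same]
  · intro j _ hj
    rw [Pi.single_eq_of_ne hj, mul_zero]
  · intro hi
    exact absurd (Finset.mem_univ i) hi

/-- a vector on the wall of `b` which is not on the wall of `b'` -/
private theorem ab_vec1 {b b' : Fin r → ℤ} (hb : b ∈ D.Pos) (hb' : b' ∈ D.Pos) (hne : b ≠ b') :
    ∃ v : Fin r → ℂ, pr b v = 0 ∧ pr b' v ≠ 0 := by
  by_contra hcon
  push Not at hcon
  have hall : ∀ i j, b i * b' j = b j * b' i := by
    intro i j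
    have h1 := hcon (Pi.single j (b i : ℂ) - Pi.single i (b j : ℂ))
    rw [pr_sub, pr_sub, ab_single, ab_single, ab_single, ab_single] at h1
    have h2 := h1 (by ring)
    have h3 : ((b i * b' j : ℤ) : ℂ) = ((b j * b' i : ℤ) : ℂ) := by
      push_cast
      linear_combination h2
    exact_mod_cast h3
  have h0 : b' ≠ 0 := ne_zero (mem_of_pos hb')
  apply h0
  funext i
  refine indep_pos hb hb' hne (b' i) (b i) ?_
  funext j
  rw [Pi.smul_apply, Pi.smul_apply, smul_eq_mul, smul_eq_mul]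
  have h1 := hall i j
  linarith

private theorem ab_vec {b : Fin r → ℤ} (l : List (Fin r → ℤ))
    (hl : ∀ b' ∈ l, ∃ v : Fin r → ℂ, pr b v = 0 ∧ pr b' v ≠ 0) :
    ∃ v : Fin r → ℂ, pr b v = 0 ∧ ∀ b' ∈ l, pr b' v ≠ 0 := by
  induction l with
  | nil => exact ⟨0, pr_zero_right b, fun b' hb' => absurd hb' (List.not_mem_nil)⟩
  | cons a l ih =>
    obtain ⟨v, hv1, hv2⟩ := ih fun b' hb' => hl b' (List.mem_cons_of_mem _ hb')
    obtain ⟨v', hv1', hv2'⟩ := hl a (List.mem_cons_self)
    have h1 : ∀ᶠ s : ℂ in 𝓝[≠] 0, ∀ b' ∈ a :: l, pr b' v + s * pr b' v' ≠ 0 := by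
      have h2 : ∀ l' : List (Fin r → ℤ), (∀ b' ∈ l', pr b' v ≠ 0 ∨ pr b' v' ≠ 0) →
          ∀ᶠ s : ℂ in 𝓝[≠] 0, ∀ b' ∈ l', pr b' v + s * pr b' v' ≠ 0 := by
        intro l' hl'
        induction l' with
        | nil => exact Eventually.of_forall fun s b' hb' => absurd hb' (List.not_mem_nil)
        | cons a' l' ih' =>
          filter_upwards [ih' fun b' hb' => hl' b' (List.mem_cons_of_mem _ hb'),
            ab_ne (hl' a' (List.mem_cons_self))] with s h3 h4
          intro b' hb'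
          rcases List.mem_cons.1 hb' with h5 | h5
          · rw [h5]
            exact h4
          · exact h3 b' h5
      refine h2 _ fun b' hb' => ?_
      rcases List.mem_cons.1 hb' with h5 | h5
      · rw [h5]
        exact Or.inr hv2'
      · exact Or.inl (hv2 b' h5)
    obtain ⟨s, hs⟩ := h1.exists
    refine ⟨v + s • v', ?_, fun b' hb' => ?_⟩
    · rw [pr_add, pr_smul, hv1, hv1', mul_zero, add_zero]
    · rw [pr_add, pr_smul]
      exact hs b' hb'

/-- along a line through a point of the wall the roots in `l` do not vanish near the point -/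
private theorem ab_line {y v : Fin r → ℂ} (l : List (Fin r → ℤ)) (hl : ∀ b ∈ l, pr b v ≠ 0) :
    ∀ᶠ s : ℂ in 𝓝[≠] 0, ∀ b ∈ l, pr b (y + s • v) ≠ 0 := by
  induction l with
  | nil => exact Eventually.of_forall fun s b' hb' => absurd hb' (List.not_mem_nil)
  | cons a' l' ih' =>
    filter_upwards [ih' fun b' hb' => hl b' (List.mem_cons_of_mem _ hb'),
      ab_ne (c := pr a' y) (Or.inr (hl a' (List.mem_cons_self)))] with s h3 h4
    intro b' hb'
    rcases List.mem_cons.1 hb' with h5 | h5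
    · rw [h5, pr_add, pr_smul]
      exact h4
    · exact h3 b' h5

private theorem ab_prod {y : Fin r → ℂ} (l : List (Fin r → ℤ)) (hl : ∀ b ∈ l, pr b y ≠ 0) :
    (l.map fun b => pr b y).prod ≠ 0 := by
  induction l with
  | nil =>
    rw [List.map_nil, List.prod_nil]
    exact one_ne_zero
  | cons a l ih =>
    rw [List.map_cons, List.prod_cons]
    exact mul_ne_zero (hl a (List.mem_cons_self)) (ih fun b hb => hl b (List.mem_cons_of_mem _ hb))

private theorem ab_alt {H : D.W → (Fin r → ℂ) → ℂ} {y : Fin r → ℂ} {b : Fin r → ℤ} (hb : b ∈ D.Φ)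
    (h : ∀ p, H (D.refl b * p) y = H p y) : ∑ p, (-1 : ℂ) ^ D.len p * H p y = 0 := by
  have h1 : ∑ p, (-1 : ℂ) ^ D.len p * H p y = ∑ p, (-1 : ℂ) ^ D.len (D.refl b * p) * H (D.refl b * p) y :=
    (Equiv.sum_comp (Equiv.mulLeft (D.refl b)) fun p => (-1 : ℂ) ^ D.len p * H p y).symm
  have h2 : ∀ p, (-1 : ℂ) ^ D.len (D.refl b * p) * H (D.refl b * p) y = -((-1 : ℂ) ^ D.len p * H p y) := by
    intro p
    have h3 := len_parity_left p hb
    have h4 : (-1 : ℂ) ^ D.len (D.refl b * p) = -(-1 : ℂ) ^ D.len p := by exact_mod_cast congrArg (Int.cast : ℤ → ℂ) h3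
    rw [h4, h p]
    ring
  rw [Finset.sum_congr rfl fun p _ => h2 p, Finset.sum_neg_distrib] at h1
  have h5 : (2 : ℂ) * ∑ p, (-1 : ℂ) ^ D.len p * H p y = 0 := by linear_combination h1
  exact (mul_eq_zero.1 h5).resolve_left two_ne_zero

theorem AB_eq (H : D.W → (Fin r → ℂ) → ℂ) {y : Fin r → ℂ} (hy : ∀ a ∈ D.Φ, pr a y ≠ 0) :
    D.AB H y = ∑ p, H p y / ∏ a ∈ D.Pos, (-pr (D.rt p a) y) := by
  have key : ∀ (l : List (Fin r → ℤ)) (N : (Fin r → ℂ) → ℂ), (∀ b ∈ l, pr b y ≠ 0) →
      l.foldr (fun b N => dv b (hvec b) N) N y = N y / (l.map fun b => pr b y).prod := by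
    intro l N hl
    induction l with
    | nil => rw [List.foldr_nil, List.map_nil, List.prod_nil, div_one]
    | cons a l ih =>
      rw [List.foldr_cons, dv_mul (hl a (List.mem_cons_self)),
        ih fun b hb => hl b (List.mem_cons_of_mem _ hb), List.map_cons, List.prod_cons, div_div]
      congr 1
      ring
  unfold AB
  rw [key _ _ fun b hb => hy b (mem_of_pos (Finset.mem_toList.1 hb)), Finset.prod_map_toList,
    Finset.mul_sum, Finset.sum_div]
  refine Finset.sum_congr rfl fun p _ => ?_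
  rw [prod_rt]
  have h1 : ∀ n : ℕ, ((-1 : ℂ) ^ n)⁻¹ = (-1) ^ n := by
    intro n
    rw [← inv_pow]
    norm_num
  rw [div_eq_mul_inv, div_eq_mul_inv, mul_inv, mul_inv, h1, h1]
  ring

theorem AB_diff {H : D.W → (Fin r → ℂ) → ℂ} {y₀ : Fin r → ℂ} (h : D.GH H y₀) :
    ∀ᶠ y in 𝓝 y₀, DifferentiableAt ℂ (D.AB H) y := by
  obtain ⟨N, hN⟩ : ∃ N : (Fin r → ℂ) → ℂ, N = fun y => (-1) ^ D.dm * ∑ p, (-1) ^ D.len p * H p y := ⟨_, rfl⟩
  have hd : ∀ᶠ y in 𝓝 y₀, DifferentiableAt ℂ N y := by
    have h1 : ∀ᶠ y in 𝓝 y₀, ∀ p, DifferentiableAt ℂ (H p) y := eventually_all.2 h.diff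
    filter_upwards [h1] with y hy
    rw [hN]
    refine DifferentiableAt.const_mul ?_ _
    exact DifferentiableAt.fun_sum fun p _ => (hy p).const_mul _
  have hw : ∀ b ∈ D.Pos, pr b y₀ = 0 → ∀ᶠ y in 𝓝 y₀, pr b y = 0 → N y = 0 := by
    intro b hb hb0
    have h1 : ∀ᶠ y in 𝓝 y₀, ∀ p, pr b y = 0 → H (D.refl b * p) y = H p y :=
      eventually_all.2 (h.wall b (mem_of_pos hb) hb0)
    filter_upwards [h1] with y hy hy0
    rw [hN]
    beta_reduce
    rw [ab_alt (mem_of_pos hb) fun p => hy p hy0, mul_zero]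
  have key : ∀ l : List (Fin r → ℤ), l.Nodup → (∀ b ∈ l, b ∈ D.Pos) →
      ∀ᶠ y in 𝓝 y₀, DifferentiableAt ℂ (l.foldr (fun b N => dv b (hvec b) N) N) y ∧
        (l.map fun b => pr b y).prod * l.foldr (fun b N => dv b (hvec b) N) N y = N y := by
    intro l
    induction l with
    | nil =>
      intro _ _
      filter_upwards [hd] with y hy
      rw [List.foldr_nil, List.map_nil, List.prod_nil, one_mul]
      exact ⟨hy, rfl⟩
    | cons b l ih =>
      intro hnd hpos
      have hb := hpos b (List.mem_cons_self)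
      have hl : ∀ b' ∈ l, b' ∈ D.Pos := fun b' hb' => hpos b' (List.mem_cons_of_mem _ hb')
      have hbl : b ∉ l := (List.nodup_cons.1 hnd).1
      have hi := ih (List.nodup_cons.1 hnd).2 hl
      obtain ⟨M, hM⟩ : ∃ M : (Fin r → ℂ) → ℂ, M = l.foldr (fun b N => dv b (hvec b) N) N := ⟨_, rfl⟩
      rw [← hM] at hi
      have hwall : pr b y₀ = 0 → ∀ᶠ y in 𝓝 y₀, pr b y = 0 → M y = 0 := by
        intro hb0
        obtain ⟨v, hv1, hv2⟩ := ab_vec (b := b) l fun b' hb' =>
          ab_vec1 hb (hl b' hb') fun h1 => hbl (by rw [h1]; exact hb')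
        have h1 := (hi.and (hw b hb hb0)).eventually_nhds
        filter_upwards [h1] with y hy hy0
        have h2 : ContinuousAt M y := hy.self_of_nhds.1.1.continuousAt
        have h3 : Tendsto (fun s : ℂ => y + s • v) (𝓝[≠] 0) (𝓝 y) := by
          have h4 : ContinuousAt (fun s : ℂ => y + s • v) 0 := by fun_prop
          have h5 : Tendsto (fun s : ℂ => y + s • v) (𝓝 0) (𝓝 (y + (0 : ℂ) • v)) := h4
          rw [zero_smul, add_zero] at h5
          exact h5.mono_left nhdsWithin_le_nhds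
        have h4 : Tendsto (fun s : ℂ => M (y + s • v)) (𝓝[≠] 0) (𝓝 (M y)) := h2.tendsto.comp h3
        have h5 : ∀ᶠ s : ℂ in 𝓝[≠] 0, M (y + s • v) = 0 := by
          filter_upwards [h3.eventually hy, ab_line (y := y) l hv2] with s hs hs'
          have h6 := hs.1.2
          rw [hs.2 (by rw [pr_add, pr_smul, hy0, hv1, mul_zero, add_zero])] at h6
          exact (mul_eq_zero.1 h6).resolve_left (ab_prod l hs')
        exact tendsto_nhds_unique_of_eventuallyEq h4 tendsto_const_nhds h5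
      have hdv := dv_diff (hvec_spec (ne_zero (mem_of_pos hb))) (hi.mono fun y hy => hy.1) hwall
      filter_upwards [hi, hdv] with y hy hy'
      rw [List.foldr_cons, ← hM, List.map_cons, List.prod_cons]
      refine ⟨hy'.1, ?_⟩
      rw [← hy.2, ← hy'.2]
      ring
  have h1 := key D.Pos.toList (Finset.nodup_toList _) fun b hb => Finset.mem_toList.1 hb
  rw [hN] at h1
  exact h1.mono fun y hy => hy.1

end Pool.Agent.FLG.RS
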