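import Pool.Agent.FLG.K.Gkm

/-!
# FLG-KGh: families of functions with the GKM property
-/

set_option autoImplicit false

open scoped BigOperators Topology
open Filter
open Pool.Agent.DST.TE Pool.Agent.DSTJ.Spec

namespace Pool.Agent.FLG.RS

variable {r : ℕ} {D : RS r}

theorem gh_mul {H K : D.W → (Fin r → ℂ) → ℂ} {y₀ : Fin r → ℂ} (hH : D.GH H y₀) (hK : D.GH K y₀) :
    D.GH (fun p y => H p y * K p y) y₀ := by
  refine ⟨fun p => ?_, fun b hb h0 p => ?_⟩
  · filter_upwards [hH.diff p, hK.diff p] with y h1 h2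
    exact h1.mul h2
  · filter_upwards [hH.wall b hb h0 p, hK.wall b hb h0 p] with y h1 h2 hy
    rw [h1 hy, h2 hy]

theorem gh_sum {ι : Type*} (s : Finset ι) {H : ι → D.W → (Fin r → ℂ) → ℂ} {y₀ : Fin r → ℂ}
    (hH : ∀ i ∈ s, D.GH (H i) y₀) : D.GH (fun p y => ∑ i ∈ s, H i p y) y₀ := by
  refine ⟨fun p => ?_, fun b hb h0 p => ?_⟩
  · have h1 : ∀ᶠ y in 𝓝 y₀, ∀ i ∈ s, DifferentiableAt ℂ (H i p) y :=
      (Filter.eventually_all_finset s).2 fun i hi => (hH i hi).diff p
    filter_upwards [h1] with y h2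
    exact DifferentiableAt.fun_sum h2
  · have h1 : ∀ᶠ y in 𝓝 y₀, ∀ i ∈ s, pr b y = 0 → H i (D.refl b * p) y = H i p y :=
      (Filter.eventually_all_finset s).2 fun i hi => (hH i hi).wall b hb h0 p
    filter_upwards [h1] with y h2 hy
    exact Finset.sum_congr rfl fun i hi => h2 i hi hy

theorem gh_const {c : (Fin r → ℂ) → ℂ} {y₀ : Fin r → ℂ}
    (hc : ∀ᶠ y in 𝓝 y₀, DifferentiableAt ℂ c y) : D.GH (fun _ y => c y) y₀ :=
  ⟨fun _ => hc, fun _ _ _ _ => Filter.Eventually.of_forall fun _ _ => rfl⟩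

theorem gh_Rm (v : D.W) (y₀ : Fin r → ℂ) : D.GH (fun p y => D.Rm y p v) y₀ :=
  ⟨fun p => Filter.Eventually.of_forall fun y => Rm_diff p v y,
    fun _ hb _ p => Filter.Eventually.of_forall fun _ hy => Rm_gkm hb hy p v⟩

theorem gh_evK {f : D.W → RH r} (hf : D.GKM f) (y₀ : Fin r → ℂ) :
    D.GH (fun p y => evK y (f p)) y₀ := by
  refine ⟨fun p => Filter.Eventually.of_forall fun y => evK_diff (f p) y,
    fun b hb _ p => Filter.Eventually.of_forall fun y hy => ?_⟩
  obtain ⟨g, hg⟩ := hf p b hb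
  have h1 := congrArg (evK y) hg
  rw [map_sub, map_mul, map_sub, map_one, evK_chr, hy, mul_zero, Complex.exp_zero, sub_self,
    zero_mul] at h1
  exact (sub_eq_zero.1 h1).symm

private theorem yt_diff' (w : D.W) : Differentiable ℂ fun y : Fin r → ℂ => D.yt w y := by
  unfold yt
  fun_prop

private theorem hv_diff (h : Fin r → ℂ) (p : D.W) :
    Differentiable ℂ fun y : Fin r → ℂ => D.hv h p y := by
  unfold hv yt
  fun_prop

private theorem hv_wall (h : Fin r → ℂ) (p : D.W) {b : Fin r → ℤ} (hb : b ∈ D.Φ) {y : Fin r → ℂ}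
    (hy : pr b y = 0) : D.hv h (D.refl b * p) y = D.hv h p y := by
  rw [hv_refl h p hb y, hy, zero_mul, sub_zero]

/-- `e^{c (p h)(y)}` -/
theorem gh_exp (c : ℂ) (h y₀ : Fin r → ℂ) :
    D.GH (fun p y => Complex.exp (c * D.hv h p y)) y₀ := by
  refine ⟨fun p => Filter.Eventually.of_forall fun y => ?_,
    fun b hb _ p => Filter.Eventually.of_forall fun y hy => ?_⟩
  · exact (((hv_diff h p) y).const_mul c).cexp
  · rw [hv_wall h p hb hy]

/-- restrictions of `e^{t + πi c_1} Γ̂` -/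
noncomputable def gg (D : RS r) (t : Fin r → ℂ) (p : D.W) (y : Fin r → ℂ) : ℂ :=
  Complex.exp (Real.pi * Complex.I * pr (-D.rt p D.tr) y) * D.gam t p y

private theorem gamma_ev (a : Fin r → ℤ) {y₀ : Fin r → ℂ} (h : ∀ n : ℤ, n ≠ 0 → pr a y₀ ≠ n) :
    ∀ᶠ y in 𝓝 y₀, DifferentiableAt ℂ (fun y : Fin r → ℂ => Complex.Gamma (1 + pr a y)) y := by
  have h0 : Differentiable ℂ fun y : Fin r → ℂ => 1 + pr a y := by
    unfold pr
    fun_prop
  have h1 : Continuous fun y : Fin r → ℂ => (Complex.Gamma (1 + pr a y))⁻¹ :=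
    Complex.differentiable_one_div_Gamma.continuous.comp h0.continuous
  have h2 : (Complex.Gamma (1 + pr a y₀))⁻¹ ≠ 0 := by
    refine inv_ne_zero (Complex.Gamma_ne_zero fun m hm => h (-(m + 1)) (by omega) ?_)
    push_cast
    linear_combination hm
  filter_upwards [h1.continuousAt.eventually_ne h2] with y hy
  have h3 : ∀ m : ℕ, 1 + pr a y ≠ -m := by
    intro m hm
    rw [hm, Complex.Gamma_neg_nat_eq_zero, inv_zero] at hy
    exact hy rfl
  exact (Complex.differentiableAt_Gamma _ h3).comp y (h0 y)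

private theorem pr_wall (a : Fin r → ℤ) (p : D.W) {b : Fin r → ℤ} (hb : b ∈ D.Φ) {y : Fin r → ℂ}
    (hy : pr b y = 0) : pr (D.rt (D.refl b * p) a) y = pr (D.rt p a) y := by
  rw [D.rt_mul, D.pr_rt (D.refl b), refl_inv hb, yt_refl hb, hy, zero_smul, sub_zero]

private theorem prod_diff {ι : Type*} (s : Finset ι) {f : ι → (Fin r → ℂ) → ℂ} {y : Fin r → ℂ}
    (h : ∀ a ∈ s, DifferentiableAt ℂ (f a) y) : DifferentiableAt ℂ (fun y => ∏ a ∈ s, f a y) y := by
  induction s using Finset.cons_induction with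
  | empty => simp
  | cons a s ha ih =>
    simp only [Finset.prod_cons]
    exact (h a (Finset.mem_cons_self a s)).mul
      (ih fun b hb => h b (Finset.mem_cons_of_mem hb))

private theorem pr_neg_eq (a : Fin r → ℤ) (y : Fin r → ℂ) : pr (-a) y = -pr a y := by
  simp [pr]

theorem gh_gg (t : Fin r → ℂ) {y₀ : Fin r → ℂ} (hy : ∀ a ∈ D.Φ, ∀ n : ℤ, n ≠ 0 → pr a y₀ ≠ n) :
    D.GH (D.gg t) y₀ := by
  refine ⟨fun p => ?_, fun b hb _ p => Filter.Eventually.of_forall fun y hy0 => ?_⟩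
  · have h1 : ∀ᶠ y in 𝓝 y₀, ∀ a ∈ D.Pos,
        DifferentiableAt ℂ (fun y : Fin r → ℂ => Complex.Gamma (1 + pr (D.rt p a) y)) y :=
      (Filter.eventually_all_finset _).2 fun a ha =>
        gamma_ev (D.rt p a) (hy _ (D.rt_mem.2 (mem_of_pos ha)))
    filter_upwards [h1] with y h2
    unfold gg gam
    have h3 : Differentiable ℂ fun y : Fin r → ℂ =>
        Real.pi * Complex.I * pr (-D.rt p D.tr) y := by
      unfold pr
      fun_prop
    refine (h3 y).cexp.mul (((hv_diff t p) y).fun_neg.cexp.mul ?_)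
    exact prod_diff D.Pos h2
  · unfold gg gam
    rw [pr_neg_eq, pr_neg_eq, pr_wall _ p hb hy0, hv_wall t p hb hy0]
    congr 2
    exact Finset.prod_congr rfl fun a _ => by rw [pr_wall a p hb hy0]

end Pool.Agent.FLG.RS
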