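import Pool.Agent.FLG.K.AB
import Pool.Agent.FLG.K.Gh

/-!
# FLG-KCls: classes with given restrictions
-/

set_option autoImplicit false

open scoped BigOperators Topology
open Filter
open Pool.Agent.DST.TE Pool.Agent.DSTJ.Spec

namespace Pool.Agent.FLG.RS

variable {r : ℕ} {D : RS r}

theorem cls_eq (H : D.W → (Fin r → ℂ) → ℂ) {y : Fin r → ℂ} (hy : ∀ a ∈ D.Φ, pr a y ≠ 0)
    (u : D.W) : D.cls H y u = ∑ p, (D.Rm y)⁻¹ u p * H p y := by
  unfold cls
  have h1 : ∀ v, (D.Pg y)⁻¹ u v * D.AB (fun p y => D.Rm y p v * H p y) y =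
      ∑ p, (D.Pg y)⁻¹ u v * (D.Rm y p v / ∏ a ∈ D.Pos, (-pr (D.rt p a) y)) * H p y := by
    intro v
    rw [AB_eq _ hy, Finset.mul_sum]
    refine Finset.sum_congr rfl fun p _ => ?_
    ring
  simp only [h1]
  rw [Finset.sum_comm]
  refine Finset.sum_congr rfl fun p _ => ?_
  rw [Rm_inv hy, Finset.sum_mul]

private theorem prod_diff {ι : Type*} (s : Finset ι) {f : ι → (Fin r → ℂ) → ℂ}
    (h : ∀ i ∈ s, Differentiable ℂ (f i)) : Differentiable ℂ fun y => ∏ i ∈ s, f i y := by
  classical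
  induction s using Finset.induction_on with
  | empty =>
    simp only [Finset.prod_empty]
    exact differentiable_const _
  | insert i s hi ih =>
    simp only [Finset.prod_insert hi]
    exact (h i (Finset.mem_insert_self i s)).mul
      (ih fun j hj => h j (Finset.mem_insert_of_mem hj))

private theorem det_diff {n : Type*} [Fintype n] [DecidableEq n]
    {M : (Fin r → ℂ) → Matrix n n ℂ} (h : ∀ u v, Differentiable ℂ fun y => M y u v) :
    Differentiable ℂ fun y => (M y).det := by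
  have h1 : (fun y => (M y).det) = fun y => ∑ σ : Equiv.Perm n,
      ((Equiv.Perm.sign σ : ℤ) : ℂ) * ∏ i, M y (σ i) i := by
    funext y
    exact Matrix.det_apply' (M y)
  rw [h1]
  refine Differentiable.fun_sum fun σ _ => ?_
  exact (differentiable_const _).mul (prod_diff _ fun i _ => h (σ i) i)

private theorem inv_diff {n : Type*} [Fintype n] [DecidableEq n]
    {M : (Fin r → ℂ) → Matrix n n ℂ} (h : ∀ u v, Differentiable ℂ fun y => M y u v)
    (hd : ∀ y, (M y).det ≠ 0) (u v : n) : Differentiable ℂ fun y => (M y)⁻¹ u v := by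
  have h1 : (fun y => (M y)⁻¹ u v) = fun y => ((M y).det)⁻¹ *
      ((M y).updateRow v (Pi.single u 1)).det := by
    funext y
    rw [Matrix.inv_def, Matrix.smul_apply, Matrix.adjugate_apply, Ring.inverse_eq_inv',
      smul_eq_mul]
  rw [h1]
  refine Differentiable.mul ((det_diff h).inv hd) (det_diff fun i j => ?_)
  by_cases hi : i = v
  · subst hi
    simp only [Matrix.updateRow_self]
    exact differentiable_const _
  · simp only [Matrix.updateRow_ne hi]
    exact h i j

theorem cls_diff {H : D.W → (Fin r → ℂ) → ℂ} {y₀ : Fin r → ℂ} (h : D.GH H y₀) (u : D.W) :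
    ∀ᶠ y in 𝓝 y₀, DifferentiableAt ℂ (fun y => D.cls H y u) y := by
  have h1 : ∀ v, ∀ᶠ y in 𝓝 y₀,
      DifferentiableAt ℂ (D.AB fun p y => D.Rm y p v * H p y) y := fun v =>
    AB_diff (gh_mul (gh_Rm v y₀) h)
  have h2 : ∀ᶠ y in 𝓝 y₀, ∀ v, DifferentiableAt ℂ (D.AB fun p y => D.Rm y p v * H p y) y :=
    eventually_all.2 h1
  filter_upwards [h2] with y hy
  unfold cls
  refine DifferentiableAt.fun_sum fun v _ => ?_
  exact (inv_diff (M := fun y => D.Pg y) (fun a b => Pg_diff a b) Pg_det u v y).mul (hy v)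

theorem cls_res {H : D.W → (Fin r → ℂ) → ℂ} {y : Fin r → ℂ} (hy : ∀ a ∈ D.Φ, pr a y ≠ 0)
    (p : D.W) : (D.Rm y).mulVec (D.cls H y) p = H p y := by
  have h1 : D.cls H y = (D.Rm y)⁻¹.mulVec fun p => H p y := by
    funext u
    exact cls_eq H hy u
  rw [h1, Matrix.mulVec_mulVec, Matrix.mul_nonsing_inv _ (isUnit_iff_ne_zero.2 (Rm_det_ne hy)),
    Matrix.one_mulVec]

/-- two functions with the same values at the regular points -/
theorem cls_ext (D : RS r) {y₀ : Fin r → ℂ} {F G : (Fin r → ℂ) → ℂ} (hF : ContinuousAt F y₀)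
    (hG : ContinuousAt G y₀) (h : ∀ᶠ y in 𝓝 y₀, (∀ a ∈ D.Φ, pr a y ≠ 0) → F y = G y) :
    F y₀ = G y₀ := by
  refine tendsto_nhds_unique_of_frequently_eq hF hG ?_
  have h3 := mem_closure_iff_frequently.1 (dense_reg D y₀)
  exact (h3.and_eventually h).mono fun z hz => hz.2 hz.1.1

end Pool.Agent.FLG.RS
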