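import Pool.Agent.FLG.K.Cls

/-!
# FLG-KClsM: multiplication of classes

Both sides are continuous (`cls_diff`) and agree at the regular points (`cls_eq`), so they agree (`cls_ext`).
-/

set_option autoImplicit false

open scoped BigOperators Topology
open Filter
open Pool.Agent.DST.TE Pool.Agent.DSTJ.Spec

namespace Pool.Agent.FLG.RS

variable {r : ℕ} {D : RS r}

set_option backward.isDefEq.respectTransparency false in
private theorem cm_exp {m : Type*} [Fintype m] [DecidableEq m] :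
    Continuous (NormedSpace.exp : Matrix m m ℂ → Matrix m m ℂ) := by
  open scoped Matrix.Norms.Operator in exact NormedSpace.exp_continuous

private theorem cm_cont {H : D.W → (Fin r → ℂ) → ℂ} {y₀ : Fin r → ℂ} (h : D.GH H y₀) (u : D.W) :
    ContinuousAt (fun y => D.cls H y u) y₀ :=
  (cls_diff h u).self_of_nhds.continuousAt

private theorem cm_mop_cont {H : D.W → (Fin r → ℂ) → ℂ} {y₀ : Fin r → ℂ} (h : D.GH H y₀) (u a : D.W) :
    ContinuousAt (fun y => D.mop H y u a) y₀ :=
  cm_cont (gh_mul h (gh_Rm a y₀)) u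

private theorem cm_C0_cont (h : Fin r → ℂ) (u v : D.W) : Continuous fun y => D.C0 h y u v := by
  have h1 : ∀ y, D.C0 h y u v = D.E0 (D.ch h) u v - (if u = v then D.hv h u y else 0) := by
    intro y
    unfold C0
    rw [Matrix.sub_apply, Matrix.diagonal_apply]
  have h2 : Continuous fun y => D.hv h u y := by
    unfold hv yt
    fun_prop
  simp only [h1]
  by_cases h3 : u = v
  · simp only [if_pos h3]
    exact continuous_const.sub h2
  · simp only [if_neg h3]
    exact continuous_const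

private theorem cm_unit {y : Fin r → ℂ} (hy : ∀ a ∈ D.Φ, pr a y ≠ 0) : IsUnit (D.Rm y).det :=
  isUnit_iff_ne_zero.2 (Rm_det_ne hy)

private theorem cm_mop_eq (H : D.W → (Fin r → ℂ) → ℂ) {y : Fin r → ℂ} (hy : ∀ a ∈ D.Φ, pr a y ≠ 0) :
    D.mop H y = (D.Rm y)⁻¹ * Matrix.diagonal (fun p => H p y) * D.Rm y := by
  ext u a
  have h1 : D.mop H y u a = D.cls (fun p y => H p y * D.Rm y p a) y u := rfl
  rw [h1, cls_eq _ hy, Matrix.mul_apply]
  refine Finset.sum_congr rfl fun p _ => ?_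
  rw [Matrix.mul_diagonal, mul_assoc]

private theorem cm_C0_eq (h : Fin r → ℂ) {y : Fin r → ℂ} (hy : ∀ a ∈ D.Φ, pr a y ≠ 0) :
    D.C0 h y = (D.Rm y)⁻¹ * Matrix.diagonal (fun p => -D.hv h p y) * D.Rm y := by
  rw [Matrix.mul_assoc, ← Rm_C0, Matrix.nonsing_inv_mul_cancel_left _ _ (cm_unit hy)]

theorem cls_mul {H K : D.W → (Fin r → ℂ) → ℂ} {y₀ : Fin r → ℂ} (hH : D.GH H y₀) (hK : D.GH K y₀) :
    D.cls (fun p y => H p y * K p y) y₀ = (D.mop H y₀).mulVec (D.cls K y₀) := by
  funext u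
  refine cls_ext D (F := fun y => D.cls (fun p y => H p y * K p y) y u)
    (G := fun y => (D.mop H y).mulVec (D.cls K y) u) (cm_cont (gh_mul hH hK) u) ?_ ?_
  · show ContinuousAt (fun y => ∑ a, D.mop H y u a * D.cls K y a) y₀
    exact tendsto_finsetSum _ fun a _ => (cm_mop_cont hH u a).mul (cm_cont hK a)
  · refine Eventually.of_forall fun y hy => ?_
    rw [cm_mop_eq H hy, Matrix.mul_assoc, ← Matrix.mulVec_mulVec, cls_eq _ hy]
    refine Finset.sum_congr rfl fun p _ => ?_
    rw [← Matrix.mulVec_mulVec, Matrix.mulVec_diagonal, cls_res hy]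

theorem cls_sum {ι : Type*} (s : Finset ι) {H : ι → D.W → (Fin r → ℂ) → ℂ} {y₀ : Fin r → ℂ}
    (hH : ∀ i ∈ s, D.GH (H i) y₀) (u : D.W) :
    D.cls (fun p y => ∑ i ∈ s, H i p y) y₀ u = ∑ i ∈ s, D.cls (H i) y₀ u := by
  refine cls_ext D (F := fun y => D.cls (fun p y => ∑ i ∈ s, H i p y) y u)
    (G := fun y => ∑ i ∈ s, D.cls (H i) y u) (cm_cont (gh_sum s hH) u) ?_ ?_
  · exact tendsto_finsetSum _ fun i hi => cm_cont (hH i hi) u
  · refine Eventually.of_forall fun y hy => ?_
    rw [cls_eq _ hy, Finset.sum_congr rfl fun i _ => cls_eq (H i) hy u, Finset.sum_comm]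
    exact Finset.sum_congr rfl fun p _ => Finset.mul_sum _ _ _

theorem cls_smul {c : (Fin r → ℂ) → ℂ} {H : D.W → (Fin r → ℂ) → ℂ} {y₀ : Fin r → ℂ}
    (hc : ∀ᶠ y in 𝓝 y₀, DifferentiableAt ℂ c y) (hH : D.GH H y₀) (u : D.W) :
    D.cls (fun p y => c y * H p y) y₀ u = c y₀ * D.cls H y₀ u := by
  refine cls_ext D (F := fun y => D.cls (fun p y => c y * H p y) y u)
    (G := fun y => c y * D.cls H y u) (cm_cont (gh_mul (gh_const hc) hH) u) ?_ ?_
  · exact hc.self_of_nhds.continuousAt.mul (cm_cont hH u)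
  · refine Eventually.of_forall fun y hy => ?_
    rw [cls_eq _ hy, cls_eq _ hy, Finset.mul_sum]
    refine Finset.sum_congr rfl fun p _ => ?_
    ring

theorem mop_comm {H : D.W → (Fin r → ℂ) → ℂ} {y₀ : Fin r → ℂ} (hH : D.GH H y₀)
    (h : Fin r → ℂ) : D.mop H y₀ * D.C0 h y₀ = D.C0 h y₀ * D.mop H y₀ := by
  ext u v
  refine cls_ext D (F := fun y => (D.mop H y * D.C0 h y) u v)
    (G := fun y => (D.C0 h y * D.mop H y) u v) ?_ ?_ ?_
  · simp only [Matrix.mul_apply]
    exact tendsto_finsetSum _ fun a _ => (cm_mop_cont hH u a).mul (cm_C0_cont h a v).continuousAt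
  · simp only [Matrix.mul_apply]
    exact tendsto_finsetSum _ fun a _ => (cm_C0_cont h u a).continuousAt.mul (cm_mop_cont hH a v)
  · refine Eventually.of_forall fun y hy => ?_
    have h1 : ∀ A B : Matrix D.W D.W ℂ, (D.Rm y)⁻¹ * A * D.Rm y * ((D.Rm y)⁻¹ * B * D.Rm y) =
        (D.Rm y)⁻¹ * (A * B) * D.Rm y := by
      intro A B
      rw [Matrix.mul_assoc, ← Matrix.mul_assoc (D.Rm y), ← Matrix.mul_assoc (D.Rm y),
        Matrix.mul_nonsing_inv _ (cm_unit hy), Matrix.one_mul]
      simp only [Matrix.mul_assoc]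
    rw [cm_mop_eq H hy, cm_C0_eq h hy, h1, h1, Matrix.diagonal_mul_diagonal, Matrix.diagonal_mul_diagonal]
    simp only [mul_comm]

/-- the class with restrictions `e^{-c (p h)(y)}` is `e^{c h}` -/
theorem cls_exp (c : ℂ) (h y : Fin r → ℂ) (u : D.W) :
    D.cls (fun p y => Complex.exp (-(c * D.hv h p y))) y u =
      NormedSpace.exp (c • D.C0 h y) u 1 := by
  have h0 : (fun (p : D.W) (y : Fin r → ℂ) => Complex.exp (-(c * D.hv h p y))) =
      fun p y => Complex.exp (-c * D.hv h p y) := by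
    funext p y
    rw [neg_mul]
  refine cls_ext D (F := fun y => D.cls (fun p y => Complex.exp (-(c * D.hv h p y))) y u)
    (G := fun y => NormedSpace.exp (c • D.C0 h y) u 1) ?_ ?_ ?_
  · rw [h0]
    exact cm_cont (gh_exp (-c) h y) u
  · have h1 : Continuous fun y => c • D.C0 h y := by
      refine Continuous.const_smul ?_ c
      exact continuous_matrix fun u v => cm_C0_cont h u v
    have h2 : Continuous (NormedSpace.exp : Matrix D.W D.W ℂ → Matrix D.W D.W ℂ) := cm_exp
    exact ((h2.comp h1).matrix_elem u 1).continuousAt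
  · refine Eventually.of_forall fun y hy => ?_
    have h1 : c • D.C0 h y = (D.Rm y)⁻¹ * Matrix.diagonal (fun p => -(c * D.hv h p y)) * D.Rm y := by
      have h2 : Matrix.diagonal (fun p => -(c * D.hv h p y)) = c • Matrix.diagonal (fun p => -D.hv h p y) := by
        rw [← Matrix.diagonal_smul]
        congr 1
        funext p
        rw [Pi.smul_apply, smul_eq_mul]
        ring
      rw [h2, cm_C0_eq h hy, Matrix.mul_smul, Matrix.smul_mul]
    rw [h1, Matrix.exp_conj' _ _ ((Matrix.isUnit_iff_isUnit_det _).2 (cm_unit hy)), Matrix.exp_diagonal,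
      cls_eq _ hy, Matrix.mul_apply]
    refine Finset.sum_congr rfl fun p _ => ?_
    rw [Matrix.mul_diagonal, Rm_one, mul_one, Pi.coe_exp, ← Complex.exp_eq_exp_ℂ]

end Pool.Agent.FLG.RS
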