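import Pool.Agent.FLG.K.Gkm
import Pool.Agent.FLG.K.DivB

/-!
# FLG-KCols: divisibility of determinants

PLAN. `det_cols`: induction on `S` for the stronger statement: for the matrix `M'` obtained from `M` by replacing the columns `p ∈ S` by the quotients `(M v p - M v (refl b * p)) / (1 - chr b)` one has `M.det = (1 - chr b) ^ S.card * M'.det`. Adding `p`: the columns `p` and `refl b * p` of `M'` are those
of `M`; subtract the column `refl b * p` from the column `p` (`Matrix.det_updateCol_add_smul_self`), take out the factor (`Matrix.det_updateCol_smul`).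
`hs_card`: `p ↦ refl b * p` is a bijection from `hs b` to its complement (`rt (refl b * p)⁻¹ b = - rt p⁻¹ b`). `det_gkm`: for every `b ∈ Pos` `(1 - chr b) ^ m ∣ M.det` by `det_cols` with `S = hs b`; then `dvd_prod_pow`.
`adj_gkm`: `Matrix.adjugate_apply`: the entry is the determinant of `M.updateRow v (Pi.single w0 1)`; `det_cols` for `b ∈ Pos` with `S = (hs b).erase (refl b * w0)` (`w0 ∉ hs b`, `refl b * w0 ∈ hs b`): for `p ∈ S` neither `p` nor `refl b * p` is `w0`, so the row `v` has the entries `0, 0`.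
`dvd_prod_pow`: `dvd_pow_cancel`: `(1 - chr b) ^ k ∣ P * F`, `P = (∏ a ∈ S, (1 - chr a)) ^ k'`, all `a ∈ S` independent of `b`, implies `(1 - chr b) ^ k ∣ F` (induction on `k`, `dvd_cancel` repeatedly, cancel `1 - chr b ≠ 0`); then induction on the finite set as in `dvd_prod`; `indep_pos`.
-/

set_option autoImplicit false

open scoped BigOperators Topology
open Filter
open Pool.Agent.DST.TE Pool.Agent.DSTJ.Spec

namespace Pool.Agent.FLG.RS

variable {r : ℕ} {D : RS r}

private theorem det_aux {n R : Type*} [Fintype n] [DecidableEq n] [CommRing R] (x : R) (σ : n → n)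
    (M : Matrix n n R) (Q : n → n → R) (S : Finset n) (hS : ∀ p ∈ S, σ p ∉ S)
    (hM : ∀ p ∈ S, ∀ v, M v p - M v (σ p) = x * Q v p) :
    M.det = x ^ S.card * (Matrix.of fun v p => if p ∈ S then Q v p else M v p).det := by
  induction S using Finset.induction_on with
  | empty =>
    rw [Finset.card_empty, pow_zero, one_mul]
    have h0 : (Matrix.of fun v p => if p ∈ (∅ : Finset n) then Q v p else M v p) = M := by
      ext v p
      rw [Matrix.of_apply, if_neg (Finset.notMem_empty p)]
    rw [h0]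
  | insert p S hp ih =>
    have h1 := ih (fun q hq h => hS q (Finset.mem_insert_of_mem hq) (Finset.mem_insert_of_mem h))
      (fun q hq => hM q (Finset.mem_insert_of_mem hq))
    rw [h1, Finset.card_insert_of_notMem hp, pow_succ, mul_assoc]
    congr 1
    obtain ⟨N, hN⟩ : ∃ N : Matrix n n R, N = Matrix.of fun v p => if p ∈ S then Q v p else M v p :=
      ⟨_, rfl⟩
    have hσ := hS p (Finset.mem_insert_self p S)
    have hne : p ≠ σ p := fun h => hσ (by rw [← h]; exact Finset.mem_insert_self p S)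
    have hσS : σ p ∉ S := fun h => hσ (Finset.mem_insert_of_mem h)
    have h2 : (Matrix.of fun v q => if q ∈ insert p S then Q v q else M v q) =
        N.updateCol p fun v => Q v p := by
      ext v q
      rw [Matrix.updateCol_apply, hN, Matrix.of_apply, Matrix.of_apply]
      by_cases h : q = p
      · rw [if_pos h, h, if_pos (Finset.mem_insert_self p S)]
      · rw [if_neg h]
        by_cases h' : q ∈ S
        · rw [if_pos h', if_pos (Finset.mem_insert_of_mem h')]
        · rw [if_neg h', if_neg (fun h3 => (Finset.mem_insert.1 h3).elim h h')]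
    have h3 := Matrix.det_updateCol_add_smul_self N hne (-1)
    have h4 : (fun k => N k p + (-1 : R) • N k (σ p)) = x • fun v => Q v p := by
      funext v
      have e1 : N v p = M v p := by
        rw [hN, Matrix.of_apply, if_neg hp]
      have e2 : N v (σ p) = M v (σ p) := by
        rw [hN, Matrix.of_apply, if_neg hσS]
      show N v p + (-1) * N v (σ p) = x * Q v p
      rw [e1, e2, ← hM p (Finset.mem_insert_self p S) v]
      ring
    rw [h4, Matrix.det_updateCol_smul] at h3
    rw [h2, ← hN, ← h3]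

private theorem cancel {b : Fin r → ℤ} (hb : b ≠ 0) {S : Finset (Fin r → ℤ)}
    (hS : ∀ a ∈ S, ∀ n k : ℤ, n • a = k • b → n = 0) (k' k : ℕ) {F : RH r}
    (hF : (1 - chr b) ^ k ∣ (∏ a ∈ S, (1 - chr a)) ^ k' * F) : (1 - chr b) ^ k ∣ F := by
  have one : ∀ (m : ℕ) (G : RH r), (1 - chr b) ∣ (∏ a ∈ S, (1 - chr a)) ^ m * G → (1 - chr b) ∣ G := by
    intro m
    induction m with
    | zero =>
      intro G h
      rwa [pow_zero, one_mul] at h
    | succ m ih =>
      intro G h
      rw [pow_succ', mul_assoc] at h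
      exact ih G (dvd_cancel_prod hS h)
  induction k generalizing F with
  | zero =>
    rw [pow_zero]
    exact one_dvd _
  | succ k ih =>
    have h1 : (1 - chr b) ∣ F := by
      refine one k' F (dvd_trans ?_ hF)
      rw [pow_succ]
      exact dvd_mul_left _ _
    obtain ⟨G, rfl⟩ := h1
    have h2 : (1 - chr b) ^ k ∣ (∏ a ∈ S, (1 - chr a)) ^ k' * G := by
      have h3 : (1 - chr b : RH r) * (1 - chr b) ^ k ∣
          (1 - chr b) * ((∏ a ∈ S, (1 - chr a)) ^ k' * G) := by
        rw [← pow_succ']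
        have h4 : (1 - chr b : RH r) * ((∏ a ∈ S, (1 - chr a)) ^ k' * G) =
            (∏ a ∈ S, (1 - chr a)) ^ k' * ((1 - chr b) * G) := by ring
        rw [h4]
        exact hF
      exact (mul_dvd_mul_iff_left (one_sub_ne hb)).1 h3
    rw [pow_succ']
    exact mul_dvd_mul_left _ (ih h2)

theorem dvd_prod_pow (D : RS r) {F : RH r} (k : ℕ) (hF : ∀ b ∈ D.Pos, (1 - chr b) ^ k ∣ F) :
    (∏ b ∈ D.Pos, (1 - chr b)) ^ k ∣ F := by
  have key : ∀ S : Finset (Fin r → ℤ), S ⊆ D.Pos → (∏ b ∈ S, (1 - chr b : RH r)) ^ k ∣ F := by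
    intro S
    induction S using Finset.induction_on with
    | empty =>
      intro _
      rw [Finset.prod_empty, one_pow]
      exact one_dvd _
    | insert b S hb ih =>
      intro hS
      obtain ⟨m, hm⟩ := ih fun a ha => hS (Finset.mem_insert_of_mem ha)
      have hbP := hS (Finset.mem_insert_self b S)
      have h1 : (1 - chr b : RH r) ^ k ∣ m := by
        refine cancel (ne_zero (mem_of_pos hbP)) (S := S) (fun a ha n l h => ?_) k k ?_
        · refine indep_pos (hS (Finset.mem_insert_of_mem ha)) hbP ?_ n l h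
          rintro rfl
          exact hb ha
        · rw [← hm]
          exact hF b hbP
      obtain ⟨m', rfl⟩ := h1
      refine ⟨m', ?_⟩
      rw [Finset.prod_insert hb, hm, mul_pow]
      ring
  exact key _ (Finset.Subset.refl _)

theorem det_cols {b : Fin r → ℤ} (hb : b ∈ D.Φ) {M : Matrix D.W D.W (RH r)} (S : Finset D.W)
    (hS : ∀ p ∈ S, D.refl b * p ∉ S) (hM : ∀ p ∈ S, ∀ v, (1 - chr b) ∣ M v p - M v (D.refl b * p)) :
    (1 - chr b) ^ S.card ∣ M.det := by
  classical
  have h1 : ∀ (v p : D.W), ∃ q : RH r, p ∈ S → M v p - M v (D.refl b * p) = (1 - chr b) * q := by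
    intro v p
    by_cases hp : p ∈ S
    · obtain ⟨q, hq⟩ := hM p hp v
      exact ⟨q, fun _ => hq⟩
    · exact ⟨0, fun h => absurd h hp⟩
  choose Q hQ using h1
  rw [det_aux (1 - chr b) (fun p => D.refl b * p) M Q S hS (fun p hp v => hQ v p hp)]
  exact dvd_mul_right _ _

/-- the elements `p` with `p⁻¹ b > 0` -/
def hs (D : RS r) (b : Fin r → ℤ) : Finset D.W := Finset.univ.filter fun p => D.rt p⁻¹ b ∈ D.Pos

private theorem rt_refl_inv {b : Fin r → ℤ} (hb : b ∈ D.Φ) (p : D.W) :
    D.rt (D.refl b * p)⁻¹ b = -D.rt p⁻¹ b := by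
  rw [mul_inv_rev, refl_inv hb, D.rt_mul, rt_refl_self hb, D.rt_neg]

private theorem mem_hs {b : Fin r → ℤ} {p : D.W} : p ∈ D.hs b ↔ D.rt p⁻¹ b ∈ D.Pos := by
  unfold hs
  rw [Finset.mem_filter]
  exact ⟨fun h => h.2, fun h => ⟨Finset.mem_univ _, h⟩⟩

private theorem refl_mul_mem {b : Fin r → ℤ} (hb : b ∈ D.Φ) (p : D.W) :
    D.refl b * p ∈ D.hs b ↔ p ∉ D.hs b := by
  rw [mem_hs, mem_hs, rt_refl_inv hb]
  exact (not_pos_iff (D.rt_mem.2 hb)).symm

private theorem refl_refl_mul {b : Fin r → ℤ} (hb : b ∈ D.Φ) (p : D.W) :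
    D.refl b * (D.refl b * p) = p := by
  rw [← mul_assoc, refl_mul_self hb, one_mul]

theorem hs_card {b : Fin r → ℤ} (hb : b ∈ D.Φ) : Fintype.card D.W = 2 * (D.hs b).card := by
  have h1 : (D.hs b).card = (D.hs b)ᶜ.card := by
    refine Finset.card_nbij' (fun p => D.refl b * p) (fun p => D.refl b * p) ?_ ?_
      (fun p _ => refl_refl_mul hb p) (fun p _ => refl_refl_mul hb p)
    · intro p hp
      refine Finset.mem_coe.2 (Finset.mem_compl.2 fun h => ?_)
      exact (refl_mul_mem hb p).1 h (Finset.mem_coe.1 hp)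
    · intro p hp
      exact Finset.mem_coe.2 ((refl_mul_mem hb p).2 (Finset.mem_compl.1 (Finset.mem_coe.1 hp)))
  have h2 := Finset.card_add_card_compl (D.hs b)
  rw [← h2, ← h1]
  ring

theorem det_gkm {M : Matrix D.W D.W (RH r)} (hM : ∀ v, D.GKM (M v)) {m : ℕ}
    (hm : Fintype.card D.W = 2 * m) : (∏ b ∈ D.Pos, (1 - chr b)) ^ m ∣ M.det := by
  refine dvd_prod_pow D m fun b hb => ?_
  have hb' := mem_of_pos hb
  have h1 : (D.hs b).card = m := by
    have h2 := hs_card hb'
    omega
  rw [← h1]
  refine det_cols hb' (D.hs b) (fun p hp h => (refl_mul_mem hb' p).1 h hp) ?_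
  intro p _ v
  exact hM v p b hb'

theorem adj_gkm {M : Matrix D.W D.W (RH r)} (hM : ∀ v, D.GKM (M v)) {m : ℕ}
    (hm : Fintype.card D.W = 2 * (m + 1)) (v : D.W) :
    (∏ b ∈ D.Pos, (1 - chr b)) ^ m ∣ M.adjugate D.w0 v := by
  refine dvd_prod_pow D m fun b hb => ?_
  have hb' := mem_of_pos hb
  rw [Matrix.adjugate_apply]
  have hw : D.w0 ∉ D.hs b := by
    rw [mem_hs, inv_eq_of_mul_eq_one_right w0_mul_self]
    exact w0_pos hb
  have h1 : ((D.hs b).erase (D.refl b * D.w0)).card = m := by
    rw [Finset.card_erase_of_mem ((refl_mul_mem hb' _).2 hw)]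
    have h2 := hs_card hb'
    omega
  rw [← h1]
  refine det_cols hb' _ (fun p hp h => ?_) ?_
  · exact (refl_mul_mem hb' p).1 (Finset.mem_of_mem_erase h) (Finset.mem_of_mem_erase hp)
  · intro p hp u
    rw [Matrix.updateRow_apply, Matrix.updateRow_apply]
    by_cases hu : u = v
    · rw [if_pos hu, if_pos hu]
      have hp0 : p ≠ D.w0 := by
        rintro rfl
        exact hw (Finset.mem_of_mem_erase hp)
      have hp1 : D.refl b * p ≠ D.w0 := by
        intro h
        apply Finset.ne_of_mem_erase hp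
        rw [← h, refl_refl_mul hb']
      rw [Pi.single_eq_of_ne hp0, Pi.single_eq_of_ne hp1, sub_zero]
      exact dvd_zero _
    · rw [if_neg hu, if_neg hu]
      exact hM u p b hb'

end Pool.Agent.FLG.RS
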