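import Pool.Agent.FLG.Pair
import Pool.Agent.DSTJ.HDefs

/-!
# FLG-K-Defs: equivariant K-theory of the flag variety (definitions)

`RH r = ℤ[Q]`, `chr μ` the character `μ` of the adjoint torus, `evK y (chr μ) = e^{2πi μ(y)}`. A class in
`K_T(G/B)` is given by its restrictions `f : D.W → RH r` to the fixed points. Tangent weights at `p`: `-p a`,
`a > 0`. The class of the divisor `h : Fin r → ℂ` restricts to `-(p h)(y) = -D.hv h p y` at `p`.
-/

set_option autoImplicit false

open scoped BigOperators Topology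
open Filter
open Pool.Agent.DST.TE Pool.Agent.DSTJ.Spec

namespace Pool.Agent.FLG.RS

variable {r : ℕ} (D : RS r)

/-- the action of `w` on the root lattice -/
def rtH (w : D.W) : (Fin r → ℤ) →+ (Fin r → ℤ) := AddMonoidHom.mk' (D.rt w) (D.rt_add w)

/-- the action of the Weyl group on the representation ring -/
noncomputable def wK (w : D.W) : RH r →+* RH r := AddMonoidAlgebra.mapDomainRingHom ℤ (D.rtH w)

/-- the involution `e^μ ↦ e^{-μ}` -/
noncomputable def sK {r : ℕ} : RH r →+* RH r :=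
  AddMonoidAlgebra.mapDomainRingHom ℤ (negAddMonoidHom : (Fin r → ℤ) →+ (Fin r → ℤ))

/-- `f` is a class in `K_T(G/B)` (Goresky–Kottwitz–MacPherson conditions) -/
def GKM (f : D.W → RH r) : Prop := ∀ p, ∀ b ∈ D.Φ, (1 - chr b) ∣ f p - f (D.refl b * p)

/-- `g` is the image of `f` under the Demazure operator of `α_i` -/
def IsDem (i : Fin r) (f g : D.W → RH r) : Prop := ∀ p,
  (1 - chr (al i)) * g p = f p - chr (al i) * D.wK (D.s i) (f (D.s i * p))

/-- the inversions of `w⁻¹` -/
def Inv (w : D.W) : Finset (Fin r → ℤ) := D.Pos.filter fun b => D.rt w⁻¹ b ∉ D.Pos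

/-- `h` is an integral weight -/
def IsWt (h : Fin r → ℂ) : Prop := ∀ i, ∃ n : ℤ, D.ch h (al i) = n

/-- `p h - h`, an element of the root lattice if `h` is a weight -/
noncomputable def dl (h : Fin r → ℂ) (p : D.W) : Fin r → ℤ := by
  classical
  exact if H : ∃ δ : Fin r → ℤ, ∀ y, D.hv h p y = D.hv h 1 y + pr δ y then H.choose else 0

/-- restrictions to the fixed points of the line bundle with first Chern class `h` -/
noncomputable def LB (h : Fin r → ℂ) (p : D.W) : RH r := chr (-D.dl h p)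

/-- `f` is a combination of line bundles with coefficients in the representation ring -/
def Lin (f : D.W → RH r) : Prop :=
  ∃ (n : ℕ) (h : Fin n → Fin r → ℂ) (a : Fin n → RH r), (∀ k, D.IsWt (h k)) ∧
    ∀ p, f p = ∑ k, a k * D.LB (h k) p

/-- the class of the fixed point `w₀` -/
noncomputable def Bpt (p : D.W) : RH r := if p = D.w0 then ∏ b ∈ D.Pos, (1 - chr b) else 0

/-- `f` is the class of the closure of the cell `{p ≥ w}` -/
structure IsB (w : D.W) (f : D.W → RH r) : Prop where
  gkm : D.GKM f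
  supp : ∀ p, f p ≠ 0 → D.Bru w p
  diag : f w = ∏ b ∈ D.Inv w, (1 - chr b)
  lin : D.Lin f

/-- the restrictions of `e^{2πi y}`-values at a point `y` in general position -/
noncomputable def KSum (f : D.W → RH r) (y : Fin r → ℂ) : ℂ :=
  ∑ p, evK y (f p) / ∏ a ∈ D.Pos, (1 - Complex.exp (2 * Real.pi * Complex.I * pr (D.rt p a) y))

/-- `F` is the equivariant Euler characteristic of `f` -/
def IsChi (f : D.W → RH r) (F : RH r) : Prop := ∀ y : Fin r → ℂ, (∀ a ∈ D.Φ, ∀ n : ℤ, pr a y ≠ n) →
  evK y F = D.KSum f y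

/-- the quotient `N / b` of a holomorphic function by the linear form `b`, `b(h) = 1`, extended to the
hyperplane `b = 0` -/
noncomputable def dv {r : ℕ} (b : Fin r → ℤ) (h : Fin r → ℂ) (N : (Fin r → ℂ) → ℂ) :
    (Fin r → ℂ) → ℂ := by
  classical
  exact fun y => if pr b y = 0 then fderiv ℂ N y h else N y / pr b y

/-- a vector with `b(h) = 1` -/
noncomputable def hvec {r : ℕ} (b : Fin r → ℤ) : Fin r → ℂ := by
  classical
  exact if H : ∃ h : Fin r → ℂ, pr b h = 1 then H.choose else 0

/-- `∑_p H_p / ∏_{a > 0} (-p a)`, extended to the root hyperplanes -/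
noncomputable def AB (H : D.W → (Fin r → ℂ) → ℂ) : (Fin r → ℂ) → ℂ :=
  D.Pos.toList.foldr (fun b N => dv b (hvec b) N)
    fun y => (-1) ^ D.dm * ∑ p, (-1) ^ D.len p * H p y

/-- the cohomology class with restrictions `H_p` -/
noncomputable def cls (H : D.W → (Fin r → ℂ) → ℂ) (y : Fin r → ℂ) (u : D.W) : ℂ :=
  ∑ v, (D.Pg y)⁻¹ u v * D.AB (fun p y => D.Rm y p v * H p y) y

/-- the operator of multiplication by the class with restrictions `H_p` -/
noncomputable def mop (H : D.W → (Fin r → ℂ) → ℂ) (y : Fin r → ℂ) : Matrix D.W D.W ℂ :=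
  Matrix.of fun u a => D.cls (fun p y => H p y * D.Rm y p a) y u

/-- The family `H` is holomorphic near `y₀` and `H_p = H_{s_b p}` on the root hyperplanes through
`y₀`. -/
structure GH (H : D.W → (Fin r → ℂ) → ℂ) (y₀ : Fin r → ℂ) : Prop where
  diff : ∀ p, ∀ᶠ y in 𝓝 y₀, DifferentiableAt ℂ (H p) y
  wall : ∀ b ∈ D.Φ, pr b y₀ = 0 → ∀ p, ∀ᶠ y in 𝓝 y₀, pr b y = 0 → H (D.refl b * p) y = H p y

end Pool.Agent.FLG.RS
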