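import Pool.Agent.FLG.K.Gkm
import Pool.Agent.FLG.K.DivB

/-!
# FLG-KDem: the Demazure operators

Quotients by `1 - chr (al i)`; for roots which are not `± al i` use `dvd_cancel`.
-/

set_option autoImplicit false

open scoped BigOperators Topology
open Filter
open Pool.Agent.DST.TE Pool.Agent.DSTJ.Spec

namespace Pool.Agent.FLG.RS

variable {r : ℕ} {D : RS r}

theorem dem_exists {f : D.W → RH r} (hf : D.GKM f) (i : Fin r) : ∃ g, D.IsDem i f g := by
  have hal : al i ∈ D.Φ := D.simple i
  have h1 : ∀ p, (1 - chr (al i) : RH r) ∣ f p - chr (al i) * D.wK (D.s i) (f (D.s i * p)) := by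
    intro p
    have h2 : (1 - chr (al i) : RH r) ∣ f p - f (D.s i * p) := hf p (al i) hal
    have h3 : (1 - chr (al i) : RH r) ∣ f (D.s i * p) - D.wK (D.s i) (f (D.s i * p)) := wK_sub_dvd hal _
    have h4 : f p - chr (al i) * D.wK (D.s i) (f (D.s i * p)) = (f p - f (D.s i * p)) +
        (f (D.s i * p) - D.wK (D.s i) (f (D.s i * p))) + (1 - chr (al i)) * D.wK (D.s i) (f (D.s i * p)) := by
      ring
    rw [h4]
    exact dvd_add (dvd_add h2 h3) (Dvd.intro _ rfl)
  choose g hg using h1
  exact ⟨g, fun p => (hg p).symm⟩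

private theorem dem_al {f g : D.W → RH r} (hf : D.GKM f) {i : Fin r} (hg : D.IsDem i f g) (p : D.W) :
    (1 - chr (al i) : RH r) ∣ g p - g (D.s i * p) := by
  have hal : al i ∈ D.Φ := D.simple i
  have hss : D.s i * (D.s i * p) = p := by
    show D.refl (al i) * (D.refl (al i) * p) = p
    rw [← mul_assoc, refl_mul_self hal, one_mul]
  obtain ⟨k, hk⟩ := hf p (al i) hal
  have hk' : f p - f (D.s i * p) = (1 - chr (al i)) * k := hk
  have h1 := hg p
  have h2 := hg (D.s i * p)
  rw [hss] at h2
  have h3 : D.wK (D.s i) (f p) - D.wK (D.s i) (f (D.s i * p)) = (1 - chr (-al i)) * D.wK (D.s i) k := by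
    rw [← map_sub, hk', map_mul, map_sub, map_one, wK_chr]
    have h4 : D.rt (D.s i) (al i) = -al i := rt_refl_self hal
    rw [h4]
  have h5 := chr_mul_neg (al i : Fin r → ℤ)
  have h6 : (1 - chr (al i)) * (g p - g (D.s i * p)) = (1 - chr (al i)) * (k - D.wK (D.s i) k) := by
    linear_combination h1 - h2 + hk' + chr (al i) * h3 - D.wK (D.s i) k * h5
  have h7 : g p - g (D.s i * p) = k - D.wK (D.s i) k := mul_left_cancel₀ (one_sub_ne (ne_zero hal)) h6
  rw [h7]
  exact wK_sub_dvd hal k

theorem dem_gkm {f g : D.W → RH r} (hf : D.GKM f) {i : Fin r} (hg : D.IsDem i f g) :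
    D.GKM g := by
  have hal : al i ∈ D.Φ := D.simple i
  intro p b hb
  by_cases hb1 : al i = b
  · rw [← hb1]
    exact dem_al hf hg p
  · by_cases hb2 : al i = -b
    · have hb3 : b = -al i := by rw [hb2, neg_neg]
      rw [hb3, refl_neg hal, dvd_neg_iff]
      exact dem_al hf hg p
    · refine dvd_cancel (indep_root hal hb hb1 hb2) ?_
      have h1 := hg p
      have h2 := hg (D.refl b * p)
      have hss : D.s i * D.s i = 1 := refl_mul_self hal
      have h3 : D.refl (D.rt (D.s i) b) * (D.s i * p) = D.s i * (D.refl b * p) := by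
        rw [D.refl_rt (D.s i) hb]
        group
      have h4 : (1 - chr (D.rt (D.s i) b) : RH r) ∣ f (D.s i * p) - f (D.s i * (D.refl b * p)) := by
        have h5 := hf (D.s i * p) (D.rt (D.s i) b) (D.rt_mem.2 hb)
        rwa [h3] at h5
      have h6 := map_dvd (D.wK (D.s i)) h4
      rw [map_sub, map_one, wK_chr, ← D.rt_mul, hss, D.rt_one, map_sub] at h6
      have h7 : (1 - chr (al i)) * (g p - g (D.refl b * p)) = (f p - f (D.refl b * p)) -
          chr (al i) * (D.wK (D.s i) (f (D.s i * p)) - D.wK (D.s i) (f (D.s i * (D.refl b * p)))) := by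
        linear_combination h1 - h2
      rw [h7]
      exact dvd_sub (hf p b hb) (h6.mul_left _)

end Pool.Agent.FLG.RS
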