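import Pool.Agent.FLG.K.Nc
import Pool.Agent.FLG.K.Chi

/-! # FLG-KDen: the Weyl denominator formula -/

set_option autoImplicit false

open scoped BigOperators Topology
open Filter
open Pool.Agent.DST.TE Pool.Agent.DSTJ.Spec

namespace Pool.Agent.FLG.RS

variable {r : ℕ} {D : RS r}

private theorem pos_nonneg {b : Fin r → ℤ} (hb : b ∈ D.Pos) : 0 ≤ b := fun i => (mem_Pos.1 hb).2 i

private theorem inv_sub (p : D.W) : D.Inv p ⊆ D.Pos := Finset.filter_subset _ _

private theorem inv_card (p : D.W) : (D.Inv p).card = D.len p⁻¹ := rfl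

theorem kap_bd (p : D.W) : 0 ≤ D.kap p ∧ D.kap p ≤ D.tr := by
  constructor
  · exact Finset.sum_nonneg fun b hb => pos_nonneg (inv_sub p hb)
  · exact Finset.sum_le_sum_of_subset_of_nonneg (inv_sub p) fun b hb _ => pos_nonneg hb

theorem kap_eq_zero {p : D.W} (h : D.kap p = 0) : p = 1 := by
  have h1 : D.Inv p = ∅ := by
    rw [Finset.eq_empty_iff_forall_notMem]
    intro b hb
    have h2 := (Finset.sum_eq_zero_iff_of_nonneg (s := D.Inv p) (f := fun b => b)
      (fun b hb => pos_nonneg (inv_sub p hb))).1 h b hb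
    exact ne_zero (mem_of_pos (inv_sub p hb)) h2
  have h2 : D.len p⁻¹ = 0 := by
    rw [← inv_card, h1, Finset.card_empty]
  exact inv_eq_one.1 (eq_one_of_len h2)

theorem kap_eq_tr {p : D.W} (h : D.kap p = D.tr) : p = D.w0 := by
  have h1 : D.Pos \ D.Inv p = ∅ := by
    rw [Finset.eq_empty_iff_forall_notMem]
    intro b hb
    have h3 : ∑ b ∈ D.Pos \ D.Inv p, b = 0 := by
      have h4 := Finset.sum_sdiff (f := fun b : Fin r → ℤ => b) (inv_sub p)
      have h5 : ∑ b ∈ D.Inv p, b = ∑ b ∈ D.Pos, b := h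
      rw [h5] at h4
      exact add_eq_right.1 h4
    have h2 := (Finset.sum_eq_zero_iff_of_nonneg (s := D.Pos \ D.Inv p) (f := fun b => b)
      (fun b hb => pos_nonneg (Finset.mem_sdiff.1 hb).1)).1 h3 b hb
    exact ne_zero (mem_of_pos (Finset.mem_sdiff.1 hb).1) h2
  have h2 : D.Inv p = D.Pos := Finset.Subset.antisymm (inv_sub p) (Finset.sdiff_eq_empty_iff_subset.1 h1)
  have h3 : D.len p = D.dm := by
    rw [← len_inv, ← inv_card, h2]
    rfl
  have h4 : D.len (D.w0 * p) = 0 := by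
    have := len_w0_mul p
    omega
  have h5 := eq_one_of_len h4
  have h6 : p = D.w0⁻¹ := (inv_eq_of_mul_eq_one_right h5).symm
  rw [h6]
  exact inv_eq_of_mul_eq_one_right w0_mul_self

private theorem kap_one' (D : RS r) : D.kap 1 = 0 := by
  have h1 : D.Inv 1 = ∅ := by
    rw [Finset.eq_empty_iff_forall_notMem]
    intro b hb
    have h2 := (Finset.mem_filter.1 hb)
    rw [inv_one, rt_one] at h2
    exact h2.2 h2.1
  show ∑ b ∈ D.Inv 1, b = 0
  rw [h1, Finset.sum_empty]

private theorem kap_w0' (D : RS r) : D.kap D.w0 = D.tr := by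
  have h0 : (D.w0)⁻¹ = D.w0 := inv_eq_of_mul_eq_one_right w0_mul_self
  have h1 : D.Inv D.w0 = D.Pos := by
    refine Finset.Subset.antisymm (inv_sub _) fun b hb => ?_
    refine Finset.mem_filter.2 ⟨hb, ?_⟩
    rw [h0]
    exact w0_pos hb
  show ∑ b ∈ D.Inv D.w0, b = ∑ b ∈ D.Pos, b
  rw [h1]

theorem denom (D : RS r) : ∏ b ∈ D.Pos, (1 - chr b : RH r) = ∑ p, (-1) ^ D.len p * chr (D.kap p) := by
  obtain ⟨F, hF⟩ := chi_dvd (D := D) (gkm_const 1)
  simp only [mul_one] at hF
  have hX : Nc 0 (0 + D.tr) (∑ p, (-1) ^ D.len p * chr (D.kap p) : RH r) := by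
    have h1 : Nc 0 D.tr (∑ p : D.W, (((-1) ^ D.len p : ℤ) : RH r) * chr (D.kap p)) := by
      refine nc_sum 1 D.w0 (fun p => kap_bd p) (kap_one' D) (fun p hp => kap_eq_zero hp) ?_ (kap_w0' D)
        (fun p hp => kap_eq_tr hp) ?_
      · rw [len_one, pow_zero]
      · rcases neg_one_pow_eq_or ℤ (D.len D.w0) with h | h
        · exact Or.inl h
        · exact Or.inr h
    rw [zero_add]
    have h2 : (∑ p, (-1) ^ D.len p * chr (D.kap p) : RH r) =
        ∑ p : D.W, (((-1) ^ D.len p : ℤ) : RH r) * chr (D.kap p) := by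
      refine Finset.sum_congr rfl fun p _ => ?_
      push_cast
      rfl
    rw [h2]
    exact h1
  have hP : Nc 0 D.tr (∏ b ∈ D.Pos, (1 - chr b : RH r)) := by
    have h1 := nc_pos D 1
    rwa [one_smul, pow_one] at h1
  have h1 := Nc.cancel hP hX hF
  rw [h1, chr_zero, one_mul] at hF
  exact hF

end Pool.Agent.FLG.RS
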