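import Pool.Agent.FLG.K.Dl

/-!
# FLG-KDom: dominant weights

The invariant form gives the signs of the labels of positive roots.
-/

set_option autoImplicit false

open scoped BigOperators Topology
open Filter
open Pool.Agent.DST.TE Pool.Agent.DSTJ.Spec

namespace Pool.Agent.FLG.RS

variable {r : ℕ} {D : RS r}

private theorem form_expand (x b : Fin r → ℤ) : D.form x b = ∑ i, b i * D.form x (al i) := by
  unfold form
  simp only [Finset.mul_sum]
  rw [Finset.sum_comm]
  refine Finset.sum_congr rfl fun c _ => ?_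
  have h1 : dotProduct (D.co c) b = ∑ i, b i * dotProduct (D.co c) (al i) := by
    unfold dotProduct
    refine Finset.sum_congr rfl fun i _ => ?_
    have h2 : ∑ j, D.co c j * al i j = D.co c i := dot_al (D.co c) i
    rw [h2, mul_comm]
  rw [h1, Finset.mul_sum]
  exact Finset.sum_congr rfl fun i _ => by ring

theorem co_form {b : Fin r → ℤ} (hb : b ∈ D.Φ) (j : Fin r) :
    D.form b b * D.co b j = ∑ i, b i * (D.form (al i) (al i) * D.co (al i) j) := by
  have h1 : D.form b b * D.co b j = 2 * D.form (al j) b := by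
    rw [form_co hb (al j), dot_al]
    ring
  rw [h1, form_expand, Finset.mul_sum]
  refine Finset.sum_congr rfl fun i _ => ?_
  have h2 := form_co (D.al_mem i) (al j)
  rw [dot_al] at h2
  linear_combination b i * h2

theorem ch_form (h : Fin r → ℂ) {b : Fin r → ℤ} (hb : b ∈ D.Φ) :
    (D.form b b : ℂ) * D.ch h b = ∑ i, (b i : ℂ) * ((D.form (al i) (al i) : ℂ) * D.ch h (al i)) := by
  have h1 : ∀ j, (D.form b b : ℂ) * (D.co b j : ℂ) =
      ∑ i, (b i : ℂ) * ((D.form (al i) (al i) : ℂ) * (D.co (al i) j : ℂ)) := by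
    intro j
    have h2 := congrArg (fun z : ℤ => (z : ℂ)) (co_form hb j)
    push_cast at h2
    exact h2
  unfold ch
  rw [Finset.mul_sum]
  have h3 : ∀ j, (D.form b b : ℂ) * (h j * (D.co b j : ℂ)) =
      ∑ i, (b i : ℂ) * ((D.form (al i) (al i) : ℂ) * (h j * (D.co (al i) j : ℂ))) := by
    intro j
    rw [mul_left_comm, h1 j, Finset.mul_sum]
    exact Finset.sum_congr rfl fun i _ => by ring
  rw [Finset.sum_congr rfl fun j _ => h3 j, Finset.sum_comm]
  refine Finset.sum_congr rfl fun i _ => ?_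
  rw [Finset.mul_sum, Finset.mul_sum]

theorem ch_nat {h : Fin r → ℂ} {n : Fin r → ℕ} (hn : ∀ i, D.ch h (al i) = n i) {b : Fin r → ℤ}
    (hb : b ∈ D.Pos) : ∃ m : ℕ, D.ch h b = m ∧ (m = 0 → ∀ i, n i ≠ 0 → b i = 0) := by
  have hbΦ := mem_of_pos hb
  have hbn := (mem_Pos.1 hb).2
  have hwt : D.IsWt h := fun i => ⟨n i, by rw [hn]; push_cast; rfl⟩
  obtain ⟨z, hz⟩ := ch_int hwt hbΦ
  have h1 : D.form b b * z = ∑ i, b i * (D.form (al i) (al i) * n i) := by
    have h2 := ch_form h hbΦ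
    rw [hz, Finset.sum_congr rfl fun i _ => by rw [hn i]] at h2
    exact_mod_cast h2
  have hterm : ∀ i, 0 ≤ b i * (D.form (al i) (al i) * n i) := by
    intro i
    have h3 := form_pos (D.al_mem i)
    exact mul_nonneg (hbn i) (mul_nonneg (by linarith) (Int.natCast_nonneg _))
  have hf := form_pos hbΦ
  have hz0 : 0 ≤ z := by
    have h3 : 0 ≤ D.form b b * z := by
      rw [h1]
      exact Finset.sum_nonneg fun i _ => hterm i
    by_contra hneg
    have h4 : D.form b b * z < 0 := mul_neg_of_pos_of_neg (by linarith) (by omega)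
    linarith
  refine ⟨z.toNat, ?_, ?_⟩
  · rw [hz]
    have h3 : ((z.toNat : ℕ) : ℤ) = z := Int.toNat_of_nonneg hz0
    exact_mod_cast h3.symm
  · intro hm i hni
    have h3 : z = 0 := by omega
    rw [h3, mul_zero] at h1
    have h4 := (Finset.sum_eq_zero_iff_of_nonneg fun i _ => hterm i).1 h1.symm i
      (Finset.mem_univ i)
    have h5 := form_pos (D.al_mem i)
    rcases mul_eq_zero.1 h4 with h6 | h6
    · exact h6
    · rcases mul_eq_zero.1 h6 with h7 | h7
      · linarith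
      · exact absurd (by exact_mod_cast h7) hni

theorem isWt_nat {h : Fin r → ℂ} {n : Fin r → ℕ} (hn : ∀ i, D.ch h (al i) = n i) : D.IsWt h :=
  fun i => ⟨n i, by rw [hn]; push_cast; rfl⟩

theorem dl_nonpos {h : Fin r → ℂ} {n : Fin r → ℕ} (hn : ∀ i, D.ch h (al i) = n i) (q : D.W) :
    D.dl h q ≤ 0 := by
  have hh := isWt_nat hn
  have key : ∀ (N : ℕ) (q : D.W), D.len q = N → D.dl h q ≤ 0 := by
    intro N
    induction N with
    | zero =>
      intro q hq
      rw [eq_one_of_len hq, dl_one hh]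
    | succ N ih =>
      intro q hq
      have hq1 : q ≠ 1 := by
        rintro rfl
        rw [len_one] at hq
        omega
      obtain ⟨i, hi⟩ := exists_descent hq1
      have h1 := ih (D.s i * q) (by omega)
      have hqq : D.s i * (D.s i * q) = q := by
        rw [← mul_assoc, s_mul_self, one_mul]
      have hpos : D.rt (D.s i * q)⁻¹ (al i) ∈ D.Pos := by
        by_contra hneg
        have h2 := len_s_mul_of_neg i (D.s i * q) hneg
        rw [hqq] at h2
        omega
      obtain ⟨z, hz, hdl⟩ := dl_refl hh (D.s i * q) (D.al_mem i)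
      have h3 : D.refl (al i) * (D.s i * q) = q := hqq
      rw [h3] at hdl
      obtain ⟨m, hm, -⟩ := ch_nat hn hpos
      have h4 : z = m := by
        have h5 : (z : ℂ) = (m : ℂ) := hz.symm.trans hm
        exact_mod_cast h5
      rw [hdl, h4]
      intro j
      have h5 := h1 j
      have h6 : 0 ≤ (al i : Fin r → ℤ) j := (mem_Pos.1 (D.al_pos i)).2 j
      have h7 : 0 ≤ (m : ℤ) * (al i : Fin r → ℤ) j := mul_nonneg (Int.natCast_nonneg _) h6
      rw [Pi.sub_apply, Pi.smul_apply, smul_eq_mul]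
      rw [Pi.zero_apply] at h5 ⊢
      linarith
  exact key _ q rfl

theorem ch_stab {h : Fin r → ℂ} (hh : D.IsWt h) {q : D.W} (hq : D.dl h q = 0) {b : Fin r → ℤ}
    (hb : b ∈ D.Φ) : D.ch h (D.rt q⁻¹ b) = D.ch h b := by
  obtain ⟨z, hz, hdl⟩ := dl_refl hh q hb
  obtain ⟨w, hw, hdl'⟩ := dl_refl hh 1 hb
  have h1 := dl_mul hh (D.refl b) q
  rw [hq, D.rt_zero, add_zero, hdl, hq] at h1
  rw [mul_one, dl_one hh] at hdl'
  rw [hdl'] at h1
  rw [inv_one, D.rt_one] at hw
  have h2 : z • b = w • b := by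
    have h3 := sub_right_injective h1
    exact h3
  have h4 : (z - w) • b = 0 := by rw [sub_smul, h2, sub_self]
  have h5 : z = w := by
    rcases smul_eq_zero.1 h4 with h6 | h6
    · linarith
    · exact absurd h6 (ne_zero hb)
  rw [hz, hw, h5]

theorem card_Inv (w : D.W) : (D.Inv w).card = D.len w :=
  len_inv w

/-- If `q` fixes the dominant weight `h` and `v` is minimal in its coset, the lengths add up. -/
theorem stab_len {h : Fin r → ℂ} {n : Fin r → ℕ} (hn : ∀ i, D.ch h (al i) = n i) {q v : D.W}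
    (hq : D.dl h q = 0) (hv : ∀ i, n i = 0 → D.rt v⁻¹ (al i) ∈ D.Pos) :
    D.len q + D.len v ≤ D.len (q * v) := by
  classical
  have hh := isWt_nat hn
  -- positive roots with label zero stay positive
  have hA : ∀ b ∈ D.Pos, D.ch h b = 0 → D.rt v⁻¹ b ∈ D.Pos := by
    intro b hb hb0
    obtain ⟨m, hm, hm'⟩ := ch_nat hn hb
    have h1 : m = 0 := by
      rw [hb0] at hm
      exact_mod_cast hm.symm
    have h2 := hm' h1
    refine mem_Pos.2 ⟨D.rt_mem.2 (mem_of_pos hb), fun j => ?_⟩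
    have h3 : D.rt v⁻¹ b = ∑ i, b i • D.rt v⁻¹ (al i) := by
      conv_lhs => rw [eq_sum_al b]
      rw [D.rt_sum]
      exact Finset.sum_congr rfl fun i _ => D.rt_smul _ _ _
    rw [h3, Finset.sum_apply]
    refine Finset.sum_nonneg fun i _ => ?_
    rw [Pi.smul_apply, smul_eq_mul]
    by_cases hi : n i = 0
    · exact mul_nonneg ((mem_Pos.1 hb).2 i) ((mem_Pos.1 (hv i hi)).2 j)
    · rw [h2 i hi, zero_mul]
  have hneg : ∀ a ∈ D.Φ, D.ch h (-a) = -D.ch h a := by
    intro a ha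
    unfold ch
    rw [← Finset.sum_neg_distrib]
    refine Finset.sum_congr rfl fun j _ => ?_
    rw [co_neg ha, Pi.neg_apply]
    push_cast
    ring
  have hnn : ∀ a ∈ D.Pos, ∀ a' ∈ D.Pos, D.ch h a = -D.ch h a' → D.ch h a = 0 ∧ D.ch h a' = 0 := by
    intro a ha a' ha' e
    obtain ⟨m, hm, -⟩ := ch_nat hn ha
    obtain ⟨m', hm', -⟩ := ch_nat hn ha'
    rw [hm, hm'] at e
    have h1 : (m : ℤ) = -(m' : ℤ) := by exact_mod_cast e
    have h2 : m = 0 := by omega
    have h3 : m' = 0 := by omega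
    rw [hm, hm', h2, h3]
    exact ⟨Nat.cast_zero, Nat.cast_zero⟩
  have hB : ∀ b ∈ D.Inv v, D.rt q b ∈ D.Pos ∧ D.rt q b ∈ D.Inv (q * v) := by
    intro b hb
    unfold Inv at hb
    rw [Finset.mem_filter] at hb
    obtain ⟨hbP, hbv⟩ := hb
    have hbΦ := mem_of_pos hbP
    have h1 : D.rt q b ∈ D.Pos := by
      by_contra hq1
      have h2 : -D.rt q b ∈ D.Pos := (not_pos_iff (D.rt_mem.2 hbΦ)).1 hq1
      have h3 : D.ch h (-D.rt q b) = -D.ch h b := by
        rw [hneg _ (D.rt_mem.2 hbΦ)]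
        have h4 := ch_stab hh hq (D.rt_mem.2 hbΦ : D.rt q b ∈ D.Φ)
        rw [D.rt_inv_rt] at h4
        rw [h4]
      exact hbv (hA b hbP (hnn _ h2 b hbP h3).2)
    refine ⟨h1, ?_⟩
    unfold Inv
    rw [Finset.mem_filter, mul_inv_rev, D.rt_mul, D.rt_inv_rt]
    exact ⟨h1, hbv⟩
  have hC : D.Inv q ⊆ D.Inv (q * v) := by
    intro b hb
    unfold Inv at hb ⊢
    rw [Finset.mem_filter] at hb ⊢
    obtain ⟨hbP, hbq⟩ := hb
    have hbΦ := mem_of_pos hbP
    refine ⟨hbP, ?_⟩
    have hc : -D.rt q⁻¹ b ∈ D.Pos := (not_pos_iff (D.rt_mem.2 hbΦ)).1 hbq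
    have h3 : D.ch h (-D.rt q⁻¹ b) = -D.ch h b := by
      rw [hneg _ (D.rt_mem.2 hbΦ), ch_stab hh hq hbΦ]
    have h4 := hA _ hc (hnn _ hc b hbP h3).1
    rw [D.rt_neg] at h4
    rw [mul_inv_rev, D.rt_mul]
    intro h5
    exact neg_not_pos h5 h4
  have hdisj : Disjoint (D.Inv q) ((D.Inv v).image (D.rt q)) := by
    rw [Finset.disjoint_left]
    intro a ha ha'
    obtain ⟨b, hb, rfl⟩ := Finset.mem_image.1 ha'
    unfold Inv at ha hb
    rw [Finset.mem_filter] at ha hb
    rw [D.rt_inv_rt] at ha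
    exact ha.2 hb.1
  have hsub : D.Inv q ∪ (D.Inv v).image (D.rt q) ⊆ D.Inv (q * v) := by
    refine Finset.union_subset hC fun a ha => ?_
    obtain ⟨b, hb, rfl⟩ := Finset.mem_image.1 ha
    exact (hB b hb).2
  have h1 := Finset.card_le_card hsub
  rw [Finset.card_union_of_disjoint hdisj, Finset.card_image_of_injective _ (D.rt_inj q),
    card_Inv, card_Inv, card_Inv] at h1
  exact h1

theorem rt_w0_nonneg {x : Fin r → ℤ} (hx : x ≤ 0) : 0 ≤ D.rt D.w0 x := by
  have h3 : D.rt D.w0 x = ∑ i, x i • D.rt D.w0 (al i) := by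
    conv_lhs => rw [eq_sum_al x]
    rw [D.rt_sum]
    exact Finset.sum_congr rfl fun i _ => D.rt_smul _ _ _
  intro j
  rw [h3, Finset.sum_apply, Pi.zero_apply]
  refine Finset.sum_nonneg fun i _ => ?_
  rw [Pi.smul_apply, smul_eq_mul]
  have h1 : -D.rt D.w0 (al i) ∈ D.Pos :=
    (not_pos_iff (D.rt_mem.2 (D.al_mem i))).1 (w0_pos (D.al_pos i))
  have h2 := (mem_Pos.1 h1).2 j
  rw [Pi.neg_apply] at h2
  exact mul_nonneg_of_nonpos_of_nonpos (hx i) (by linarith)

end Pool.Agent.FLG.RS
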