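import Pool.Agent.FLG.K.Dl

/-! # FLG-KFund: weights with given values on the simple coroots -/

set_option autoImplicit false

open scoped BigOperators Topology
open Filter
open Pool.Agent.DST.TE Pool.Agent.DSTJ.Spec

namespace Pool.Agent.FLG.RS

variable {r : ℕ} {D : RS r}

private theorem ch_sub' (D : RS r) (h h' : Fin r → ℂ) (a : Fin r → ℤ) : D.ch (h - h') a = D.ch h a - D.ch h' a := by
  unfold ch
  rw [← Finset.sum_sub_distrib]
  exact Finset.sum_congr rfl fun j _ => by rw [Pi.sub_apply, sub_mul]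

private theorem ch_add' (D : RS r) (h h' : Fin r → ℂ) (a : Fin r → ℤ) : D.ch (h + h') a = D.ch h a + D.ch h' a := by
  unfold ch
  rw [← Finset.sum_add_distrib]
  exact Finset.sum_congr rfl fun j _ => by rw [Pi.add_apply, add_mul]

private theorem ch_smul' (D : RS r) (c : ℂ) (h : Fin r → ℂ) (a : Fin r → ℤ) : D.ch (c • h) a = c * D.ch h a := by
  unfold ch
  rw [Finset.mul_sum]
  exact Finset.sum_congr rfl fun j _ => by rw [Pi.smul_apply, smul_eq_mul, mul_assoc]

private theorem ch_sum' (D : RS r) {ι : Type} [Fintype ι] (h : ι → Fin r → ℂ) (a : Fin r → ℤ) :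
    D.ch (∑ v, h v) a = ∑ v, D.ch (h v) a := by
  unfold ch
  rw [Finset.sum_comm]
  refine Finset.sum_congr rfl fun j _ => ?_
  rw [Finset.sum_apply, Finset.sum_mul]

private theorem hv_smul' (D : RS r) (c : ℂ) (h : Fin r → ℂ) (p : D.W) (y : Fin r → ℂ) :
    D.hv (c • h) p y = c * D.hv h p y := by
  unfold hv
  rw [Finset.mul_sum]
  exact Finset.sum_congr rfl fun j _ => by rw [Pi.smul_apply, smul_eq_mul, mul_assoc]

private theorem hv_sum' (D : RS r) {ι : Type} [Fintype ι] (h : ι → Fin r → ℂ) (p : D.W) (y : Fin r → ℂ) :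
    D.hv (∑ v, h v) p y = ∑ v, D.hv (h v) p y := by
  unfold hv
  rw [Finset.sum_comm]
  refine Finset.sum_congr rfl fun j _ => ?_
  rw [Finset.sum_apply, Finset.sum_mul]

private theorem pr_neg'' (b : Fin r → ℤ) (y : Fin r → ℂ) : pr (-b) y = -pr b y := by
  simp only [pr, Pi.neg_apply, ← Finset.sum_neg_distrib]
  exact Finset.sum_congr rfl fun i _ => by push_cast; ring

private theorem pr_sub'' (a b : Fin r → ℤ) (y : Fin r → ℂ) : pr (a - b) y = pr a y - pr b y := by
  simp only [pr, Pi.sub_apply, ← Finset.sum_sub_distrib]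
  exact Finset.sum_congr rfl fun i _ => by push_cast; ring

private theorem pr_basis'' (μ : Fin r → ℤ) (i : Fin r) : pr μ (Pi.single i 1) = μ i := by
  unfold pr
  rw [Finset.sum_eq_single i]
  · rw [Pi.single_eq_same, mul_one]
  · intro j _ hj
    rw [Pi.single_eq_of_ne hj, mul_zero]
  · intro h
    exact absurd (Finset.mem_univ i) h

private theorem pr_al' (j : Fin r) (y : Fin r → ℂ) : pr (al j) y = y j := by
  unfold pr al
  rw [Finset.sum_eq_single j]
  · rw [Pi.single_eq_same, Int.cast_one, one_mul]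
  · intro i _ hi
    rw [Pi.single_eq_of_ne hi, Int.cast_zero, zero_mul]
  · intro h
    exact absurd (Finset.mem_univ j) h

theorem ch_ext {h h' : Fin r → ℂ} (H : ∀ i, D.ch h (al i) = D.ch h' (al i)) : h = h' := by
  obtain ⟨g, hg⟩ : ∃ g, g = h - h' := ⟨_, rfl⟩
  have hal : ∀ i, D.ch g (al i) = 0 := by
    intro i
    rw [hg, ch_sub', H i, sub_self]
  have hΦ : ∀ a ∈ D.Φ, D.ch g a = 0 := by
    intro a ha
    have h1 : ∀ j, (D.co a j : ℂ) = ∑ i, (D.cof a i : ℂ) * (D.co (al i) j : ℂ) := by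
      intro j
      have h2 := congrFun (D.co_cof a ha) j
      rw [Finset.sum_apply] at h2
      rw [h2]
      push_cast
      refine Finset.sum_congr rfl fun i _ => ?_
      rw [Pi.smul_apply, smul_eq_mul]
      push_cast
      rfl
    calc D.ch g a = ∑ j, ∑ i, (D.cof a i : ℂ) * (g j * (D.co (al i) j : ℂ)) := by
          refine Finset.sum_congr rfl fun j _ => ?_
          rw [h1 j, Finset.mul_sum]
          exact Finset.sum_congr rfl fun i _ => by ring
      _ = ∑ i, (D.cof a i : ℂ) * D.ch g (al i) := by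
          rw [Finset.sum_comm]
          exact Finset.sum_congr rfl fun i _ => (Finset.mul_sum _ _ _).symm
      _ = 0 := Finset.sum_eq_zero fun i _ => by rw [hal i, mul_zero]
  have hp : ∀ (n : ℕ) (p : D.W), D.len p = n → ∀ y, D.hv g p y = D.hv g 1 y := by
    intro n
    induction n using Nat.strong_induction_on with
    | _ n ih =>
      intro p hp y
      by_cases h1 : p = 1
      · rw [h1]
      · obtain ⟨i, hi⟩ := exists_descent h1
        have h2 := ih (D.len (D.s i * p)) (by omega) (D.s i * p) rfl y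
        have h3 := D.hv_refl g (D.s i * p) (D.al_mem i : al i ∈ D.Φ) y
        have h4 : D.refl (al i) * (D.s i * p) = p := by
          show D.refl (al i) * (D.refl (al i) * p) = p
          rw [← mul_assoc, refl_mul_self (D.al_mem i), one_mul]
        have h5 : D.hv g p y = D.hv g (D.s i * p) y -
            pr (al i) y * D.ch g (D.rt (D.s i * p)⁻¹ (al i)) := by
          rw [← h3]
          congr 1
          exact h4.symm
        rw [h5, hΦ _ (D.rt_mem.2 (D.al_mem i)), mul_zero, sub_zero, h2]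
  have hs : ∀ (y : Fin r → ℂ) (j : Fin r), ∑ p : D.W, D.yt p⁻¹ y j = 0 := by
    intro y j
    have h1 : ∀ p : D.W, D.yt p⁻¹ y j = pr (D.rt p (al j)) y := by
      intro p
      rw [D.pr_rt, pr_al']
    have h2 : ∑ p : D.W, pr (D.rt p (al j)) y = ∑ p : D.W, pr (D.rt (p * D.s j) (al j)) y :=
      (Fintype.sum_equiv (Equiv.mulRight (D.s j)) (fun p => pr (D.rt (p * D.s j) (al j)) y)
        (fun p => pr (D.rt p (al j)) y) fun p => rfl).symm
    have h3 : ∑ p : D.W, pr (D.rt (p * D.s j) (al j)) y = -∑ p : D.W, pr (D.rt p (al j)) y := by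
      rw [← Finset.sum_neg_distrib]
      refine Finset.sum_congr rfl fun p _ => ?_
      rw [D.rt_mul, rt_s_al, D.rt_neg, pr_neg'']
    rw [Finset.sum_congr rfl fun p _ => h1 p]
    have h4 := h2.trans h3
    have h5 : (2 : ℂ) * ∑ p : D.W, pr (D.rt p (al j)) y = 0 := by
      rw [two_mul]
      nth_rewrite 1 [h4]
      exact neg_add_cancel _
    exact (mul_eq_zero.1 h5).resolve_left two_ne_zero
  have h0 : ∀ y, D.hv g 1 y = 0 := by
    intro y
    have h1 : ∑ p : D.W, D.hv g p y = 0 := by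
      unfold hv
      rw [Finset.sum_comm]
      refine Finset.sum_eq_zero fun j _ => ?_
      rw [← Finset.mul_sum, hs y j, mul_zero]
    rw [Finset.sum_congr rfl fun p _ => hp _ p rfl y, Finset.sum_const, nsmul_eq_mul] at h1
    refine (mul_eq_zero.1 h1).resolve_left ?_
    exact Nat.cast_ne_zero.2 (Finset.card_ne_zero_of_mem (Finset.mem_univ (1 : D.W)))
  have hg0 : g = 0 := by
    funext j
    have h1 := h0 (Pi.single j 1)
    unfold hv at h1
    rw [inv_one, yt_one, Finset.sum_eq_single j] at h1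
    · rw [Pi.single_eq_same, mul_one] at h1
      exact h1
    · intro i _ hi
      rw [Pi.single_eq_of_ne hi, mul_zero]
    · intro h2
      exact absurd (Finset.mem_univ j) h2
  rw [hg] at hg0
  exact sub_eq_zero.1 hg0

theorem exists_wt (D : RS r) (n : Fin r → ℂ) : ∃ h : Fin r → ℂ, ∀ i, D.ch h (al i) = n i := by
  obtain ⟨F, hF⟩ : ∃ F : (Fin r → ℂ) →ₗ[ℂ] (Fin r → ℂ), ∀ h i, F h i = D.ch h (al i) :=
    ⟨{ toFun := fun h i => D.ch h (al i)
       map_add' := fun h h' => funext fun i => ch_add' D h h' (al i)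
       map_smul' := fun c h => funext fun i => ch_smul' D c h (al i) }, fun _ _ => rfl⟩
  have hinj : Function.Injective F := fun h h' e => ch_ext fun i => by
    rw [← hF, ← hF, e]
  obtain ⟨h, hh⟩ := LinearMap.injective_iff_surjective.1 hinj n
  exact ⟨h, fun i => by rw [← hF, hh]⟩

theorem exists_move {h : Fin r → ℂ} (hh : D.IsWt h) (w : D.W) :
    ∃ h' : Fin r → ℂ, D.IsWt h' ∧ ∀ p, D.dl h' p = D.dl h (p * w) - D.dl h w := by
  obtain ⟨h', hh'⟩ : ∃ h' : Fin r → ℂ, ∀ j, h' j = ∑ i, h i * ((D.act w j i : ℤ) : ℂ) := ⟨_, fun _ => rfl⟩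
  have hv' : ∀ p y, D.hv h' p y = D.hv h (p * w) y := by
    intro p y
    rw [D.hv_mul]
    unfold hv
    have h1 : ∀ i, D.yt w⁻¹ (D.yt p⁻¹ y) i = ∑ j, ((D.act w j i : ℤ) : ℂ) * D.yt p⁻¹ y j := by
      intro i
      show ∑ j, ((D.act (w⁻¹)⁻¹ j i : ℤ) : ℂ) * D.yt p⁻¹ y j = _
      rw [inv_inv]
    have h2 : ∑ i, h i * D.yt w⁻¹ (D.yt p⁻¹ y) i =
        ∑ i, ∑ j, h i * (((D.act w j i : ℤ) : ℂ) * D.yt p⁻¹ y j) :=
      Finset.sum_congr rfl fun i _ => by rw [h1 i, Finset.mul_sum]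
    rw [h2, Finset.sum_comm]
    refine Finset.sum_congr rfl fun j _ => ?_
    rw [hh' j, Finset.sum_mul]
    exact Finset.sum_congr rfl fun i _ => by ring
  have hw : D.IsWt h' := by
    intro i
    obtain ⟨m, hm⟩ := ch_int hh (D.rt_mem.2 (D.al_mem i) : D.rt w⁻¹ (al i) ∈ D.Φ)
    refine ⟨m, ?_⟩
    rw [← hm]
    have h1 := D.hv_refl h' 1 (D.al_mem i : al i ∈ D.Φ) (Pi.single i 1)
    have h2 := D.hv_refl h w (D.al_mem i : al i ∈ D.Φ) (Pi.single i 1)
    have e1 : pr (al i) (Pi.single i 1 : Fin r → ℂ) = 1 := by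
      rw [pr_al', Pi.single_eq_same]
    rw [mul_one, hv', hv', one_mul, inv_one, D.rt_one, e1, one_mul] at h1
    rw [e1, one_mul] at h2
    rw [h2] at h1
    exact (sub_right_injective h1).symm
  refine ⟨h', hw, fun p => dl_unique hw fun y => ?_⟩
  rw [hv', hv', one_mul, dl_spec hh (p * w) y, dl_spec hh w y, pr_sub'']
  ring

/-- Steinberg's weights `lam v = v⁻¹ (μ v)`, `μ v` the sum of the fundamental weights of the left descents
of `v`. -/
theorem exists_stein (D : RS r) : ∃ μ lam : D.W → Fin r → ℂ,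
    (∀ v i, D.ch (μ v) (al i) = if D.rt v⁻¹ (al i) ∈ D.Pos then 0 else 1) ∧ (∀ v, D.IsWt (lam v)) ∧
    ∀ v p, D.dl (lam v) p = D.dl (μ v) (p * v⁻¹) - D.dl (μ v) v⁻¹ := by
  classical
  choose μ hμ using fun v : D.W => exists_wt D fun i => if D.rt v⁻¹ (al i) ∈ D.Pos then 0 else 1
  have hw : ∀ v, D.IsWt (μ v) := by
    intro v i
    by_cases h1 : D.rt v⁻¹ (al i) ∈ D.Pos
    · exact ⟨0, by rw [hμ v i, if_pos h1, Int.cast_zero]⟩
    · exact ⟨1, by rw [hμ v i, if_neg h1, Int.cast_one]⟩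
  choose lam hlam hlam' using fun v : D.W => exists_move (hw v) v⁻¹
  exact ⟨μ, lam, hμ, hlam, hlam'⟩

theorem sum_mu {μ : D.W → Fin r → ℂ}
    (hμ : ∀ v i, D.ch (μ v) (al i) = if D.rt v⁻¹ (al i) ∈ D.Pos then 0 else 1) {m : ℕ}
    (hm : Fintype.card D.W = 2 * m) : ∑ v, D.dl (μ v) D.w0 = -(m • D.tr) := by
  classical
  have hw : ∀ v, D.IsWt (μ v) := by
    intro v i
    by_cases h1 : D.rt v⁻¹ (al i) ∈ D.Pos
    · exact ⟨0, by rw [hμ v i, if_pos h1, Int.cast_zero]⟩
    · exact ⟨1, by rw [hμ v i, if_neg h1, Int.cast_one]⟩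
  have hcount : ∀ i, ∑ v : D.W, (if D.rt v⁻¹ (al i) ∈ D.Pos then (0 : ℂ) else 1) = m := by
    intro i
    have h1 : ∑ v : D.W, (if D.rt v⁻¹ (al i) ∈ D.Pos then (0 : ℂ) else 1) =
        ∑ v : D.W, (if D.rt v⁻¹ (al i) ∈ D.Pos then (1 : ℂ) else 0) := by
      refine Fintype.sum_equiv (Equiv.mulLeft (D.s i)) _ _ fun v => ?_
      have h2 : D.rt (D.s i * v)⁻¹ (al i) = -D.rt v⁻¹ (al i) := by
        rw [mul_inv_rev, s_inv, D.rt_mul, rt_s_al, D.rt_neg]
      show _ = (if D.rt (D.s i * v)⁻¹ (al i) ∈ D.Pos then (1 : ℂ) else 0)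
      rw [h2]
      have h3 := not_pos_iff (D.rt_mem.2 (D.al_mem i) : D.rt v⁻¹ (al i) ∈ D.Φ)
      by_cases h4 : D.rt v⁻¹ (al i) ∈ D.Pos
      · rw [if_pos h4, if_neg (neg_not_pos h4)]
      · rw [if_neg h4, if_pos (h3.1 h4)]
    have h2 : ∑ v : D.W, (if D.rt v⁻¹ (al i) ∈ D.Pos then (0 : ℂ) else 1) +
        ∑ v : D.W, (if D.rt v⁻¹ (al i) ∈ D.Pos then (1 : ℂ) else 0) = 2 * m := by
      rw [← Finset.sum_add_distrib]
      have h3 : ∀ v : D.W, (if D.rt v⁻¹ (al i) ∈ D.Pos then (0 : ℂ) else 1) +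
          (if D.rt v⁻¹ (al i) ∈ D.Pos then (1 : ℂ) else 0) = 1 := by
        intro v
        split_ifs <;> norm_num
      rw [Finset.sum_congr rfl fun v _ => h3 v, Finset.sum_const, nsmul_eq_mul, mul_one, Finset.card_univ, hm]
      push_cast
      ring
    rw [← h1, ← two_mul] at h2
    exact mul_left_cancel₀ two_ne_zero h2
  have h2h : (2 : ℂ) • (∑ v, μ v) = (m : ℂ) • D.ctr := by
    refine ch_ext (D := D) fun i => ?_
    rw [ch_smul', ch_smul', ch_sum', D.ch_ctr, L_al, Finset.sum_congr rfl fun v _ => hμ v i, hcount i]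
    push_cast
    ring
  have hhv : ∀ p y, 2 * ∑ v, D.hv (μ v) p y = m * pr (D.rt p D.tr) y := by
    intro p y
    rw [← hv_sum', ← hv_smul', h2h, hv_smul', D.hv_ctr]
  funext j
  have h3 : ∀ v, ((D.dl (μ v) D.w0 j : ℤ) : ℂ) =
      D.hv (μ v) D.w0 (Pi.single j 1) - D.hv (μ v) 1 (Pi.single j 1) := by
    intro v
    rw [dl_spec (hw v) D.w0 (Pi.single j 1), pr_basis'']
    ring
  have h4 : 2 * ∑ v, ((D.dl (μ v) D.w0 j : ℤ) : ℂ) = 2 * (-(m * (D.tr j : ℂ))) := by
    rw [Finset.sum_congr rfl fun v _ => h3 v, Finset.sum_sub_distrib, mul_sub, hhv, hhv, rt_w0_tr, D.rt_one,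
      pr_neg'', pr_basis'']
    ring
  have h5 := mul_left_cancel₀ (two_ne_zero : (2 : ℂ) ≠ 0) h4
  have h6 : (((∑ v, D.dl (μ v) D.w0) j : ℤ) : ℂ) = ((-(m • D.tr)) j : ℤ) := by
    rw [Finset.sum_apply]
    push_cast
    rw [h5]
    simp
  exact_mod_cast h6

end Pool.Agent.FLG.RS
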