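import Pool.Agent.FLG.K.Nc
import Pool.Agent.FLG.K.Dom
import Pool.Agent.FLG.K.Fund

/-!
# FLG-KDetF: Steinberg's determinant has unique extreme terms

The exponents of the terms of the expansion of the determinant are compared termwise; in case of equality the
lengths add up.
-/

set_option autoImplicit false

open scoped BigOperators Topology
open Filter
open Pool.Agent.DST.TE Pool.Agent.DSTJ.Spec

namespace Pool.Agent.FLG.RS

variable {r : ℕ} {D : RS r}

private theorem chr_sum {ι : Type*} (s : Finset ι) (f : ι → Fin r → ℤ) :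
    (chr (∑ i ∈ s, f i) : RH r) = ∏ i ∈ s, chr (f i) := by
  classical
  induction s using Finset.induction_on with
  | empty => rw [Finset.sum_empty, Finset.prod_empty, chr_zero]
  | insert a s ha ih => rw [Finset.sum_insert ha, Finset.prod_insert ha, chr_add, ih]

private theorem stein_nat {μ : D.W → Fin r → ℂ}
    (hμ : ∀ v i, D.ch (μ v) (al i) = if D.rt v⁻¹ (al i) ∈ D.Pos then 0 else 1) (v : D.W) :
    ∀ i, D.ch (μ v) (al i) = ((if D.rt v⁻¹ (al i) ∈ D.Pos then 0 else 1 : ℕ) : ℂ) := by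
  intro i
  rw [hμ v i]
  split_ifs
  · exact Nat.cast_zero.symm
  · exact Nat.cast_one.symm

private theorem perm_eq {μ : D.W → Fin r → ℂ}
    (hμ : ∀ v i, D.ch (μ v) (al i) = if D.rt v⁻¹ (al i) ∈ D.Pos then 0 else 1) {π : Equiv.Perm D.W}
    (h : ∀ v, D.dl (μ v) (π v * v⁻¹) = 0) (v : D.W) : π v = v := by
  have h1 : ∀ v, D.len (π v * v⁻¹) + D.len v ≤ D.len (π v) := by
    intro v
    have h2 := stab_len (stein_nat hμ v) (h v) (v := v) (fun i hi => by
      by_contra h3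
      rw [if_neg h3] at hi
      exact one_ne_zero hi)
    rwa [inv_mul_cancel_right] at h2
  have h2 := Finset.sum_le_sum fun v (_ : v ∈ Finset.univ) => h1 v
  rw [Finset.sum_add_distrib, Equiv.sum_comp π D.len] at h2
  have h3 : ∑ v, D.len (π v * v⁻¹) = 0 := by omega
  have h4 := Finset.sum_eq_zero_iff.1 h3 v (Finset.mem_univ v)
  exact mul_inv_eq_one.1 (eq_one_of_len h4)

theorem nc_det {μ lam : D.W → Fin r → ℂ}
    (hμ : ∀ v i, D.ch (μ v) (al i) = if D.rt v⁻¹ (al i) ∈ D.Pos then 0 else 1)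
    (hl : ∀ v, D.IsWt (lam v)) (hd : ∀ v p, D.dl (lam v) p = D.dl (μ v) (p * v⁻¹) - D.dl (μ v) v⁻¹) :
    Nc (∑ v, -D.dl (lam v) v) (∑ v, -D.dl (lam v) (D.w0 * v))
      (Matrix.of fun v p => D.LB (lam v) p : Matrix D.W D.W (RH r)).det := by
  have hdet : (Matrix.of fun v p => D.LB (lam v) p : Matrix D.W D.W (RH r)).det =
      ∑ π : Equiv.Perm D.W, (((Equiv.Perm.sign π : ℤˣ) : ℤ) : RH r) * chr (∑ v, -D.dl (lam v) (π v)) := by
    rw [← Matrix.det_transpose, Matrix.det_apply']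
    refine Finset.sum_congr rfl fun π _ => ?_
    rw [chr_sum]
    rfl
  have hlow : ∀ v p, D.dl (lam v) p = D.dl (lam v) v + D.dl (μ v) (p * v⁻¹) := by
    intro v p
    rw [hd v p, hd v v, mul_inv_cancel, dl_one (isWt_nat (stein_nat hμ v))]
    abel
  have hnon : ∀ v q, D.dl (μ v) q ≤ 0 := fun v q => dl_nonpos (stein_nat hμ v) q
  have hhigh : ∀ v p, D.dl (lam v) p = D.dl (lam v) (D.w0 * v) +
      D.rt D.w0 (D.dl (μ v) (D.w0 * p * v⁻¹)) := by
    intro v p
    have h1 : D.dl (lam v) (D.w0 * (D.w0 * p)) = D.dl (lam v) D.w0 +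
        D.rt D.w0 (D.dl (lam v) (D.w0 * p)) := dl_mul (hl v) _ _
    rw [← mul_assoc, w0_mul_self, one_mul, hlow v (D.w0 * p), rt_add] at h1
    rw [h1, dl_mul (hl v) D.w0 v]
    abel
  rw [hdet]
  refine nc_sum (ε := fun π => ((Equiv.Perm.sign π : ℤˣ) : ℤ)) (e := fun π : Equiv.Perm D.W => ∑ v, -D.dl (lam v) (π v))
    (1 : Equiv.Perm D.W) (Equiv.mulLeft D.w0) ?_ ?_ ?_ ?_ ?_ ?_ ?_
  · intro π
    refine ⟨Finset.sum_le_sum fun v _ => ?_, Finset.sum_le_sum fun v _ => ?_⟩
    · rw [hlow v (π v)]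
      exact neg_le_neg (add_le_of_nonpos_right (hnon v _))
    · rw [hhigh v (π v)]
      exact neg_le_neg (le_add_of_nonneg_right (rt_w0_nonneg (hnon v _)))
  · rfl
  · intro π h
    have h1 : ∀ v ∈ Finset.univ, -D.dl (lam v) v ≤ -D.dl (lam v) (π v) := fun v _ => by
      rw [hlow v (π v)]
      exact neg_le_neg (add_le_of_nonpos_right (hnon v _))
    have h2 := (Finset.sum_eq_sum_iff_of_le h1).1 h.symm
    refine Equiv.ext fun v => ?_
    refine perm_eq hμ (π := π) (fun v => ?_) v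
    have h3 := h2 v (Finset.mem_univ v)
    rw [hlow v (π v), neg_inj, left_eq_add] at h3
    exact h3
  · show ((Equiv.Perm.sign (1 : Equiv.Perm D.W) : ℤˣ) : ℤ) = 1
    rw [Equiv.Perm.sign_one, Units.val_one]
  · rfl
  · intro π h
    have h1 : ∀ v ∈ Finset.univ, -D.dl (lam v) (π v) ≤ -D.dl (lam v) (D.w0 * v) := fun v _ => by
      rw [hhigh v (π v)]
      exact neg_le_neg (le_add_of_nonneg_right (rt_w0_nonneg (hnon v _)))
    have h2 := (Finset.sum_eq_sum_iff_of_le h1).1 h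
    have h4 := perm_eq hμ (π := Equiv.mulLeft D.w0 * π) (fun v => ?_)
    · refine Equiv.ext fun v => ?_
      have h5 : D.w0 * π v = v := h4 v
      show π v = D.w0 * v
      rw [← h5, ← mul_assoc, w0_mul_self, one_mul, h5]
    · have h3 := h2 v (Finset.mem_univ v)
      rw [hhigh v (π v), neg_inj, add_eq_left] at h3
      exact D.rt_inj D.w0 (h3.trans (D.rt_zero D.w0).symm)
  · rcases Int.units_eq_one_or (Equiv.Perm.sign (Equiv.mulLeft D.w0)) with h | h
    · left
      show ((Equiv.Perm.sign (Equiv.mulLeft D.w0) : ℤˣ) : ℤ) = 1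
      rw [h, Units.val_one]
    · right
      show ((Equiv.Perm.sign (Equiv.mulLeft D.w0) : ℤˣ) : ℤ) = -1
      rw [h]
      rfl

end Pool.Agent.FLG.RS
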