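import Pool.Agent.FLG.K.RingB

/-!
# FLG-KDiv: divisibility by `1 - e^b` (first part)
-/

set_option autoImplicit false

open scoped BigOperators Topology
open Filter
open Pool.Agent.DST.TE Pool.Agent.DSTJ.Spec

namespace Pool.Agent.FLG.RS

variable {r : ℕ} {D : RS r}

private theorem chr_nsmul (b : Fin r → ℤ) (n : ℕ) : (chr (n • b) : RH r) = chr b ^ n := by
  induction n with
  | zero => rw [zero_smul, chr_zero, pow_zero]
  | succ n ih => rw [add_smul, one_smul, chr_add, ih, pow_succ]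

private theorem dvd_nsmul (b : Fin r → ℤ) (n : ℕ) : (1 - chr b : RH r) ∣ 1 - chr (n • b) := by
  rw [chr_nsmul]
  have h := sub_dvd_pow_sub_pow (1 : RH r) (chr b) n
  rwa [one_pow] at h

private theorem one_sub_neg (μ : Fin r → ℤ) : (1 - chr (-μ) : RH r) = -chr (-μ) * (1 - chr μ) := by
  have h := chr_mul_neg μ
  linear_combination -h

theorem dvd_zsmul (b : Fin r → ℤ) (n : ℤ) : (1 - chr b : RH r) ∣ 1 - chr (n • b) := by
  rcases Int.eq_nat_or_neg n with ⟨m, rfl | rfl⟩
  · rw [natCast_zsmul]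
    exact dvd_nsmul b m
  · rw [neg_smul, natCast_zsmul, one_sub_neg]
    exact (dvd_nsmul b m).mul_left _

theorem dvd_neg_iff {b : Fin r → ℤ} {F : RH r} : (1 - chr (-b)) ∣ F ↔ (1 - chr b) ∣ F := by
  constructor
  · intro h
    refine dvd_trans ?_ h
    have h1 := dvd_zsmul b (-1)
    rwa [neg_smul, one_smul] at h1
  · intro h
    refine dvd_trans ?_ h
    have h1 := dvd_zsmul (-b) (-1)
    rwa [neg_smul, one_smul, neg_neg] at h1

/-- If `chr` of two lattice points differ by a multiple of `b`. -/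
theorem dvd_chr_sub {b μ ν : Fin r → ℤ} {n : ℤ} (h : μ = ν + n • b) :
    (1 - chr b : RH r) ∣ chr μ - chr ν := by
  have h1 : (chr μ - chr ν : RH r) = -chr ν * (1 - chr (n • b)) := by
    rw [h, chr_add]
    ring
  rw [h1]
  exact (dvd_zsmul b n).mul_left _

theorem indep_pos {a b : Fin r → ℤ} (ha : a ∈ D.Pos) (hb : b ∈ D.Pos) (hne : a ≠ b) (n k : ℤ)
    (h : n • a = k • b) : n = 0 := by
  by_contra hn
  rcases D.reduced a (mem_of_pos ha) b (mem_of_pos hb) n k hn h with h1 | h1
  · exact hne h1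
  · rw [h1] at ha
    exact neg_not_pos hb ha

theorem indep_root {a b : Fin r → ℤ} (ha : a ∈ D.Φ) (hb : b ∈ D.Φ) (hne : a ≠ b) (hne' : a ≠ -b)
    (n k : ℤ) (h : n • a = k • b) : n = 0 := by
  by_contra hn
  rcases D.reduced a ha b hb n k hn h with h1 | h1
  · exact hne h1
  · exact hne' h1

theorem wK_sub_dvd {b : Fin r → ℤ} (hb : b ∈ D.Φ) (F : RH r) :
    (1 - chr b) ∣ F - D.wK (D.refl b) F := by
  induction F using RH_induction with
  | hchr μ =>
    rw [wK_chr, rt_refl hb]
    exact dvd_chr_sub (n := dotProduct (D.co b) μ) (by rw [sub_add_cancel])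
  | hadd f g hf hg =>
    rw [map_add, add_sub_add_comm]
    exact dvd_add hf hg
  | hneg f hf =>
    rw [map_neg, neg_sub_neg]
    exact dvd_sub_comm.1 hf
  | h0 =>
    rw [map_zero, sub_zero]
    exact dvd_zero _

end Pool.Agent.FLG.RS
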