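import Pool.Agent.FLG.K.Div

/-!
# FLG-KDl: integral weights and the vectors `p h - h`

Existence by induction on the length; uniqueness by evaluation at the basis vectors.
-/

set_option autoImplicit false

open scoped BigOperators Topology
open Filter
open Pool.Agent.DST.TE Pool.Agent.DSTJ.Spec

namespace Pool.Agent.FLG.RS

variable {r : ℕ} {D : RS r}

private theorem pr_sub_left (a b : Fin r → ℤ) (y : Fin r → ℂ) : pr (a - b) y = pr a y - pr b y := by
  simp only [pr, Pi.sub_apply, ← Finset.sum_sub_distrib]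
  exact Finset.sum_congr rfl fun i _ => by push_cast; ring

private theorem pr_zsmul_left (n : ℤ) (b : Fin r → ℤ) (y : Fin r → ℂ) : pr (n • b) y = n * pr b y := by
  simp only [pr, Pi.smul_apply, smul_eq_mul, Finset.mul_sum]
  exact Finset.sum_congr rfl fun i _ => by push_cast; ring

private theorem pr_neg_left (b : Fin r → ℤ) (y : Fin r → ℂ) : pr (-b) y = -pr b y := by
  simp only [pr, Pi.neg_apply, ← Finset.sum_neg_distrib]
  exact Finset.sum_congr rfl fun i _ => by push_cast; ring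

private theorem pr_basis (μ : Fin r → ℤ) (i : Fin r) : pr μ (Pi.single i 1) = μ i := by
  unfold pr
  rw [Finset.sum_eq_single i]
  · rw [Pi.single_eq_same, mul_one]
  · intro j _ hj
    rw [Pi.single_eq_of_ne hj, mul_zero]
  · intro h
    exact absurd (Finset.mem_univ i) h

theorem ch_int {h : Fin r → ℂ} (hh : D.IsWt h) {a : Fin r → ℤ} (ha : a ∈ D.Φ) :
    ∃ n : ℤ, D.ch h a = n := by
  choose n hn using hh
  refine ⟨∑ i, D.cof a i * n i, ?_⟩
  push_cast
  have h1 : ∀ j, (D.co a j : ℂ) = ∑ i, (D.cof a i : ℂ) * (D.co (al i) j : ℂ) := by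
    intro j
    have h2 := congrFun (D.co_cof a ha) j
    rw [Finset.sum_apply] at h2
    rw [h2]
    push_cast
    refine Finset.sum_congr rfl fun i _ => ?_
    rw [Pi.smul_apply, smul_eq_mul]
    push_cast
    rfl
  unfold ch
  calc ∑ j, h j * (D.co a j : ℂ) = ∑ j, ∑ i, (D.cof a i : ℂ) * (h j * (D.co (al i) j : ℂ)) := by
        refine Finset.sum_congr rfl fun j _ => ?_
        rw [h1 j, Finset.mul_sum]
        exact Finset.sum_congr rfl fun i _ => by ring
    _ = ∑ i, (D.cof a i : ℂ) * n i := by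
        rw [Finset.sum_comm]
        refine Finset.sum_congr rfl fun i _ => ?_
        rw [← Finset.mul_sum, ← hn i]
        rfl

private theorem exists_dl {h : Fin r → ℂ} (hh : D.IsWt h) (n : ℕ) : ∀ p : D.W, D.len p = n →
    ∃ δ : Fin r → ℤ, ∀ y, D.hv h p y = D.hv h 1 y + pr δ y := by
  induction n using Nat.strong_induction_on with
  | _ n ih =>
    intro p hp
    by_cases h1 : p = 1
    · refine ⟨0, fun y => ?_⟩
      rw [h1, pr_zero_left, add_zero]
    · obtain ⟨i, hi⟩ := exists_descent h1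
      obtain ⟨δ, hδ⟩ := ih (D.len (D.s i * p)) (by omega) (D.s i * p) rfl
      have hal : al i ∈ D.Φ := D.simple i
      obtain ⟨m, hm⟩ := ch_int hh (D.rt_mem.2 hal : D.rt (D.s i * p)⁻¹ (al i) ∈ D.Φ)
      refine ⟨δ - m • al i, fun y => ?_⟩
      have h2 := D.hv_refl h (D.s i * p) hal y
      have h3 : D.refl (al i) * (D.s i * p) = p := by
        show D.refl (al i) * (D.refl (al i) * p) = p
        rw [← mul_assoc, refl_mul_self hal, one_mul]
      rw [h3] at h2
      rw [h2, hδ y, hm, pr_sub_left, pr_zsmul_left]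
      ring

theorem dl_spec {h : Fin r → ℂ} (hh : D.IsWt h) (p : D.W) (y : Fin r → ℂ) :
    D.hv h p y = D.hv h 1 y + pr (D.dl h p) y := by
  have H := exists_dl hh _ p rfl
  unfold dl
  rw [dif_pos H]
  exact H.choose_spec y

theorem dl_unique {h : Fin r → ℂ} (hh : D.IsWt h) {p : D.W} {δ : Fin r → ℤ}
    (hδ : ∀ y, D.hv h p y = D.hv h 1 y + pr δ y) : D.dl h p = δ := by
  funext i
  have h1 := hδ (Pi.single i 1)
  rw [dl_spec hh, pr_basis, pr_basis] at h1
  exact_mod_cast add_left_cancel h1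

theorem dl_one {h : Fin r → ℂ} (hh : D.IsWt h) : D.dl h 1 = 0 := by
  refine dl_unique hh fun y => ?_
  rw [pr_zero_left, add_zero]

theorem dl_refl {h : Fin r → ℂ} (hh : D.IsWt h) (p : D.W) {b : Fin r → ℤ} (hb : b ∈ D.Φ) :
    ∃ n : ℤ, D.ch h (D.rt p⁻¹ b) = n ∧ D.dl h (D.refl b * p) = D.dl h p - n • b := by
  obtain ⟨n, hn⟩ := ch_int hh (D.rt_mem.2 hb : D.rt p⁻¹ b ∈ D.Φ)
  refine ⟨n, hn, dl_unique hh fun y => ?_⟩
  rw [D.hv_refl h p hb y, hn, dl_spec hh p y, pr_sub_left, pr_zsmul_left]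
  ring

theorem dl_mul {h : Fin r → ℂ} (hh : D.IsWt h) (w p : D.W) :
    D.dl h (w * p) = D.dl h w + D.rt w (D.dl h p) := by
  refine dl_unique hh fun y => ?_
  have h1 : D.hv h 1 (D.yt w⁻¹ y) = D.hv h w y := by
    rw [← D.hv_mul, mul_one]
  rw [D.hv_mul, dl_spec hh p, h1, dl_spec hh w y, pr_add_left, D.pr_rt]
  ring

theorem isWt_add {h h' : Fin r → ℂ} (hh : D.IsWt h) (hh' : D.IsWt h') : D.IsWt (h + h') := by
  intro i
  obtain ⟨m, hm⟩ := hh i
  obtain ⟨n, hn⟩ := hh' i
  refine ⟨m + n, ?_⟩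
  rw [Int.cast_add, ← hm, ← hn]
  unfold ch
  rw [← Finset.sum_add_distrib]
  exact Finset.sum_congr rfl fun j _ => by rw [Pi.add_apply, add_mul]

theorem isWt_neg {h : Fin r → ℂ} (hh : D.IsWt h) : D.IsWt (-h) := by
  intro i
  obtain ⟨m, hm⟩ := hh i
  refine ⟨-m, ?_⟩
  rw [Int.cast_neg, ← hm]
  unfold ch
  rw [← Finset.sum_neg_distrib]
  exact Finset.sum_congr rfl fun j _ => by rw [Pi.neg_apply, neg_mul]

private theorem hv_add (h h' : Fin r → ℂ) (u : D.W) (y : Fin r → ℂ) : D.hv (h + h') u y = D.hv h u y + D.hv h' u y := by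
  unfold hv
  rw [← Finset.sum_add_distrib]
  exact Finset.sum_congr rfl fun j _ => by rw [Pi.add_apply, add_mul]

private theorem hv_neg (h : Fin r → ℂ) (u : D.W) (y : Fin r → ℂ) : D.hv (-h) u y = -D.hv h u y := by
  unfold hv
  rw [← Finset.sum_neg_distrib]
  exact Finset.sum_congr rfl fun j _ => by rw [Pi.neg_apply, neg_mul]

theorem dl_add {h h' : Fin r → ℂ} (hh : D.IsWt h) (hh' : D.IsWt h') (p : D.W) :
    D.dl (h + h') p = D.dl h p + D.dl h' p := by
  refine dl_unique (isWt_add hh hh') fun y => ?_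
  rw [hv_add, hv_add, dl_spec hh p y, dl_spec hh' p y, pr_add_left]
  ring

theorem dl_neg {h : Fin r → ℂ} (hh : D.IsWt h) (p : D.W) : D.dl (-h) p = -D.dl h p := by
  refine dl_unique (isWt_neg hh) fun y => ?_
  rw [hv_neg, hv_neg, dl_spec hh p y, pr_neg_left]
  ring

end Pool.Agent.FLG.RS
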