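import Pool.Agent.FLG.K.Defs

/-!
# FLG-KDv: division of a holomorphic function of several variables by a linear form (Cauchy integrals along the lines `y + ζ h`)
-/

set_option autoImplicit false

open scoped BigOperators Topology
open Filter
open Pool.Agent.DST.TE Pool.Agent.DSTJ.Spec

namespace Pool.Agent.FLG.RS

variable {r : ℕ}

/-- circle integrals of holomorphic functions with parameters -/
private theorem kd_circ {f : (Fin r → ℂ) × ℂ → ℂ} {W : Set ((Fin r → ℂ) × ℂ)}
    (hW : IsOpen W) (hf : DifferentiableOn ℂ f W) {q0 : Fin r → ℂ} {ε : ℝ} (hε : 0 < ε)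
    (hs : ∀ s : ℂ, ‖s‖ = ε → (q0, s) ∈ W) :
    DifferentiableAt ℂ
      (fun q : Fin r → ℂ => ∫ θ in (0 : ℝ)..2 * Real.pi, f (q, circleMap 0 ε θ)) q0 := by
  set K : Set ((Fin r → ℂ) × ℂ) := (fun s : ℂ => (q0, s)) '' Metric.sphere (0 : ℂ) ε with hK
  have hKc : IsCompact K := (isCompact_sphere (0 : ℂ) ε).image (by fun_prop)
  have hKW : K ⊆ W := by
    rintro _ ⟨s, hs1, rfl⟩
    exact hs s (mem_sphere_zero_iff_norm.1 hs1)
  obtain ⟨δ, hδ, hδW⟩ := hKc.exists_cthickening_subset_open hW hKW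
  obtain ⟨C0, hC0⟩ := hKc.cthickening (r := δ) |>.exists_bound_of_continuousOn
    (hf.continuousOn.mono hδW)
  set C : ℝ := max C0 0 with hC
  have hC00 : 0 ≤ C := le_max_right _ _
  have hball : ∀ q ∈ Metric.ball q0 (δ / 2), ∀ θ : ℝ,
      Metric.ball ((q, circleMap 0 ε θ) : (Fin r → ℂ) × ℂ) (δ / 2) ⊆
      Metric.cthickening δ K := by
    intro q hq θ z hz
    have hmem : ((q0, circleMap 0 ε θ) : (Fin r → ℂ) × ℂ) ∈ K := by
      refine ⟨circleMap 0 ε θ, ?_, rfl⟩
      rw [mem_sphere_zero_iff_norm, norm_circleMap_zero, abs_of_pos hε]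
    apply Metric.mem_cthickening_of_dist_le z (q0, circleMap 0 ε θ) δ K hmem
    have h1 : dist z (q, circleMap 0 ε θ) < δ / 2 := Metric.mem_ball.1 hz
    have h2 : dist ((q, circleMap 0 ε θ) : (Fin r → ℂ) × ℂ) (q0, circleMap 0 ε θ) < δ / 2 := by
      rw [Prod.dist_eq]
      simp only [dist_self]
      rw [max_eq_left dist_nonneg]
      exact Metric.mem_ball.1 hq
    linarith [dist_triangle z (q, circleMap 0 ε θ) (q0, circleMap 0 ε θ)]
  have hfd : ∀ q ∈ Metric.ball q0 (δ / 2), ∀ θ : ℝ,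
      ‖fderiv ℂ f (q, circleMap 0 ε θ)‖ ≤ C / (δ / 2) := by
    intro q hq θ
    refine Pool.Agent.WW.T3o.norm_fderiv_le (by positivity) hC00
      (hf.mono ((hball q hq θ).trans hδW)) fun z hz => ?_
    exact (hC0 z (hball q hq θ hz)).trans (le_max_left _ _)
  have hmemW : ∀ q ∈ Metric.ball q0 (δ / 2), ∀ θ : ℝ,
      ((q, circleMap 0 ε θ) : (Fin r → ℂ) × ℂ) ∈ W :=
    fun q hq θ => hδW (hball q hq θ (Metric.mem_ball_self (by positivity)))
  have hcm : Continuous (circleMap (0 : ℂ) ε) := continuous_circleMap 0 ε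
  have hcF : ∀ q ∈ Metric.ball q0 (δ / 2), Continuous fun θ : ℝ => f (q, circleMap 0 ε θ) := by
    intro q hq
    refine hf.continuousOn.comp_continuous (by fun_prop) fun θ => ?_
    exact hmemW q hq θ
  have hmain : HasFDerivAt
      (fun q : Fin r → ℂ => ∫ θ in (0 : ℝ)..2 * Real.pi, f (q, circleMap 0 ε θ))
      (∫ θ in (0 : ℝ)..2 * Real.pi, (fderiv ℂ f (q0, circleMap 0 ε θ)).comp
        (ContinuousLinearMap.inl ℂ (Fin r → ℂ) ℂ)) q0 := by
    apply intervalIntegral.hasFDerivAt_integral_of_dominated_of_fderiv_le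
      (F := fun q θ => f (q, circleMap 0 ε θ))
      (F' := fun q θ => (fderiv ℂ f (q, circleMap 0 ε θ)).comp
        (ContinuousLinearMap.inl ℂ (Fin r → ℂ) ℂ))
      (bound := fun _ => C / (δ / 2))
      (Metric.ball_mem_nhds q0 (by positivity : 0 < δ / 2))
    · filter_upwards [Metric.ball_mem_nhds q0 (by positivity : 0 < δ / 2)] with q hq
      exact (hcF q hq).aestronglyMeasurable
    · exact (hcF q0 (Metric.mem_ball_self (by positivity))).intervalIntegrable _ _
    · have hm : Measurable fun θ : ℝ => fderiv ℂ f (q0, circleMap 0 ε θ) :=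
        (measurable_fderiv ℂ f).comp (Continuous.measurable (by fun_prop))
      have hL : Continuous fun A : ((Fin r → ℂ) × ℂ) →L[ℂ] ℂ =>
          A.comp (ContinuousLinearMap.inl ℂ (Fin r → ℂ) ℂ) :=
        ((ContinuousLinearMap.compL ℂ (Fin r → ℂ) ((Fin r → ℂ) × ℂ) ℂ).flip
          (ContinuousLinearMap.inl ℂ (Fin r → ℂ) ℂ)).continuous
      exact hL.comp_aestronglyMeasurable hm.aestronglyMeasurable
    · refine Eventually.of_forall fun θ _ q hq => ?_
      calc ‖(fderiv ℂ f (q, circleMap 0 ε θ)).comp (ContinuousLinearMap.inl ℂ (Fin r → ℂ) ℂ)‖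
          ≤ ‖fderiv ℂ f (q, circleMap 0 ε θ)‖ * ‖ContinuousLinearMap.inl ℂ (Fin r → ℂ) ℂ‖ :=
            ContinuousLinearMap.opNorm_comp_le _ _
        _ ≤ C / (δ / 2) * 1 := by
            apply mul_le_mul (hfd q hq θ) (ContinuousLinearMap.norm_inl_le_one ℂ (Fin r → ℂ) ℂ)
              (norm_nonneg _) (by positivity)
        _ = C / (δ / 2) := mul_one _
    · exact continuous_const.intervalIntegrable _ _
    · refine Eventually.of_forall fun θ _ q hq => ?_
      have h1 : HasFDerivAt f (fderiv ℂ f (q, circleMap 0 ε θ)) (q, circleMap 0 ε θ) :=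
        ((hf _ (hmemW q hq θ)).differentiableAt (hW.mem_nhds (hmemW q hq θ))).hasFDerivAt
      have h3 : HasFDerivAt (fun q : Fin r → ℂ => ((q, circleMap 0 ε θ) : (Fin r → ℂ) × ℂ))
          (ContinuousLinearMap.inl ℂ (Fin r → ℂ) ℂ) q := hasFDerivAt_prodMk_left q _
      exact h1.comp q h3
  exact hmain.differentiableAt

private theorem kd_pr_add (b : Fin r → ℤ) (y z : Fin r → ℂ) : pr b (y + z) = pr b y + pr b z := by
  unfold pr
  rw [← Finset.sum_add_distrib]
  refine Finset.sum_congr rfl fun i _ => ?_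
  rw [Pi.add_apply, mul_add]

private theorem kd_pr_smul (b : Fin r → ℤ) (c : ℂ) (y : Fin r → ℂ) : pr b (c • y) = c * pr b y := by
  unfold pr
  rw [Finset.mul_sum]
  refine Finset.sum_congr rfl fun i _ => ?_
  rw [Pi.smul_apply, smul_eq_mul]
  ring

private theorem kd_pr_sub (b : Fin r → ℤ) (y z : Fin r → ℂ) : pr b (y - z) = pr b y - pr b z := by
  have h := kd_pr_add b (y - z) z
  rw [sub_add_cancel] at h
  rw [h]
  ring

private theorem kd_pr_diff (b : Fin r → ℤ) : Differentiable ℂ (pr b) := by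
  unfold pr
  fun_prop

theorem hvec_spec {b : Fin r → ℤ} (hb : b ≠ 0) : pr b (hvec b) = 1 := by
  have H : ∃ h : Fin r → ℂ, pr b h = 1 := by
    obtain ⟨i, hi⟩ := Function.ne_iff.1 hb
    have hi' : (b i : ℂ) ≠ 0 := by
      intro h
      exact hi (by exact_mod_cast h)
    refine ⟨Pi.single i ((b i : ℂ)⁻¹), ?_⟩
    unfold pr
    rw [Finset.sum_eq_single i]
    · rw [Pi.single_eq_same, mul_inv_cancel₀ hi']
    · intro j _ hj
      rw [Pi.single_eq_of_ne hj, mul_zero]
    · intro h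
      exact absurd (Finset.mem_univ i) h
  have h1 : hvec b = H.choose := dif_pos H
  rw [h1]
  exact H.choose_spec

theorem dv_mul {b : Fin r → ℤ} {h : Fin r → ℂ} {N : (Fin r → ℂ) → ℂ} {y : Fin r → ℂ}
    (hy : pr b y ≠ 0) : dv b h N y = N y / pr b y := if_neg hy

/-- Cauchy's formula on a line -/
private theorem kd_formula {b : Fin r → ℤ} {h : Fin r → ℂ} {N : (Fin r → ℂ) → ℂ}
    {y : Fin r → ℂ} {ε : ℝ} (hε : 0 < ε) (ht : ‖pr b y‖ < ε)
    (hN : ∀ ζ : ℂ, ‖ζ‖ < 2 * ε → DifferentiableAt ℂ N (y - pr b y • h + ζ • h))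
    (h0 : N (y - pr b y • h) = 0) :
    dv b h N y = (2 * Real.pi : ℂ)⁻¹ * ∫ θ in (0 : ℝ)..2 * Real.pi,
      N (y - pr b y • h + circleMap 0 ε θ • h) / (circleMap 0 ε θ - pr b y) := by
  set t : ℂ := pr b y with htd
  set z : Fin r → ℂ := y - t • h with hz
  set g : ℂ → ℂ := fun ζ => N (z + ζ • h) with hg
  have hgd : ∀ ζ : ℂ, ‖ζ‖ < 2 * ε → DifferentiableAt ℂ g ζ := fun ζ hζ =>
    DifferentiableAt.comp ζ (g := N) (f := fun ζ : ℂ => z + ζ • h) (hN ζ hζ) (by fun_prop)
  have hg0 : g 0 = 0 := by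
    show N (z + (0 : ℂ) • h) = 0
    rw [zero_smul, add_zero]
    exact h0
  have hgt : g t = N y := by
    show N (y - t • h + t • h) = N y
    rw [sub_add_cancel]
  have hD : DifferentiableOn ℂ (dslope g 0) (Metric.ball 0 (2 * ε)) := by
    rw [Complex.differentiableOn_dslope (Metric.ball_mem_nhds _ (by positivity))]
    intro ζ hζ
    exact (hgd ζ (mem_ball_zero_iff.1 hζ)).differentiableWithinAt
  have hD' : DifferentiableOn ℂ (dslope g 0) (Metric.closedBall 0 ε) :=
    hD.mono (Metric.closedBall_subset_ball (by linarith))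
  have hcau := hD'.circleIntegral_sub_inv_smul (mem_ball_zero_iff.2 ht)
  have hdv : dv b h N y = dslope g 0 t := by
    by_cases h1 : t = 0
    · have e1 : dv b h N y = fderiv ℂ N y h := if_pos h1
      rw [e1, h1, dslope_same]
      have hzy : z = y := by rw [hz, h1, zero_smul, sub_zero]
      have h2 : HasFDerivAt N (fderiv ℂ N y) (y + (0 : ℂ) • h) := by
        have h3 := (hN 0 (by rw [norm_zero]; positivity)).hasFDerivAt
        rw [hzy, zero_smul, add_zero] at h3
        rw [zero_smul, add_zero]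
        exact h3
      have hline : HasDerivAt (fun s : ℂ => y + s • h) h 0 := by
        have := ((hasDerivAt_id (0 : ℂ)).smul_const h).const_add y
        simpa using this
      have h4 := h2.comp_hasDerivAt (0 : ℂ) hline
      have h5 : g = N ∘ fun s : ℂ => y + s • h := by
        funext s
        show N (z + s • h) = N (y + s • h)
        rw [hzy]
      rw [h5]
      exact h4.deriv.symm
    · rw [dslope_of_ne _ h1, slope_def_field, hg0, hgt, sub_zero, sub_zero]
      exact dv_mul h1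
  have hint : (∮ w in C(0, ε), (w - t)⁻¹ • dslope g 0 w) =
      Complex.I * ∫ θ in (0 : ℝ)..2 * Real.pi, g (circleMap 0 ε θ) / (circleMap 0 ε θ - t) := by
    rw [circleIntegral, ← intervalIntegral.integral_const_mul]
    refine intervalIntegral.integral_congr fun θ _ => ?_
    have hne : circleMap 0 ε θ ≠ 0 := circleMap_ne_center hε.ne'
    show deriv (circleMap 0 ε) θ • ((circleMap 0 ε θ - t)⁻¹ • dslope g 0 (circleMap 0 ε θ)) = _
    rw [deriv_circleMap, dslope_of_ne _ hne, slope_def_field, hg0, sub_zero, sub_zero, smul_eq_mul,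
      smul_eq_mul]
    field_simp
  rw [hint, smul_eq_mul] at hcau
  rw [hdv]
  have hpi : (2 * Real.pi : ℂ) ≠ 0 := by
    simp [Real.pi_ne_zero]
  have h6 : (∫ θ in (0 : ℝ)..2 * Real.pi, g (circleMap 0 ε θ) / (circleMap 0 ε θ - t)) =
      2 * Real.pi * dslope g 0 t := by
    have h7 : Complex.I * (∫ θ in (0 : ℝ)..2 * Real.pi, g (circleMap 0 ε θ) / (circleMap 0 ε θ - t)) =
        Complex.I * (2 * Real.pi * dslope g 0 t) := by
      rw [hcau]
      ring
    exact mul_left_cancel₀ Complex.I_ne_zero h7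
  show dslope g 0 t = (2 * Real.pi : ℂ)⁻¹ *
    ∫ θ in (0 : ℝ)..2 * Real.pi, g (circleMap 0 ε θ) / (circleMap 0 ε θ - t)
  rw [h6, inv_mul_cancel_left₀ hpi]

theorem dv_diff {b : Fin r → ℤ} {h : Fin r → ℂ} (hb : pr b h = 1) {N : (Fin r → ℂ) → ℂ}
    {y₀ : Fin r → ℂ} (hN : ∀ᶠ y in 𝓝 y₀, DifferentiableAt ℂ N y)
    (hw : pr b y₀ = 0 → ∀ᶠ y in 𝓝 y₀, pr b y = 0 → N y = 0) :
    ∀ᶠ y in 𝓝 y₀, DifferentiableAt ℂ (dv b h N) y ∧ pr b y * dv b h N y = N y := by
  have hprd := kd_pr_diff (r := r) b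
  by_cases h0 : pr b y₀ = 0
  swap
  · have ho : IsOpen {y : Fin r → ℂ | pr b y ≠ 0} := isOpen_ne_fun hprd.continuous continuous_const
    filter_upwards [hN, ho.mem_nhds h0] with y hy1 hy2
    refine ⟨?_, ?_⟩
    · have h1 : DifferentiableAt ℂ (fun y => N y / pr b y) y := by
        simp only [div_eq_mul_inv]
        exact hy1.mul ((hprd y).inv hy2)
      refine h1.congr_of_eventuallyEq ?_
      filter_upwards [ho.mem_nhds hy2] with z hz
      exact dv_mul hz
    · rw [dv_mul hy2]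
      exact mul_div_cancel₀ _ hy2
  obtain ⟨ρ, hρ, hball⟩ := Metric.eventually_nhds_iff_ball.1 (hN.and (hw h0))
  set ε : ℝ := ρ / (4 * (‖h‖ + 1)) with hεd
  have hh : 0 ≤ ‖h‖ := norm_nonneg h
  have hε : 0 < ε := by positivity
  have hεh : 2 * ε * ‖h‖ < ρ / 2 := by
    have h1 : ε * (4 * (‖h‖ + 1)) = ρ := by
      rw [hεd]
      exact div_mul_cancel₀ _ (by positivity)
    nlinarith
  have hπc : Continuous fun y : Fin r → ℂ => y - pr b y • h := by
    have := hprd.continuous
    fun_prop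
  set V : Set (Fin r → ℂ) := {y | y - pr b y • h ∈ Metric.ball y₀ (ρ / 2) ∧ pr b y ∈ Metric.ball (0 : ℂ) ε} with hV
  have hVo : IsOpen V := (Metric.isOpen_ball.preimage hπc).inter (Metric.isOpen_ball.preimage hprd.continuous)
  have hV0 : y₀ ∈ V := by
    refine ⟨?_, ?_⟩
    · show y₀ - pr b y₀ • h ∈ Metric.ball y₀ (ρ / 2)
      rw [h0, zero_smul, sub_zero]
      exact Metric.mem_ball_self (by positivity)
    · show pr b y₀ ∈ Metric.ball (0 : ℂ) ε
      rw [h0]
      exact Metric.mem_ball_self hε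
  have hmem : ∀ y ∈ V, ∀ ζ : ℂ, ‖ζ‖ < 2 * ε → y - pr b y • h + ζ • h ∈ Metric.ball y₀ ρ := by
    intro y hy ζ hζ
    have h1 : dist (y - pr b y • h) y₀ < ρ / 2 := hy.1
    rw [dist_eq_norm] at h1
    rw [Metric.mem_ball, dist_eq_norm]
    have h2 : ‖ζ • h‖ < ρ / 2 := by
      rw [norm_smul]
      exact (mul_le_mul_of_nonneg_right hζ.le hh).trans_lt hεh
    have h3 : y - pr b y • h + ζ • h - y₀ = (y - pr b y • h - y₀) + ζ • h := by
      abel
    rw [h3]
    exact (norm_add_le _ _).trans_lt (by linarith)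
  have hpr0 : ∀ y : Fin r → ℂ, pr b (y - pr b y • h) = 0 := by
    intro y
    rw [kd_pr_sub, kd_pr_smul, hb, mul_one, sub_self]
  have hform : ∀ y ∈ V, dv b h N y = (2 * Real.pi : ℂ)⁻¹ * ∫ θ in (0 : ℝ)..2 * Real.pi,
      N (y - pr b y • h + circleMap 0 ε θ • h) / (circleMap 0 ε θ - pr b y) := by
    intro y hy
    refine kd_formula hε (mem_ball_zero_iff.1 hy.2) (fun ζ hζ => (hball _ (hmem y hy ζ hζ)).1) ?_
    have h1 := hmem y hy 0 (by rw [norm_zero]; positivity)
    rw [zero_smul, add_zero] at h1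
    exact (hball _ h1).2 (hpr0 y)
  filter_upwards [hVo.mem_nhds hV0] with y hy
  refine ⟨?_, ?_⟩
  · have hc := kd_circ (f := fun x : (Fin r → ℂ) × ℂ => N (x.1 - pr b x.1 • h + x.2 • h) / (x.2 - pr b x.1))
      (W := {x | x.1 - pr b x.1 • h + x.2 • h ∈ Metric.ball y₀ ρ ∧ x.2 - pr b x.1 ≠ 0}) ?_ ?_ (q0 := y) hε ?_
    · refine (hc.const_mul (2 * Real.pi : ℂ)⁻¹).congr_of_eventuallyEq ?_
      filter_upwards [hVo.mem_nhds hy] with z hz
      exact hform z hz
    · have hc1 : Continuous fun x : (Fin r → ℂ) × ℂ => x.1 - pr b x.1 • h + x.2 • h := by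
        have := hprd.continuous
        fun_prop
      have hc2 : Continuous fun x : (Fin r → ℂ) × ℂ => x.2 - pr b x.1 := by
        have := hprd.continuous
        fun_prop
      exact (Metric.isOpen_ball.preimage hc1).inter (isOpen_ne_fun hc2 continuous_const)
    · rintro x ⟨hx1, hx2⟩
      have hp1 : DifferentiableAt ℂ (fun x : (Fin r → ℂ) × ℂ => pr b x.1) x :=
        DifferentiableAt.comp x (g := pr b) (f := Prod.fst) (hprd _) differentiableAt_fst
      have h1 : DifferentiableAt ℂ (fun x : (Fin r → ℂ) × ℂ => x.1 - pr b x.1 • h + x.2 • h) x := by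
        fun_prop
      have h2 : DifferentiableAt ℂ (fun x : (Fin r → ℂ) × ℂ => N (x.1 - pr b x.1 • h + x.2 • h)) x :=
        DifferentiableAt.comp x (g := N)
          (f := fun x : (Fin r → ℂ) × ℂ => x.1 - pr b x.1 • h + x.2 • h) (hball _ hx1).1 h1
      have h3 : DifferentiableAt ℂ (fun x : (Fin r → ℂ) × ℂ => x.2 - pr b x.1) x :=
        differentiableAt_snd.sub hp1
      have h4 : DifferentiableAt ℂ (fun x : (Fin r → ℂ) × ℂ =>
          N (x.1 - pr b x.1 • h + x.2 • h) / (x.2 - pr b x.1)) x := by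
        simp only [div_eq_mul_inv]
        exact h2.mul (h3.inv hx2)
      exact h4.differentiableWithinAt
    · intro s hs
      have h1 : ‖pr b y‖ < ε := mem_ball_zero_iff.1 hy.2
      refine ⟨hmem y hy s (by rw [hs]; linarith), ?_⟩
      show s - pr b y ≠ 0
      intro h2
      rw [sub_eq_zero] at h2
      rw [← h2, hs] at h1
      exact lt_irrefl _ h1
  · by_cases h1 : pr b y = 0
    · rw [h1, zero_mul]
      have h2 := hmem y hy 0 (by rw [norm_zero]; positivity)
      rw [zero_smul, add_zero, h1, zero_smul, sub_zero] at h2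
      exact ((hball y h2).2 h1).symm
    · rw [dv_mul h1]
      exact mul_div_cancel₀ _ h1

end Pool.Agent.FLG.RS
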