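import Pool.Agent.FLG.K.Defs

/-!
# FLG-KLow: a lifting property of the Bruhat order
-/

set_option autoImplicit false

open scoped BigOperators Topology
open Filter
open Pool.Agent.DST.TE Pool.Agent.DSTJ.Spec

namespace Pool.Agent.FLG.RS

variable {r : ℕ} {D : RS r}

private theorem bru_lower_aux {w : D.W} {i : Fin r} (hw : D.rt w⁻¹ (al i) ∈ D.Pos) {x : D.W}
    (h : D.Bru (D.s i * w) x) : D.rt x⁻¹ (al i) ∉ D.Pos → D.Bru w (D.s i * x) := by
  have hw1 : D.Bru w (D.s i * w) := bru_refl_mul (D.al_pos i) hw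
  induction h with
  | refl =>
    intro _
    rw [← mul_assoc, s_mul_self, one_mul]
    exact Bru.refl w
  | tail h1 h2 ih =>
    rename_i x' x
    intro _
    obtain ⟨a, ha, rfl, h3⟩ := h2
    have h4 : D.rt x' a ∈ D.Pos := (bru_edge ha).1 h3
    have h1' : D.Bru (D.s i * w) x' := h1
    by_cases h5 : D.rt x' a = al i
    · have h6 : x' * D.refl a = D.s i * x' := by
        have h7 : D.s i = x' * D.refl a * x'⁻¹ := by
          unfold s
          rw [← h5]
          exact refl_rt x' (mem_of_pos ha)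
        rw [h7, inv_mul_cancel_right]
      rw [h6, ← mul_assoc, s_mul_self, one_mul]
      exact hw1.trans h1'
    · have h6 : D.rt (D.s i * x') a ∈ D.Pos := by
        rw [D.rt_mul]
        exact (s_perm i h4 h5).1
      have h7 := bru_mul_refl ha h6
      rw [mul_assoc] at h7
      by_cases h8 : D.rt x'⁻¹ (al i) ∈ D.Pos
      · have h9 : D.Bru x' (D.s i * x') := bru_refl_mul (D.al_pos i) h8
        exact ((hw1.trans h1').trans h9).trans h7
      · exact (ih h8).trans h7

theorem bru_lower {w q : D.W} {i : Fin r} (hw : D.len w < D.len (D.s i * w))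
    (hq : D.len q < D.len (D.s i * q)) (h : D.Bru (D.s i * w) (D.s i * q)) : D.Bru w q := by
  have h1 : D.rt w⁻¹ (al i) ∈ D.Pos := by
    by_contra h2
    have h3 := len_s_mul_of_neg i w h2
    omega
  have h2 : D.s i * (D.s i * q) = q := by
    rw [← mul_assoc, s_mul_self, one_mul]
  have h3 : D.rt (D.s i * q)⁻¹ (al i) ∉ D.Pos := by
    intro h4
    have h5 := len_s_mul_of_pos i (D.s i * q) h4
    rw [h2] at h5
    omega
  have h4 := bru_lower_aux h1 h h3
  rwa [h2] at h4

end Pool.Agent.FLG.RS
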