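import Pool.Agent.FLG.K.Cols
import Pool.Agent.FLG.K.DetF

/-!
# FLG-K-Stein: the class of a fixed point is a combination of line bundles (Pittie, Steinberg)
-/

set_option autoImplicit false

open scoped BigOperators Topology
open Filter
open Pool.Agent.DST.TE Pool.Agent.DSTJ.Spec

namespace Pool.Agent.FLG.RS

variable {r : ℕ} {D : RS r}

private theorem lin_of_W {f : D.W → RH r} {lam : D.W → Fin r → ℂ} (hl : ∀ v, D.IsWt (lam v))
    (c : D.W → RH r) (h : ∀ p, f p = ∑ v, c v * D.LB (lam v) p) : D.Lin f := by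
  refine ⟨Fintype.card D.W, fun k => lam ((Fintype.equivFin D.W).symm k),
    fun k => c ((Fintype.equivFin D.W).symm k), fun k => hl _, fun p => ?_⟩
  rw [h p]
  exact (Equiv.sum_comp (Fintype.equivFin D.W).symm fun v => c v * D.LB (lam v) p).symm

private theorem stein_triv (hP : D.Pos = ∅) : D.Lin D.Bpt := by
  have h1 : ∀ p : D.W, p = 1 := by
    intro p
    apply eq_one_of_len
    have h := len_le_dm p
    unfold dm at h
    rw [hP, Finset.card_empty] at h
    omega
  have h0 : D.IsWt (0 : Fin r → ℂ) := by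
    intro i
    refine ⟨0, ?_⟩
    unfold ch
    simp
  refine ⟨1, fun _ => 0, fun _ => 1, fun _ => h0, fun p => ?_⟩
  rw [h1 p]
  unfold Bpt LB
  rw [if_pos (h1 D.w0).symm, hP, Finset.prod_empty, Fin.sum_univ_one, dl_one h0, neg_zero, chr_zero,
    one_mul]

theorem steinberg (D : RS r) : D.Lin D.Bpt := by
  by_cases hP : D.Pos = ∅
  · exact stein_triv hP
  obtain ⟨b, hb⟩ := Finset.nonempty_iff_ne_empty.2 hP
  have hc := hs_card (mem_of_pos hb)
  obtain ⟨m, hm⟩ : ∃ m, (D.hs b).card = m + 1 := by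
    have h1 : 0 < Fintype.card D.W := Fintype.card_pos
    exact ⟨(D.hs b).card - 1, by omega⟩
  rw [hm] at hc
  obtain ⟨μ, lam, hμ, hl, hd⟩ := exists_stein D
  obtain ⟨F, hF⟩ : ∃ F : Matrix D.W D.W (RH r), F = Matrix.of fun v p => D.LB (lam v) p := ⟨_, rfl⟩
  have hFv : ∀ v, D.GKM (F v) := by
    intro v
    rw [hF]
    exact gkm_LB (hl v)
  obtain ⟨P, hPd⟩ : ∃ P : RH r, P = ∏ b ∈ D.Pos, (1 - chr b) := ⟨_, rfl⟩
  have hP0 : P ≠ 0 := by
    rw [hPd]
    exact Finset.prod_ne_zero_iff.2 fun a ha => one_sub_ne (ne_zero (mem_of_pos ha))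
  obtain ⟨A, hA⟩ : ∃ A, A = ∑ v, -D.dl (lam v) v := ⟨_, rfl⟩
  have hAB : ∑ v, -D.dl (lam v) (D.w0 * v) = A + (m + 1) • D.tr := by
    have h1 := sum_mu hμ hc
    have h2 : ∀ v, -D.dl (lam v) (D.w0 * v) = -D.dl (lam v) v - D.dl (μ v) D.w0 := by
      intro v
      have hw : D.IsWt (μ v) := by
        refine isWt_nat (n := fun i => if D.rt v⁻¹ (al i) ∈ D.Pos then 0 else 1) fun i => ?_
        rw [hμ v i]
        split_ifs <;> simp
      rw [hd v (D.w0 * v), hd v v, mul_assoc, mul_inv_cancel, mul_one, dl_one hw]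
      abel
    rw [Finset.sum_congr rfl fun v _ => h2 v, Finset.sum_sub_distrib, h1, ← hA, sub_neg_eq_add]
  have hdet := nc_det hμ hl hd
  rw [← hF, ← hA, hAB] at hdet
  obtain ⟨U, hU⟩ := det_gkm hFv hc
  rw [← hPd] at hU
  have hnP : Nc 0 ((m + 1) • D.tr) (P ^ (m + 1)) := by
    rw [hPd]
    exact nc_pos D (m + 1)
  have hUA : U = chr A := hnP.cancel hdet (by rw [hU, mul_comm])
  have hadj : ∀ v, ∃ k, F.adjugate D.w0 v = P ^ m * k := by
    intro v
    rw [hPd]
    exact adj_gkm hFv hc v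
  choose k hk using hadj
  have hdet0 : F.det ≠ 0 := by
    rw [hU, hUA]
    exact mul_ne_zero (pow_ne_zero _ hP0) (isUnit_chr A).ne_zero
  refine lin_of_W hl (fun v => chr (-A) * k v) fun p => ?_
  apply mul_left_cancel₀ hdet0
  have h1 : ∀ v, F.det * (chr (-A) * k v * D.LB (lam v) p) = P * (F.adjugate D.w0 v * F v p) := by
    intro v
    have h3 : F v p = D.LB (lam v) p := by
      rw [hF]
      rfl
    rw [hU, hUA, hk v, h3]
    have h2 := chr_mul_neg A
    linear_combination (P ^ (m + 1) * k v * D.LB (lam v) p) * h2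
  rw [Finset.mul_sum, Finset.sum_congr rfl fun v _ => h1 v, ← Finset.mul_sum]
  have h4 : ∑ v, F.adjugate D.w0 v * F v p = (F.adjugate * F) D.w0 p := (Matrix.mul_apply).symm
  rw [h4, Matrix.adjugate_mul, Matrix.smul_apply, Matrix.one_apply]
  unfold Bpt
  rw [← hPd]
  by_cases hp : p = D.w0
  · rw [if_pos hp, if_pos hp.symm, smul_eq_mul, mul_one, mul_comm]
  · rw [if_neg hp, if_neg (fun h => hp h.symm), smul_zero, mul_zero, mul_zero]

end Pool.Agent.FLG.RS
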