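import Pool.Agent.FLG.K.Lin
import Pool.Agent.FLG.K.Dem
import Pool.Agent.FLG.K.Low
import Pool.Agent.FLG.K.Stein

/-!
# FLG-KExi: existence of the basis `B_w`

By downward induction on the length, with the Demazure operators.
-/

set_option autoImplicit false

open scoped BigOperators Topology
open Filter
open Pool.Agent.DST.TE Pool.Agent.DSTJ.Spec

namespace Pool.Agent.FLG.RS

variable {r : ℕ} {D : RS r}

private theorem ex_w0_inv : (D.w0)⁻¹ = D.w0 := inv_eq_of_mul_eq_one_right w0_mul_self

private theorem ex_sq (i : Fin r) (w : D.W) : D.s i * (D.s i * w) = w := by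
  rw [← mul_assoc, s_mul_self, one_mul]

private theorem ex_ss (i : Fin r) (a : Fin r → ℤ) : D.rt (D.s i) (D.rt (D.s i) a) = a := by
  rw [← D.rt_mul, s_mul_self, D.rt_one]

private theorem ex_pos {w : D.W} {i : Fin r} (hw : D.len w < D.len (D.s i * w)) :
    D.rt w⁻¹ (al i) ∈ D.Pos := by
  by_contra h
  have := len_s_mul_of_neg i w h
  omega

private theorem ex_inv (i : Fin r) (w : D.W) (b : Fin r → ℤ) :
    D.rt (D.s i * w)⁻¹ b = D.rt w⁻¹ (D.rt (D.s i) b) := by
  rw [mul_inv_rev, s_inv, D.rt_mul]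

private theorem ex_bru {p : D.W} {i : Fin r} (h : ¬ D.len p < D.len (D.s i * p)) :
    D.Bru (D.s i * p) p := by
  have h1 : D.rt p⁻¹ (al i) ∉ D.Pos := by
    intro h2
    have := len_s_mul_of_pos i p h2
    omega
  have h2 : D.rt (D.s i * p)⁻¹ (al i) ∈ D.Pos := by
    rw [ex_inv, rt_s_al, D.rt_neg]
    exact (not_pos_iff (D.rt_mem.2 (D.al_mem i))).1 h1
  have h3 := bru_refl_mul (u := D.s i * p) (D.al_pos i) h2
  have h4 : D.refl (al i) * (D.s i * p) = p := ex_sq i p
  rwa [h4] at h3

private theorem ex_prod {w : D.W} {i : Fin r} (hw : D.len w < D.len (D.s i * w)) :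
    ∏ b ∈ D.Inv (D.s i * w), (1 - chr (D.rt (D.s i) b) : RH r) =
      (1 - chr (-al i)) * ∏ b ∈ D.Inv w, (1 - chr b) := by
  have h1 := ex_pos hw
  have h2 : al i ∈ D.Inv (D.s i * w) := by
    unfold Inv
    rw [Finset.mem_filter]
    refine ⟨D.al_pos i, ?_⟩
    rw [ex_inv, rt_s_al, D.rt_neg]
    exact neg_not_pos h1
  rw [← Finset.mul_prod_erase _ _ h2, rt_s_al]
  congr 1
  refine Finset.prod_nbij' (D.rt (D.s i)) (D.rt (D.s i)) ?_ ?_ ?_ ?_ ?_
  · intro b hb
    obtain ⟨h3, h4⟩ := Finset.mem_erase.1 hb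
    unfold Inv at h4 ⊢
    rw [Finset.mem_filter] at h4 ⊢
    refine ⟨(s_perm i h4.1 h3).1, ?_⟩
    rw [← ex_inv]
    exact h4.2
  · intro b hb
    unfold Inv at hb
    rw [Finset.mem_filter] at hb
    have h3 : b ≠ al i := by
      rintro rfl
      exact hb.2 h1
    obtain ⟨h4, h5⟩ := s_perm i hb.1 h3
    refine Finset.mem_erase.2 ⟨h5, ?_⟩
    unfold Inv
    rw [Finset.mem_filter, ex_inv, ex_ss]
    exact ⟨h4, hb.2⟩
  · intro b _
    exact ex_ss i b
  · intro b _
    exact ex_ss i b
  · intro b _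
    rfl

theorem isB_w0 (D : RS r) : D.IsB D.w0 D.Bpt := by
  refine ⟨gkm_Bpt D, ?_, ?_, steinberg D⟩
  · intro p hp
    have h1 : p = D.w0 := by
      by_contra h
      apply hp
      unfold Bpt
      rw [if_neg h]
    rw [h1]
    exact Bru.refl _
  · unfold Bpt
    rw [if_pos rfl]
    refine Finset.prod_congr ?_ fun _ _ => rfl
    unfold Inv
    rw [eq_comm, Finset.filter_eq_self]
    intro a ha
    rw [ex_w0_inv]
    exact w0_pos ha

theorem isB_dem {w : D.W} {i : Fin r} (hw : D.len w < D.len (D.s i * w)) {f g : D.W → RH r}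
    (hf : D.IsB (D.s i * w) f) (hg : D.IsDem i f g) : D.IsB w g := by
  have h1 := ex_pos hw
  have hv : D.Bru w (D.s i * w) := bru_refl_mul (D.al_pos i) h1
  have hne : (1 - chr (al i) : RH r) ≠ 0 := one_sub_ne (ne_zero (D.al_mem i))
  refine ⟨dem_gkm hf.gkm hg, ?_, ?_, lin_dem hf.lin hg⟩
  · intro p hp
    by_contra hn
    apply hp
    have e1 : f p = 0 := by
      by_contra h
      exact hn (hv.trans (hf.supp p h))
    have e2 : f (D.s i * p) = 0 := by
      by_contra h
      have h2 := hf.supp _ h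
      apply hn
      by_cases h3 : D.len p < D.len (D.s i * p)
      · exact bru_lower hw h3 h2
      · exact (hv.trans h2).trans (ex_bru h3)
    have e3 := hg p
    rw [e1, e2, map_zero, mul_zero, sub_zero] at e3
    exact (mul_eq_zero.1 e3).resolve_left hne
  · have e1 : f w = 0 := by
      by_contra h
      have h2 := (hf.supp w h).len_le
      omega
    have e2 := hg w
    rw [e1, hf.diag, map_prod] at e2
    have e3 : ∀ b ∈ D.Inv (D.s i * w), D.wK (D.s i) (1 - chr b : RH r) =
        1 - chr (D.rt (D.s i) b) := by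
      intro b _
      rw [map_sub, map_one, wK_chr]
    rw [Finset.prod_congr rfl e3, ex_prod hw] at e2
    have e4 := chr_mul_neg (r := r) (al i)
    apply mul_left_cancel₀ hne
    rw [e2]
    linear_combination (∏ b ∈ D.Inv w, (1 - chr b : RH r)) * e4

theorem exists_isB (w : D.W) : ∃ f, D.IsB w f := by
  have key : ∀ x : D.W, D.len (x * D.w0) + D.len x = D.dm := by
    intro x
    have h := len_w0_mul x⁻¹
    rw [len_inv x] at h
    rw [← len_inv (x * D.w0), mul_inv_rev, ex_w0_inv]
    exact h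
  have main : ∀ n : ℕ, ∀ w : D.W, D.len (w * D.w0) = n → ∃ f, D.IsB w f := by
    intro n
    induction n with
    | zero =>
      intro w hw
      have h1 := eq_one_of_len hw
      have h2 : w = D.w0 := by
        rw [← ex_w0_inv]
        exact eq_inv_of_mul_eq_one_left h1
      rw [h2]
      exact ⟨_, isB_w0 D⟩
    | succ n ih =>
      intro w hw
      have hw1 : w * D.w0 ≠ 1 := by
        intro h
        rw [h, len_one] at hw
        omega
      obtain ⟨i, hi⟩ := exists_descent hw1
      rw [← mul_assoc] at hi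
      obtain ⟨f, hf⟩ := ih (D.s i * w) (by omega)
      have h3 := key w
      have h4 := key (D.s i * w)
      obtain ⟨g, hg⟩ := dem_exists hf.gkm i
      exact ⟨g, isB_dem (by omega) hf hg⟩
  exact main _ w rfl

/-- the basis of `K_T(G/B)` -/
noncomputable def Bk (D : RS r) (w p : D.W) : RH r := (exists_isB w).choose p

theorem isB_Bk (w : D.W) : D.IsB w (D.Bk w) := (exists_isB w).choose_spec

end Pool.Agent.FLG.RS
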