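import Pool.Agent.FLG.K.Dl

/-!
# FLG-KGkm: the GKM conditions
-/

set_option autoImplicit false

open scoped BigOperators Topology
open Filter
open Pool.Agent.DST.TE Pool.Agent.DSTJ.Spec

namespace Pool.Agent.FLG.RS

variable {r : ℕ} {D : RS r}

theorem gkm_add {f g : D.W → RH r} (hf : D.GKM f) (hg : D.GKM g) : D.GKM fun p => f p + g p := by
  intro p b hb
  have h1 : f p + g p - (f (D.refl b * p) + g (D.refl b * p)) =
      (f p - f (D.refl b * p)) + (g p - g (D.refl b * p)) := by ring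
  rw [h1]
  exact dvd_add (hf p b hb) (hg p b hb)

theorem gkm_mul {f g : D.W → RH r} (hf : D.GKM f) (hg : D.GKM g) : D.GKM fun p => f p * g p := by
  intro p b hb
  have h1 : f p * g p - f (D.refl b * p) * g (D.refl b * p) =
      f p * (g p - g (D.refl b * p)) + g (D.refl b * p) * (f p - f (D.refl b * p)) := by ring
  rw [h1]
  exact dvd_add ((hg p b hb).mul_left _) ((hf p b hb).mul_left _)

theorem gkm_const (c : RH r) : D.GKM fun _ => c := by
  intro p b _
  rw [sub_self]
  exact dvd_zero _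

theorem gkm_sum {ι : Type*} (s : Finset ι) {f : ι → D.W → RH r} (hf : ∀ i ∈ s, D.GKM (f i)) :
    D.GKM fun p => ∑ i ∈ s, f i p := by
  intro p b hb
  rw [← Finset.sum_sub_distrib]
  exact Finset.dvd_sum fun i hi => hf i hi p b hb

theorem gkm_sK {f : D.W → RH r} (hf : D.GKM f) : D.GKM fun p => sK (f p) := by
  intro p b hb
  rw [← map_sub, ← dvd_neg_iff]
  have h1 := map_dvd (sK : RH r →+* RH r) (hf p b hb)
  rwa [map_sub, map_one, sK_chr] at h1

theorem gkm_LB {h : Fin r → ℂ} (hh : D.IsWt h) : D.GKM (D.LB h) := by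
  intro p b hb
  obtain ⟨n, -, hn⟩ := dl_refl hh p hb
  unfold LB
  rw [hn]
  refine dvd_chr_sub (n := -n) ?_
  rw [neg_smul]
  abel

private theorem dvd_pos_prod {b : Fin r → ℤ} (hb : b ∈ D.Φ) :
    (1 - chr b : RH r) ∣ ∏ a ∈ D.Pos, (1 - chr a) := by
  rcases pos_or_neg hb with h | h
  · exact Finset.dvd_prod_of_mem (fun a => (1 - chr a : RH r)) h
  · rw [← dvd_neg_iff]
    exact Finset.dvd_prod_of_mem (fun a => (1 - chr a : RH r)) h

theorem gkm_Bpt (D : RS r) : D.GKM D.Bpt := by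
  intro p b hb
  have h1 : ∀ q, (1 - chr b : RH r) ∣ D.Bpt q := by
    intro q
    unfold Bpt
    split_ifs
    · exact dvd_pos_prod hb
    · exact dvd_zero _
  exact dvd_sub (h1 _) (h1 _)

end Pool.Agent.FLG.RS
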