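import Pool.Agent.FLG.K.Gkm

/-!
# FLG-KLin: combinations of line bundles are stable under the Demazure operators
-/

set_option autoImplicit false

open scoped BigOperators Topology
open Filter
open Pool.Agent.DST.TE Pool.Agent.DSTJ.Spec

namespace Pool.Agent.FLG.RS

variable {r : ℕ} {D : RS r}

theorem lin_add {f g : D.W → RH r} (hf : D.Lin f) (hg : D.Lin g) : D.Lin fun p => f p + g p := by
  obtain ⟨n, h, a, hw, hp⟩ := hf
  obtain ⟨n', h', a', hw', hp'⟩ := hg
  refine ⟨n + n', Fin.append h h', Fin.append a a', fun k => ?_, fun p => ?_⟩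
  · induction k using Fin.addCases with
    | left k => rw [Fin.append_left]; exact hw k
    | right k => rw [Fin.append_right]; exact hw' k
  · rw [Fin.sum_univ_add]
    refine congrArg₂ (fun x y => x + y) ?_ ?_
    · rw [hp p]
      refine Finset.sum_congr rfl fun k _ => ?_
      rw [Fin.append_left, Fin.append_left]
    · rw [hp' p]
      refine Finset.sum_congr rfl fun k _ => ?_
      rw [Fin.append_right, Fin.append_right]

private theorem wK_LB {h : Fin r → ℂ} (hh : D.IsWt h) (i : Fin r) (p : D.W) :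
    D.wK (D.s i) (D.LB h (D.s i * p)) = chr (D.dl h (D.s i)) * D.LB h p := by
  unfold LB
  rw [wK_chr, ← chr_add, dl_mul hh, rt_neg, rt_add, ← rt_mul, s_mul_self, rt_one]
  have h1 := dl_mul hh (D.s i) (D.s i)
  rw [s_mul_self, dl_one hh] at h1
  have h2 : D.rt (D.s i) (D.dl h (D.s i)) = -D.dl h (D.s i) := by
    have h3 := h1.symm
    rw [add_comm] at h3
    exact eq_neg_of_add_eq_zero_left h3
  congr 1
  rw [h2]
  abel

theorem lin_dem {f g : D.W → RH r} (hf : D.Lin f) {i : Fin r} (hg : D.IsDem i f g) : D.Lin g := by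
  obtain ⟨n, h, a, hw, hp⟩ := hf
  have hdv : ∀ k, ∃ m, a k - chr (al i) * D.wK (D.s i) (a k) * chr (D.dl (h k) (D.s i)) =
      (1 - chr (al i)) * m := by
    intro k
    have h1 : (1 - chr (al i) : RH r) ∣ a k - D.wK (D.s i) (a k) := wK_sub_dvd (D.al_mem i) (a k)
    obtain ⟨m, -, hm⟩ := dl_refl (hw k) 1 (D.al_mem i)
    rw [mul_one, dl_one (hw k), zero_sub] at hm
    have h2 : (1 - chr (al i) : RH r) ∣ 1 - chr (al i) * chr (D.dl (h k) (D.s i)) := by
      rw [← chr_add]
      have h3 : al i + D.dl (h k) (D.s i) = (1 - m) • al i := by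
        have h4 : D.dl (h k) (D.s i) = -(m • al i) := hm
        rw [h4, sub_smul, one_smul, sub_eq_add_neg]
      rw [h3]
      exact dvd_zsmul _ _
    have h5 : a k - chr (al i) * D.wK (D.s i) (a k) * chr (D.dl (h k) (D.s i)) =
        (a k - D.wK (D.s i) (a k)) +
          (1 - chr (al i) * chr (D.dl (h k) (D.s i))) * D.wK (D.s i) (a k) := by
      ring
    rw [h5]
    exact dvd_add h1 (h2.mul_right _)
  choose m hm using hdv
  refine ⟨n, h, m, hw, fun p => ?_⟩
  have hne : (1 - chr (al i) : RH r) ≠ 0 := by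
    refine one_sub_ne fun h0 => ?_
    have h1 := congrFun h0 i
    rw [al, Pi.single_eq_same] at h1
    exact one_ne_zero h1
  refine mul_left_cancel₀ hne ?_
  rw [hg p, hp p, hp (D.s i * p), map_sum, Finset.mul_sum, ← Finset.sum_sub_distrib, Finset.mul_sum]
  refine Finset.sum_congr rfl fun k _ => ?_
  rw [map_mul, wK_LB (hw k), ← mul_assoc (1 - chr (al i)), ← hm k]
  ring

end Pool.Agent.FLG.RS
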