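import Pool.Agent.FLG.K.RingB

/-!
# FLG-KNc: elements of the representation ring with unique extreme terms
-/

set_option autoImplicit false

open scoped BigOperators Topology
open Filter
open Pool.Agent.DST.TE Pool.Agent.DSTJ.Spec

namespace Pool.Agent.FLG.RS

variable {r : ℕ} {D : RS r}

/-- All exponents of `X` are between `A` and `B` (coordinatewise), the coefficient of `A` is `1`, the one
of `B` is `1` or `-1`. -/
structure Nc (A B : Fin r → ℤ) (X : RH r) : Prop where
  bd : ∀ μ, X.coeff μ ≠ 0 → A ≤ μ ∧ μ ≤ B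
  lo : X.coeff A = 1
  hi : X.coeff B = 1 ∨ X.coeff B = -1

private theorem coeff_mul_ne {f g : RH r} {μ : Fin r → ℤ} (h : (f * g).coeff μ ≠ 0) :
    ∃ a b, f.coeff a ≠ 0 ∧ g.coeff b ≠ 0 ∧ a + b = μ := by
  classical
  by_contra hc
  push Not at hc
  refine h ?_
  rw [AddMonoidAlgebra.coeff_mul]
  refine Finset.sum_eq_zero fun a ha => Finset.sum_eq_zero fun b hb => if_neg ?_
  exact hc a b (Finsupp.mem_support_iff.1 ha) (Finsupp.mem_support_iff.1 hb)

private theorem coeff_chr (a μ : Fin r → ℤ) : (chr a : RH r).coeff μ = if a = μ then 1 else 0 := by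
  classical
  unfold chr
  rw [AddMonoidAlgebra.coeff_single, Finsupp.single_apply]

theorem Nc.one : Nc 0 0 (1 : RH r) := by
  rw [← chr_zero]
  refine ⟨fun μ hμ => ?_, ?_, Or.inl ?_⟩
  · rw [coeff_chr] at hμ
    by_cases h : (0 : Fin r → ℤ) = μ
    · rw [← h]
      exact ⟨le_refl _, le_refl _⟩
    · rw [if_neg h] at hμ
      exact absurd rfl hμ
  · rw [coeff_chr, if_pos rfl]
  · rw [coeff_chr, if_pos rfl]

theorem Nc.mul {A B A' B' : Fin r → ℤ} {X X' : RH r} (h : Nc A B X) (h' : Nc A' B' X') :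
    Nc (A + A') (B + B') (X * X') := by
  have h1 : (X * X').coeff (A + A') = X.coeff A * X'.coeff A' := by
    refine AddMonoidAlgebra.coeff_mul_add_of_uniqueAdd fun a b ha hb hab => ?_
    have h2 := (h.bd a (Finsupp.mem_support_iff.1 ha)).1
    have h3 := (h'.bd b (Finsupp.mem_support_iff.1 hb)).1
    have h4 : ∀ i, a i = A i ∧ b i = A' i := by
      intro i
      have h5 : a i + b i = A i + A' i := congrFun hab i
      have h6 : A i ≤ a i := h2 i
      have h7 : A' i ≤ b i := h3 i
      omega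
    exact ⟨funext fun i => (h4 i).1, funext fun i => (h4 i).2⟩
  have h1' : (X * X').coeff (B + B') = X.coeff B * X'.coeff B' := by
    refine AddMonoidAlgebra.coeff_mul_add_of_uniqueAdd fun a b ha hb hab => ?_
    have h2 := (h.bd a (Finsupp.mem_support_iff.1 ha)).2
    have h3 := (h'.bd b (Finsupp.mem_support_iff.1 hb)).2
    have h4 : ∀ i, a i = B i ∧ b i = B' i := by
      intro i
      have h5 : a i + b i = B i + B' i := congrFun hab i
      have h6 : a i ≤ B i := h2 i
      have h7 : b i ≤ B' i := h3 i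
      omega
    exact ⟨funext fun i => (h4 i).1, funext fun i => (h4 i).2⟩
  refine ⟨fun μ hμ => ?_, ?_, ?_⟩
  · obtain ⟨a, b, ha, hb, rfl⟩ := coeff_mul_ne hμ
    exact ⟨add_le_add (h.bd a ha).1 (h'.bd b hb).1, add_le_add (h.bd a ha).2 (h'.bd b hb).2⟩
  · rw [h1, h.lo, h'.lo, one_mul]
  · rw [h1']
    rcases h.hi with e | e <;> rcases h'.hi with e' | e' <;> rw [e, e'] <;> norm_num

theorem Nc.pow {A B : Fin r → ℤ} {X : RH r} (h : Nc A B X) (n : ℕ) : Nc (n • A) (n • B) (X ^ n) := by
  induction n with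
  | zero => rw [zero_smul, zero_smul, pow_zero]; exact Nc.one
  | succ n ih => rw [succ_nsmul, succ_nsmul, pow_succ]; exact ih.mul h

theorem Nc.prod {ι : Type*} (s : Finset ι) {A B : ι → Fin r → ℤ} {X : ι → RH r}
    (h : ∀ i ∈ s, Nc (A i) (B i) (X i)) : Nc (∑ i ∈ s, A i) (∑ i ∈ s, B i) (∏ i ∈ s, X i) := by
  classical
  induction s using Finset.induction_on with
  | empty => rw [Finset.sum_empty, Finset.sum_empty, Finset.prod_empty]; exact Nc.one
  | insert i s hi ih =>
    rw [Finset.sum_insert hi, Finset.sum_insert hi, Finset.prod_insert hi]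
    exact (h i (Finset.mem_insert_self i s)).mul (ih fun j hj => h j (Finset.mem_insert_of_mem hj))

theorem nc_sub {b : Fin r → ℤ} (hb : 0 ≤ b) (hne : b ≠ 0) : Nc 0 b (1 - chr b : RH r) := by
  have hc : ∀ μ, (1 - chr b : RH r).coeff μ = (if (0 : Fin r → ℤ) = μ then 1 else 0) - if b = μ then 1 else 0 := by
    intro μ
    rw [← chr_zero, AddMonoidAlgebra.coeff_sub, Finsupp.sub_apply, coeff_chr, coeff_chr]
  refine ⟨fun μ hμ => ?_, ?_, Or.inr ?_⟩
  · rw [hc] at hμ
    by_cases h : (0 : Fin r → ℤ) = μ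
    · rw [← h]
      exact ⟨le_refl _, hb⟩
    · by_cases h' : b = μ
      · rw [← h']
        exact ⟨hb, le_refl _⟩
      · rw [if_neg h, if_neg h', sub_zero] at hμ
        exact absurd rfl hμ
  · rw [hc, if_pos rfl, if_neg hne, sub_zero]
  · rw [hc, if_neg (fun h => hne h.symm), if_pos rfl, zero_sub]

theorem nc_pos (D : RS r) (k : ℕ) : Nc 0 (k • D.tr) ((∏ b ∈ D.Pos, (1 - chr b : RH r)) ^ k) := by
  have h := (Nc.prod D.Pos (A := fun _ => (0 : Fin r → ℤ)) (B := fun b => b)
    (X := fun b => (1 - chr b : RH r)) fun b hb => nc_sub (mem_Pos.1 hb).2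
      (ne_zero (mem_of_pos hb))).pow k
  rw [Finset.sum_const_zero, smul_zero] at h
  exact h

private theorem coeff_int_mul (n : ℤ) (a μ : Fin r → ℤ) :
    ((n : RH r) * chr a).coeff μ = if a = μ then n else 0 := by
  rw [← zsmul_eq_mul, AddMonoidAlgebra.coeff_smul_apply, coeff_chr]
  split_ifs
  · rw [smul_eq_mul, mul_one]
  · rw [smul_zero]

/-- A sum of characters with unique extreme exponents. -/
theorem nc_sum {ι : Type*} [Fintype ι] {ε : ι → ℤ} {e : ι → Fin r → ℤ} {A B : Fin r → ℤ} (i0 i1 : ι)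
    (hbd : ∀ i, A ≤ e i ∧ e i ≤ B) (h0 : e i0 = A) (h0' : ∀ i, e i = A → i = i0) (hε0 : ε i0 = 1)
    (h1 : e i1 = B) (h1' : ∀ i, e i = B → i = i1) (hε1 : ε i1 = 1 ∨ ε i1 = -1) :
    Nc A B (∑ i, (ε i : RH r) * chr (e i)) := by
  have hc : ∀ μ, (∑ i, (ε i : RH r) * chr (e i)).coeff μ = ∑ i, if e i = μ then ε i else 0 := by
    intro μ
    rw [AddMonoidAlgebra.coeff_sum, Finsupp.finsetSum_apply]
    exact Finset.sum_congr rfl fun i _ => coeff_int_mul _ _ _
  refine ⟨fun μ hμ => ?_, ?_, ?_⟩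
  · rw [hc] at hμ
    obtain ⟨i, -, hi⟩ := Finset.exists_ne_zero_of_sum_ne_zero hμ
    by_cases h : e i = μ
    · rw [← h]
      exact hbd i
    · rw [if_neg h] at hi
      exact absurd rfl hi
  · rw [hc, Finset.sum_eq_single i0, if_pos h0, hε0]
    · intro i _ hi
      exact if_neg fun h => hi (h0' i h)
    · intro h
      exact absurd (Finset.mem_univ _) h
  · rw [hc, Finset.sum_eq_single i1, if_pos h1]
    · exact hε1
    · intro i _ hi
      exact if_neg fun h => hi (h1' i h)
    · intro h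
      exact absurd (Finset.mem_univ _) h

private theorem lex_unique {a b c d : Fin r → ℤ} (h1 : toLex a ≤ toLex c) (h2 : toLex b ≤ toLex d)
    (h : a + b = c + d) : a = c ∧ b = d := by
  have h3 : toLex a + toLex b = toLex c + toLex d := congrArg toLex h
  have h4 := (add_eq_add_iff_eq_and_eq h1 h2).1 h3
  exact ⟨toLex.injective h4.1, toLex.injective h4.2⟩

/-- The quotient of two such elements of the same width is a monomial. -/
theorem Nc.cancel {A C : Fin r → ℤ} {P X U : RH r} (hP : Nc 0 C P) (hX : Nc A (A + C) X)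
    (h : U * P = X) : U = chr A := by
  classical
  have hne : U.coeff.support.Nonempty := by
    rw [Finset.nonempty_iff_ne_empty]
    intro h0
    rw [Finsupp.support_eq_empty, AddMonoidAlgebra.coeff_eq_zero] at h0
    rw [h0, zero_mul] at h
    have h1 := hX.lo
    rw [← h] at h1
    exact zero_ne_one h1
  obtain ⟨m, hm, hmax⟩ := Finset.exists_max_image U.coeff.support (fun μ => toLex μ) hne
  obtain ⟨m', hm', hmin⟩ := Finset.exists_min_image U.coeff.support (fun μ => toLex μ) hne
  have h1 : X.coeff (m + C) = U.coeff m * P.coeff C := by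
    rw [← h]
    refine AddMonoidAlgebra.coeff_mul_add_of_uniqueAdd fun a b ha hb hab => ?_
    exact lex_unique (hmax a ha) (Pi.toLex_monotone (hP.bd b (Finsupp.mem_support_iff.1 hb)).2) hab
  have h2 : X.coeff (m' + 0) = U.coeff m' * P.coeff 0 := by
    rw [← h]
    refine AddMonoidAlgebra.coeff_mul_add_of_uniqueAdd fun a b ha hb hab => ?_
    have h3 := lex_unique (hmin a ha) (Pi.toLex_monotone (hP.bd b (Finsupp.mem_support_iff.1 hb)).1) hab.symm
    exact ⟨h3.1.symm, h3.2.symm⟩
  have hmA : m ≤ A := by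
    have h3 : X.coeff (m + C) ≠ 0 := by
      rw [h1]
      refine mul_ne_zero (Finsupp.mem_support_iff.1 hm) ?_
      rcases hP.hi with e | e <;> rw [e] <;> norm_num
    have h4 := (hX.bd _ h3).2
    exact le_of_add_le_add_right h4
  have hAm : A ≤ m' := by
    have h3 : X.coeff (m' + 0) ≠ 0 := by
      rw [h2, hP.lo, mul_one]
      exact Finsupp.mem_support_iff.1 hm'
    have h4 := (hX.bd _ h3).1
    rwa [add_zero] at h4
  have hall : ∀ a ∈ U.coeff.support, a = A := by
    intro a ha
    refine toLex.injective (le_antisymm ?_ ?_)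
    · exact le_trans (hmax a ha) (Pi.toLex_monotone hmA)
    · exact le_trans (Pi.toLex_monotone hAm) (hmin a ha)
  have hm'A := hall m' hm'
  rw [hm'A, add_zero, hX.lo, hP.lo, mul_one] at h2
  refine AddMonoidAlgebra.ext (Finsupp.ext fun μ => ?_)
  rw [coeff_chr]
  split_ifs with hμ
  · rw [← hμ, ← h2]
  · by_contra hc
    exact hμ (hall μ (Finsupp.mem_support_iff.2 hc)).symm

end Pool.Agent.FLG.RS
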