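import Pool.Agent.FLG.K.Ring

/-!
# FLG-KRingB: the representation ring is a domain, characters are independent

Unique sums; linear independence of characters.
-/

set_option autoImplicit false

open scoped BigOperators Topology
open Filter
open Pool.Agent.DST.TE Pool.Agent.DSTJ.Spec

namespace Pool.Agent.FLG.RS

variable {r : ℕ} {D : RS r}

instance instDomainRH : IsDomain (RH r) := by
  infer_instance

private theorem chr_inj {a b : Fin r → ℤ} (h : (chr a : RH r) = chr b) : a = b := by
  unfold chr at h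
  exact AddMonoidAlgebra.single_left_injective one_ne_zero h

theorem one_sub_ne {b : Fin r → ℤ} (hb : b ≠ 0) : (1 - chr b : RH r) ≠ 0 := by
  intro h
  rw [sub_eq_zero, ← chr_zero] at h
  exact hb (chr_inj h).symm

/-- the value at `y = 0` is an integer -/
theorem evK_zero_int (f : RH r) : ∃ n : ℤ, evK 0 f = n := by
  induction f using RH_induction with
  | hchr μ =>
    refine ⟨1, ?_⟩
    rw [evK_chr, pr_zero_right, mul_zero, Complex.exp_zero, Int.cast_one]
  | hadd f g hf hg =>
    obtain ⟨m, hm⟩ := hf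
    obtain ⟨n, hn⟩ := hg
    exact ⟨m + n, by rw [map_add, hm, hn, Int.cast_add]⟩
  | hneg f hf =>
    obtain ⟨m, hm⟩ := hf
    exact ⟨-m, by rw [map_neg, hm, Int.cast_neg]⟩
  | h0 => exact ⟨0, by rw [map_zero, Int.cast_zero]⟩

theorem evK_diff (f : RH r) : Differentiable ℂ fun y : Fin r → ℂ => evK y f := by
  induction f using RH_induction with
  | hchr μ =>
    have h : (fun y : Fin r → ℂ => evK y (chr μ)) = fun y => Complex.exp (2 * Real.pi * Complex.I * ∑ i, (μ i : ℂ) * y i) := by
      funext y
      rw [evK_chr]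
      rfl
    rw [h]
    fun_prop
  | hadd f g hf hg =>
    have h : (fun y : Fin r → ℂ => evK y (f + g)) = fun y => evK y f + evK y g := by
      funext y
      rw [map_add]
    rw [h]
    exact hf.add hg
  | hneg f hf =>
    have h : (fun y : Fin r → ℂ => evK y (-f)) = fun y => -evK y f := by
      funext y
      rw [map_neg]
    rw [h]
    exact hf.neg
  | h0 =>
    have h : (fun y : Fin r → ℂ => evK y (0 : RH r)) = fun _ => 0 := by
      funext y
      rw [map_zero]
    rw [h]
    exact differentiable_const _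

/-- the character `y ↦ e^{2πi μ(y)}` -/
private noncomputable def yHom (μ : Fin r → ℤ) : Multiplicative (Fin r → ℂ) →* ℂ where
  toFun y := Complex.exp (2 * Real.pi * Complex.I * pr μ y.toAdd)
  map_one' := by
    rw [toAdd_one, pr_zero_right, mul_zero, Complex.exp_zero]
  map_mul' a b := by
    rw [toAdd_mul, pr_add, mul_add, Complex.exp_add]

private theorem pr_single (μ : Fin r → ℤ) (i : Fin r) (c : ℂ) : pr μ (Pi.single i c) = μ i * c := by
  unfold pr
  rw [Finset.sum_eq_single i]
  · rw [Pi.single_eq_same]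
  · intro j _ hj
    rw [Pi.single_eq_of_ne hj, mul_zero]
  · intro h
    exact absurd (Finset.mem_univ i) h

private theorem yHom_inj : Function.Injective (yHom : (Fin r → ℤ) → (Multiplicative (Fin r → ℂ) →* ℂ)) := by
  intro μ ν h
  by_contra hne
  obtain ⟨i, hi⟩ : ∃ i, μ i ≠ ν i := by
    by_contra hc
    push Not at hc
    exact hne (funext hc)
  have hk : ((μ i : ℂ) - ν i) ≠ 0 := by
    rw [sub_ne_zero]
    exact_mod_cast hi
  have h1 := DFunLike.congr_fun h (Multiplicative.ofAdd (Pi.single i (1 / (2 * ((μ i : ℂ) - ν i)))))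
  have h2 : Complex.exp (2 * Real.pi * Complex.I * pr μ (Pi.single i (1 / (2 * ((μ i : ℂ) - ν i))))) =
      Complex.exp (2 * Real.pi * Complex.I * pr ν (Pi.single i (1 / (2 * ((μ i : ℂ) - ν i))))) := h1
  rw [pr_single, pr_single] at h2
  have h3 : 2 * Real.pi * Complex.I * (μ i * (1 / (2 * ((μ i : ℂ) - ν i)))) =
      2 * Real.pi * Complex.I * (ν i * (1 / (2 * ((μ i : ℂ) - ν i)))) + Real.pi * Complex.I := by
    field_simp
    ring
  rw [h3, Complex.exp_add, Complex.exp_pi_mul_I] at h2
  have h4 := Complex.exp_ne_zero (2 * Real.pi * Complex.I * (ν i * (1 / (2 * ((μ i : ℂ) - ν i)))))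
  apply h4
  have h5 : ∀ z : ℂ, z * -1 = z → z = 0 := by
    intro z hz
    have : 2 * z = 0 := by linear_combination -hz
    simpa using this
  exact h5 _ h2

private theorem evK_sum (f : RH r) (y : Fin r → ℂ) :
    evK y f = ∑ μ ∈ f.coeff.support, (f.coeff μ : ℂ) * yHom μ (Multiplicative.ofAdd y) := by
  have h : f = ∑ μ ∈ f.coeff.support, (AddMonoidAlgebra.single μ (f.coeff μ) : RH r) := (AddMonoidAlgebra.sum_coeff_single f).symm
  conv_lhs => rw [h]
  rw [map_sum]
  refine Finset.sum_congr rfl fun μ _ => ?_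
  rw [evK_single]
  rfl

theorem evK_ext {f g : RH r} {S : Set (Fin r → ℂ)} (hS : Dense S)
    (h : ∀ y ∈ S, evK y f = evK y g) : f = g := by
  have h1 : (fun y : Fin r → ℂ => evK y f) = fun y => evK y g :=
    Continuous.ext_on hS (evK_diff f).continuous (evK_diff g).continuous h
  have h2 : ∀ y : Fin r → ℂ, evK y (f - g) = 0 := by
    intro y
    rw [map_sub, sub_eq_zero]
    exact congrFun h1 y
  have hli := (linearIndependent_monoidHom (Multiplicative (Fin r → ℂ)) ℂ).comp _ (yHom_inj (r := r))
  rw [linearIndependent_iff'] at hli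
  have h3 := hli (f - g).coeff.support (fun μ => (((f - g).coeff μ : ℤ) : ℂ)) (by
    funext y
    have h4 := h2 y.toAdd
    rw [evK_sum] at h4
    rw [Finset.sum_apply]
    exact h4)
  rw [← sub_eq_zero]
  ext μ
  by_contra hμ
  have h5 := h3 μ (Finsupp.mem_support_iff.2 hμ)
  exact hμ (by exact_mod_cast h5)

end Pool.Agent.FLG.RS
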